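import Pool.Agent.MP_855f4c_ag.Aff.Poly

/-! Bertini's theorem for very ample multidegrees, with approximation. -/

namespace Pool.Agent.MP_855f4c_ag.Aff

open MvPolynomial

namespace Bert

/-- More polynomials than variables are algebraically dependent. -/
theorem exists_rel {K T Y : Type} [Field K] [Fintype T] [Fintype Y]
    (h : Fintype.card Y < Fintype.card T) (ψ : T → MvPolynomial Y K) :
    ∃ P : MvPolynomial T K, P ≠ 0 ∧ aeval ψ P = 0 := by
  by_contra hn
  push Not at hn
  have hi : AlgebraicIndependent K ψ := by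
    rw [algebraicIndependent_iff]
    intro p hp
    by_contra h0
    exact hn p h0 hp
  have h1 := hi.cardinalMk_le_trdeg
  rw [MvPolynomial.trdeg_of_isDomain, Cardinal.lift_id, Cardinal.mk_fintype,
    Cardinal.mk_fintype, Nat.cast_le] at h1
  omega

variable {K : Type} [Field K] {ι κ : Type} [Fintype ι] [DecidableEq ι] {d : ι → ℕ}

/-- Index set of the perturbing monomials. -/
abbrev Idx (d : ι → ℕ) : Type := ((k : ι) → Fin (d k)) × (Σ k, Fin (d k))

/-- The product of the chart variables. -/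
noncomputable def chp (δ : ι →₀ ℕ) (c : Idx d) : Pol K d :=
  ∏ k, X ⟨k, c.1 k⟩ ^ (δ k - (Finsupp.single c.2.1 1 : ι →₀ ℕ) k)

/-- The perturbing monomials. -/
noncomputable def mon (δ : ι →₀ ℕ) (c : Idx d) : Pol K d := X c.2 * chp δ c

theorem mon_mh {δ : ι →₀ ℕ} (hδ : ∀ k, 0 < δ k) (c : Idx d) : MH (mon δ c : Pol K d) δ := by
  have h1 : MH (chp δ c : Pol K d)
      (∑ k, (δ k - (Finsupp.single c.2.1 1 : ι →₀ ℕ) k) • Finsupp.single k 1) :=
    MH.prod (f := fun k => (X ⟨k, c.1 k⟩ : Pol K d) ^ (δ k - (Finsupp.single c.2.1 1 : ι →₀ ℕ) k))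
      (δ := fun k => (δ k - (Finsupp.single c.2.1 1 : ι →₀ ℕ) k) • Finsupp.single k 1) _
      fun k _ => (MH.X (K := K) (d := d) ⟨k, c.1 k⟩).pow _
  refine ((MH.X c.2).mul h1).of_eq ?_
  ext k
  have := hδ k
  simp only [Finsupp.add_apply, Finsupp.finsetSum_apply, Finsupp.smul_apply, smul_eq_mul,
    Finsupp.single_apply, mul_ite, mul_one, mul_zero, Finset.sum_ite_eq', Finset.mem_univ,
    if_true]
  split_ifs <;> omega

omit [DecidableEq ι] in
theorem mon_eq (δ : ι →₀ ℕ) (c : Idx d) : ∃ e, (mon δ c : Pol K d) = monomial e 1 := by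
  refine ⟨Finsupp.single c.2 1 + ∑ k, Finsupp.single ⟨k, c.1 k⟩
    (δ k - (Finsupp.single c.2.1 1 : ι →₀ ℕ) k), ?_⟩
  unfold mon chp
  simp only [X_pow_eq_monomial]
  rw [← monomial_sum_one, X, monomial_mul, one_mul]

omit [DecidableEq ι] in
theorem pderiv_chp (δ : ι →₀ ℕ) (c : Idx d) (w : Σ k, Fin (d k)) (hw : w.2 ≠ c.1 w.1) :
    pderiv w (chp δ c : Pol K d) = 0 := by
  unfold chp
  refine Finset.prod_induction _ (fun f : Pol K d => pderiv w f = 0) ?_ ?_ ?_
  · intro a b ha hb
    rw [Derivation.leibniz, ha, hb]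
    simp
  · simp
  · intro k _
    have : (⟨k, c.1 k⟩ : Σ k, Fin (d k)) ≠ w := by
      rintro rfl
      exact hw rfl
    rw [Derivation.leibniz_pow, pderiv_X_of_ne this]
    simp

section

variable {R : Type} [CommRing R] [Algebra K R]

omit [DecidableEq ι] in
theorem aeval_chp (δ : ι →₀ ℕ) (c : Idx d) (x : (Σ k, Fin (d k)) → R)
    (hx : ∀ k, x ⟨k, c.1 k⟩ = 1) : aeval x (chp δ c : Pol K d) = 1 := by
  unfold chp
  simp [hx]

omit [DecidableEq ι] in
theorem aeval_mon (δ : ι →₀ ℕ) (c : Idx d) (x : (Σ k, Fin (d k)) → R)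
    (hx : ∀ k, x ⟨k, c.1 k⟩ = 1) : aeval x (mon δ c : Pol K d) = x c.2 := by
  unfold mon
  rw [map_mul, aeval_chp δ c x hx, aeval_X, mul_one]

theorem aeval_pderiv_mon (δ : ι →₀ ℕ) (c : Idx d) (x : (Σ k, Fin (d k)) → R)
    (hx : ∀ k, x ⟨k, c.1 k⟩ = 1) (w : Σ k, Fin (d k)) (hw : w.2 ≠ c.1 w.1) :
    aeval x (pderiv w (mon δ c : Pol K d)) = if c.2 = w then 1 else 0 := by
  unfold mon
  rw [Derivation.leibniz, pderiv_chp δ c w hw, smul_zero, zero_add, smul_eq_mul, map_mul,
    aeval_chp δ c x hx, one_mul]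
  split_ifs with h
  · rw [h, pderiv_X_self, map_one]
  · rw [pderiv_X_of_ne h, map_zero]

variable [Fintype κ] [DecidableEq κ] (g : κ → Pol K d) (δ : κ → ι →₀ ℕ)

/-- Value of the perturbed equation. -/
noncomputable def GG (s : κ × Idx d → R) (x : (Σ k, Fin (d k)) → R) (j : κ) : R :=
  aeval x (g j) + ∑ c, s (j, c) * aeval x (mon (δ j) c : Pol K d)

/-- Value of a combination of the gradients of the perturbed equations. -/
noncomputable def DD (s : κ × Idx d → R) (x : (Σ k, Fin (d k)) → R) (l : κ → R)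
    (v : Σ k, Fin (d k)) : R :=
  ∑ j, l j * (aeval x (pderiv v (g j)) +
    ∑ c, s (j, c) * aeval x (pderiv v (mon (δ j) c : Pol K d)))

variable (χ : (k : ι) → Fin (d k)) (j0 : κ) (k0 : ι)

/-- The parameters eliminated by the gradient equations. -/
def E1 (τ : κ × Idx d) : Prop := τ.1 = j0 ∧ τ.2.1 = χ ∧ τ.2.2.2 ≠ χ τ.2.2.1

/-- The parameters eliminated by the equations. -/
def E2 (τ : κ × Idx d) : Prop := τ.2 = (χ, ⟨k0, χ k0⟩)

instance (τ : κ × Idx d) : Decidable (E1 χ j0 τ) := by unfold E1; infer_instance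

instance (τ : κ × Idx d) : Decidable (E2 χ k0 τ) := by unfold E2; infer_instance

/-- The point read off from the new coordinates. -/
def xx (z : κ × Idx d → R) (v : Σ k, Fin (d k)) : R :=
  if v.2 = χ v.1 then 1 else z (j0, χ, v)

/-- The multipliers read off from the new coordinates. -/
def ll (z : κ × Idx d → R) (j : κ) : R := z (j, χ, ⟨k0, χ k0⟩)

/-- The free parameters. -/
def ss (z : κ × Idx d → R) (τ : κ × Idx d) : R :=
  if E1 χ j0 τ ∨ E2 χ k0 τ then 0 else z τ

/-- First elimination. -/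
noncomputable def P1 (z : κ × Idx d → R) (τ : κ × Idx d) : R :=
  if E1 χ j0 τ then -DD g δ (ss χ j0 k0 z) (xx χ j0 z) (ll χ k0 z) τ.2.2 else ss χ j0 k0 z τ

/-- Second elimination. -/
noncomputable def P2 (z : κ × Idx d → R) (τ : κ × Idx d) : R :=
  if E2 χ k0 τ then -GG g δ (P1 g δ χ j0 k0 z) (xx χ j0 z) τ.1 else P1 g δ χ j0 k0 z τ

variable {R' : Type} [CommRing R'] [Algebra K R'] (φ : R →ₐ[K] R')

omit [Fintype ι] [DecidableEq ι] in
theorem map_aev (x : (Σ k, Fin (d k)) → R) (f : Pol K d) :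
    φ (aeval x f) = aeval (fun v => φ (x v)) f := by
  rw [← AlgHom.comp_apply, comp_aeval]

theorem map_P2 (z : κ × Idx d → R) (τ : κ × Idx d) :
    φ (P2 g δ χ j0 k0 z τ) = P2 g δ χ j0 k0 (fun τ => φ (z τ)) τ := by
  have hx : (fun v => φ (xx χ j0 z v)) = xx χ j0 fun τ => φ (z τ) := by
    funext v
    unfold xx
    split_ifs <;> simp
  have hs : ∀ τ, φ (ss χ j0 k0 z τ) = ss χ j0 k0 (fun τ => φ (z τ)) τ := by
    intro τ
    unfold ss
    split_ifs <;> simp
  have h1 : ∀ τ, φ (P1 g δ χ j0 k0 z τ) = P1 g δ χ j0 k0 (fun τ => φ (z τ)) τ := by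
    intro τ
    unfold P1
    split_ifs
    · unfold DD
      simp only [map_neg, map_sum, map_mul, map_add, map_aev, hx, hs]
      rfl
    · exact hs τ
  unfold P2
  split_ifs
  · unfold GG
    simp only [map_neg, map_sum, map_mul, map_add, map_aev, hx, h1]
  · exact h1 τ

theorem solve (t : κ × Idx d → R) (x : (Σ k, Fin (d k)) → R) (l : κ → R)
    (hx : ∀ k, x ⟨k, χ k⟩ = 1) (hl : l j0 = 1) (hG : ∀ j, GG g δ t x j = 0)
    (hD : ∀ v, DD g δ t x l v = 0) :
    ∃ z : κ × Idx d → R, z (j0, χ, ⟨k0, χ k0⟩) = 1 ∧ ∀ τ, P2 g δ χ j0 k0 z τ = t τ := by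
  have h12 : ∀ τ : κ × Idx d, E1 χ j0 τ → ¬ E2 χ k0 τ := by
    rintro ⟨j, c⟩ ⟨-, -, h3⟩ h
    unfold E2 at h
    simp only at h h3
    subst h
    exact h3 rfl
  let z : κ × Idx d → R := fun τ =>
    if E2 χ k0 τ then l τ.1 else if E1 χ j0 τ then x τ.2.2 else t τ
  have zl : ll χ k0 z = l := by
    funext j
    have : E2 χ k0 (j, χ, ⟨k0, χ k0⟩) := rfl
    simp only [ll, z, this, if_true]
  have zx : xx χ j0 z = x := by
    funext v
    unfold xx
    split_ifs with h
    · obtain ⟨k, a⟩ := v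
      simp only at h
      subst h
      exact (hx k).symm
    · have h1 : E1 χ j0 (j0, χ, v) := ⟨rfl, rfl, h⟩
      simp only [z, h1, h12 _ h1, if_true, if_false]
  have zs : ∀ τ, ss χ j0 k0 z τ = if E1 χ j0 τ ∨ E2 χ k0 τ then 0 else t τ := by
    intro τ
    unfold ss
    split_ifs with h
    · rfl
    · push Not at h
      simp only [z, h.1, h.2, if_false]
  have z1 : ∀ τ, P1 g δ χ j0 k0 z τ = if E2 χ k0 τ then 0 else t τ := by
    intro τ
    unfold P1
    by_cases h : E1 χ j0 τ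
    · rw [if_pos h, if_neg (h12 τ h), zl, zx]
      obtain ⟨j, χ', v⟩ := τ
      obtain ⟨h1, h2, h3⟩ := h
      simp only at h1 h2 h3
      subst h1 h2
      have key : DD g δ t x l v = DD g δ (ss χ' j k0 z) x l v + t (j, χ', v) := by
        unfold DD
        have e : ∀ j' c, t (j', c) * aeval x (pderiv v (mon (δ j') c : Pol K d)) =
            ss χ' j k0 z (j', c) * aeval x (pderiv v (mon (δ j') c : Pol K d)) +
              if j' = j ∧ c = (χ', v) then t (j, χ', v) else 0 := by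
          intro j' c
          rw [zs]
          by_cases hc : j' = j ∧ c = (χ', v)
          · obtain ⟨rfl, rfl⟩ := hc
            have h4 : E1 χ' j' (j', χ', v) := ⟨rfl, rfl, h3⟩
            rw [if_pos (Or.inl h4), if_pos ⟨rfl, rfl⟩, aeval_pderiv_mon _ _ x hx v h3]
            simp
          · rw [if_neg hc, add_zero]
            split_ifs with h5
            · obtain ⟨χ'', v'⟩ := c
              have h6 : χ'' = χ' := by
                rcases h5 with h5 | h5
                · exact h5.2.1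
                · exact congrArg Prod.fst h5
              subst h6
              rw [aeval_pderiv_mon _ _ x hx v h3, if_neg, mul_zero, mul_zero]
              rintro rfl
              rcases h5 with h5 | h5
              · exact hc ⟨h5.1, rfl⟩
              · have h7 : (v' : Σ k, Fin (d k)) = ⟨k0, χ'' k0⟩ := congrArg Prod.snd h5
                subst h7
                exact h3 rfl
            · rfl
        simp only [e, Finset.sum_add_distrib, ← add_assoc, mul_add]
        congr 1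
        rw [Finset.sum_eq_single j]
        · simp [hl]
        · intro j' _ hj
          simp [hj]
        · simp
      rw [hD] at key
      linear_combination key
    · rw [if_neg h, zs]
      simp [h]
  refine ⟨z, ?_, fun τ => ?_⟩
  · have := congrFun zl j0
    rw [hl] at this
    exact this
  · unfold P2
    by_cases h : E2 χ k0 τ
    · rw [if_pos h, zx]
      obtain ⟨j, c⟩ := τ
      unfold E2 at h
      simp only at h
      subst h
      have key : GG g δ t x j = GG g δ (P1 g δ χ j0 k0 z) x j + t (j, χ, ⟨k0, χ k0⟩) := by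
        unfold GG
        have e : ∀ c, t (j, c) * aeval x (mon (δ j) c : Pol K d) =
            P1 g δ χ j0 k0 z (j, c) * aeval x (mon (δ j) c : Pol K d) +
              if c = (χ, ⟨k0, χ k0⟩) then t (j, χ, ⟨k0, χ k0⟩) else 0 := by
          intro c
          rw [z1]
          by_cases hc : c = (χ, ⟨k0, χ k0⟩)
          · subst hc
            have h4 : E2 χ k0 (j, χ, ⟨k0, χ k0⟩) := rfl
            rw [if_pos h4, if_pos rfl, aeval_mon _ _ x hx, hx]
            simp
          · have h4 : ¬ E2 χ k0 (j, c) := hc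
            rw [if_neg h4, if_neg hc, add_zero]
        simp only [e, Finset.sum_add_distrib, ← add_assoc]
        simp
      rw [hG] at key
      simp only
      linear_combination key
    · rw [if_neg h, z1, if_neg h]

end

variable [Fintype κ] [DecidableEq κ] (g : κ → Pol K d) (δ : κ → ι →₀ ℕ)

/-- The parameters with a bad point in a given chart lie on a hypersurface. -/
theorem exists_hyp {R : Type} [CommRing R] [Algebra K R] (χ : (k : ι) → Fin (d k)) (j0 : κ)
    (k0 : ι) : ∃ P : MvPolynomial (κ × Idx d) K, P ≠ 0 ∧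
      ∀ (t : κ × Idx d → R) (x : (Σ k, Fin (d k)) → R) (l : κ → R), (∀ k, x ⟨k, χ k⟩ = 1) →
        l j0 = 1 → (∀ j, GG g δ t x j = 0) → (∀ v, DD g δ t x l v = 0) → aeval t P = 0 := by
  classical
  let τ0 : κ × Idx d := (j0, χ, ⟨k0, χ k0⟩)
  let Z : κ × Idx d → MvPolynomial {τ // τ ≠ τ0} K := fun τ =>
    if h : τ = τ0 then 1 else X ⟨τ, h⟩
  obtain ⟨P, hP, h0⟩ := exists_rel (T := κ × Idx d) (Y := {τ // τ ≠ τ0})
    (Fintype.card_subtype_lt (x := τ0) (by simp)) (P2 g δ χ j0 k0 Z)
  refine ⟨P, hP, fun t x l hx hl hG hD => ?_⟩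
  obtain ⟨z, hz, ht⟩ := solve g δ χ j0 k0 t x l hx hl hG hD
  let φ : MvPolynomial {τ // τ ≠ τ0} K →ₐ[K] R := aeval fun τ => z τ.1
  have hZ : (fun τ => φ (Z τ)) = z := by
    funext τ
    simp only [Z]
    split_ifs with h
    · rw [map_one, h]
      exact hz.symm
    · exact aeval_X _ _
  have h1 := congrArg φ h0
  rw [map_zero, ← AlgHom.comp_apply, comp_aeval] at h1
  have h2 : (fun τ => φ (P2 g δ χ j0 k0 Z τ)) = t := by
    funext τ
    rw [map_P2, hZ, ht]
  rwa [h2] at h1

/-- The perturbed equations. -/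
noncomputable def pert (t : κ × Idx d → K) (j : κ) : Pol K d :=
  g j + ∑ c, C (t (j, c)) * mon (δ j) c

omit [Fintype κ] [DecidableEq κ] in
theorem aeval_pert {R : Type} [CommRing R] [Algebra K R] (t : κ × Idx d → K)
    (x : (Σ k, Fin (d k)) → R) (j : κ) :
    aeval x (pert g δ t j) = GG g δ (fun τ => algebraMap K R (t τ)) x j := by
  unfold pert GG
  simp only [map_add, map_sum, map_mul, aeval_C]

omit [DecidableEq κ] in
theorem aeval_pderiv_pert {R : Type} [CommRing R] [Algebra K R] (t : κ × Idx d → K)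
    (x : (Σ k, Fin (d k)) → R) (l : κ → R) (v : Σ k, Fin (d k)) :
    ∑ j, l j * aeval x (pderiv v (pert g δ t j)) =
      DD g δ (fun τ => algebraMap K R (t τ)) x l v := by
  unfold pert DD
  simp only [map_add, map_sum, pderiv_C_mul, map_mul, aeval_C]

omit [Fintype ι] [DecidableEq ι] [DecidableEq κ] in
/-- A bad point is scaled into a chart. -/
theorem chart {g : κ → Pol K d} {δ : κ → ι →₀ ℕ} (hg : ∀ j, MH (g j) (δ j))
    (hδ : ∀ j k, 0 < δ j k) (p : Amb K d) (hp : p ∈ zer g) (hb : ¬ Ind g p) :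
    ∃ (χ : (k : ι) → Fin (d k)) (j0 : κ) (x : (Σ k, Fin (d k)) → AlgebraicClosure K)
      (l : κ → AlgebraicClosure K), (∀ k, x ⟨k, χ k⟩ = 1) ∧ l j0 = 1 ∧
        (∀ j, aeval x (g j) = 0) ∧ ∀ v, ∑ j, l j * aeval x (pderiv v (g j)) = 0 := by
  unfold Ind at hb
  rw [Fintype.not_linearIndependent_iff] at hb
  obtain ⟨m, hm, j0, hj0⟩ := hb
  have hne : ∀ k, ∃ a, (p k).rep a ≠ 0 := fun k => Function.ne_iff.1 (p k).rep_nonzero
  choose χ hχ using hne
  let a : ι → AlgebraicClosure K := fun k => ((p k).rep (χ k))⁻¹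
  have ha : ∀ k, a k ≠ 0 := fun k => inv_ne_zero (hχ k)
  let A : (ι →₀ ℕ) → AlgebraicClosure K := fun η => η.prod fun k n => a k ^ n
  have hA : ∀ η, A η ≠ 0 := fun η => Finset.prod_ne_zero_iff.2 fun k _ => pow_ne_zero _ (ha k)
  refine ⟨χ, j0, fun v => a v.1 * (p v.1).rep v.2, fun j => m j / A (δ j) * (A (δ j0) / m j0),
    fun k => inv_mul_cancel₀ (hχ k), ?_, fun j => ?_, fun v => ?_⟩
  · have := hA (δ j0)
    field_simp
  · rw [(hg j).scale a fun v => (p v.1).rep v.2]
    have : aeval (fun v : Σ k, Fin (d k) => (p v.1).rep v.2) (g j) = 0 := hp j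
    rw [this, mul_zero]
  · have h0 := congrFun hm v
    simp only [Finset.sum_apply, Pi.smul_apply, smul_eq_mul, Pi.zero_apply] at h0
    have e : ∀ j, m j / A (δ j) * (A (δ j0) / m j0) *
        aeval (fun v : Σ k, Fin (d k) => a v.1 * (p v.1).rep v.2) (pderiv v (g j)) =
          (A (δ j0) / m j0 / a v.1) * (m j * ev (pderiv v (g j)) p) := by
      intro j
      have hη : δ j - Finsupp.single v.1 1 + Finsupp.single v.1 1 = δ j :=
        tsub_add_cancel_of_le (Finsupp.single_le_iff.2 (hδ j v.1))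
      rw [((hg j).pderiv v hη).scale a fun v => (p v.1).rep v.2]
      have h1 : A (δ j) = A (δ j - Finsupp.single v.1 1) * a v.1 := by
        conv_lhs => rw [← hη]
        simp only [A]
        rw [Finsupp.prod_add_index' (by simp) (by simp [pow_add]),
          Finsupp.prod_single_index (by simp), pow_one]
      have h2 := hA (δ j - Finsupp.single v.1 1)
      have h3 := ha v.1
      change _ * (A (δ j - Finsupp.single v.1 1) * ev (pderiv v (g j)) p) = _
      rw [h1]
      field_simp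
    simp only [e]
    rw [← Finset.mul_sum, h0, mul_zero]

end Bert

theorem bertini {K : Type} [NontriviallyNormedField K] {ι κ : Type} [Fintype ι] [Nonempty ι]
    [Fintype κ] {d : ι → ℕ} (g : κ → Pol K d) (δ : κ → ι →₀ ℕ) (hg : ∀ j, MH (g j) (δ j))
    (hδ : ∀ j k, 0 < δ j k) (ε : ℝ) (hε : 0 < ε) :
    ∃ g' : κ → Pol K d, (∀ j, MH (g' j) (δ j)) ∧ (∀ j s, ‖coeff s (g' j - g j)‖ < ε) ∧
      ∀ p ∈ zer g', Ind g' p := by
  classical
  obtain ⟨k0⟩ := ‹Nonempty ι›
  choose P hP hbad using fun a : ((k : ι) → Fin (d k)) × κ =>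
    Bert.exists_hyp (R := AlgebraicClosure K) g δ a.1 a.2 k0
  set N : ℕ := Fintype.card (Bert.Idx d) with hN
  have hr : 0 < ε / (N + 1) := by positivity
  have hQ : ∏ a, P a ≠ 0 := Finset.prod_ne_zero_iff.2 fun a _ => hP a
  obtain ⟨t, ht, htQ⟩ : ∃ t : κ × Bert.Idx d → K, (∀ τ, ‖t τ‖ < ε / (N + 1)) ∧
      eval t (∏ a, P a) ≠ 0 := by
    by_contra hn
    push Not at hn
    refine hQ (funext_set (fun _ => Metric.ball (0 : K) (ε / (N + 1)))
      (fun _ => infinite_of_mem_nhds (0 : K) (Metric.ball_mem_nhds _ hr)) fun x hx => ?_)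
    rw [map_zero]
    exact hn x fun τ => mem_ball_zero_iff.1 (hx τ (Set.mem_univ _))
  have hmh : ∀ j, MH (Bert.pert g δ t j) (δ j) := fun j =>
    (hg j).add (MH.sum _ fun c _ => ((MH.C _).mul (Bert.mon_mh (hδ j) c)).of_eq (zero_add _))
  refine ⟨Bert.pert g δ t, hmh, fun j s => ?_, fun p hp => ?_⟩
  · unfold Bert.pert
    rw [add_sub_cancel_left, coeff_sum]
    have h1 : ∀ c : Bert.Idx d, ‖coeff s (C (t (j, c)) * (Bert.mon (δ j) c : Pol K d))‖ ≤
        ε / (N + 1) := by
      intro c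
      obtain ⟨e, he⟩ := Bert.mon_eq (K := K) (δ j) c
      rw [he, coeff_C_mul, coeff_monomial]
      split_ifs
      · rw [mul_one]
        exact (ht _).le
      · rw [mul_zero, norm_zero]
        exact hr.le
    calc _ ≤ ∑ c : Bert.Idx d, ε / (N + 1) := norm_sum_le_of_le _ fun c _ => h1 c
      _ = N * (ε / (N + 1)) := by rw [Finset.sum_const, Finset.card_univ, nsmul_eq_mul]
      _ < (N + 1) * (ε / (N + 1)) := by gcongr; exact lt_add_one _
      _ = ε := by field_simp
  · by_contra hb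
    obtain ⟨χ, j0, x, l, hx, hl, hG, hD⟩ := Bert.chart hmh hδ p hp hb
    have h1 : aeval (algebraMap K (AlgebraicClosure K) ∘ t) (P (χ, j0)) = 0 :=
      hbad (χ, j0) (fun τ => algebraMap K _ (t τ)) x l hx hl
        (fun j => by rw [← Bert.aeval_pert, hG]) fun v => by rw [← Bert.aeval_pderiv_pert, hD]
    rw [aeval_algebraMap_apply, map_eq_zero] at h1
    rw [map_prod] at htQ
    exact Finset.prod_ne_zero_iff.1 htQ (χ, j0) (Finset.mem_univ _) h1

end Pool.Agent.MP_855f4c_ag.Aff
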