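import Pool.Agent.MP_855f4c_ag.Aff.Defs

/-! Bundled versions of the graded modules and of the cohomology theory, used in the proofs. -/

namespace Pool.Agent.MP_855f4c_ag.Aff

open MvPolynomial

/-- A graded module with a product, an action of `G` and trace functionals. -/
structure GM (F G : Type) [Field F] [Group G] where
  H : ModuleCat.{0} F
  gr : ℤ → Submodule F H
  mul : H →ₗ[F] H →ₗ[F] H
  ρ : G →* Module.End F H
  tr : ℕ → H →ₗ[F] F

section

variable {F G : Type} [Field F] [Group G]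

/-- Finite dimension; product and action respect the grading; the action is multiplicative and
scales the `m`-th trace by `χ ^ m`. -/
def GM.Wf (χ : G →* Fˣ) (A : GM F G) : Prop :=
  Module.Finite F A.H ∧ (∀ i j, ∀ a ∈ A.gr i, ∀ b ∈ A.gr j, A.mul a b ∈ A.gr (i + j)) ∧
    ∀ σ, (∀ i, ∀ a ∈ A.gr i, A.ρ σ a ∈ A.gr i) ∧
      (∀ a b, A.ρ σ (A.mul a b) = A.mul (A.ρ σ a) (A.ρ σ b)) ∧
      ∀ m a, A.tr m (A.ρ σ a) = (χ σ : F) ^ m * A.tr m a

/-- Vanishing above degree `2 m`. -/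
def GM.Top (A : GM F G) (m : ℕ) : Prop := ∀ j : ℤ, 2 * m < j → A.gr j = ⊥

/-- Maps respecting grading, product and action. -/
def GM.Hom (A B : GM F G) (f : A.H →ₗ[F] B.H) : Prop :=
  (∀ i, ∀ a ∈ A.gr i, f a ∈ B.gr i) ∧ (∀ a b, f (A.mul a b) = B.mul (f a) (f b)) ∧
    ∀ σ a, B.ρ σ (f a) = f (A.ρ σ a)

/-- Operators behaving like the product with a central class of degree two scaled by `χ`. -/
def GM.Op (χ : G →* Fˣ) (A : GM F G) (x : Module.End F A.H) : Prop :=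
  (∀ i, ∀ a ∈ A.gr i, x a ∈ A.gr (i + 2)) ∧ (∀ σ a, A.ρ σ (x a) = (χ σ : F) • x (A.ρ σ a)) ∧
    ∀ a b, A.mul (x a) b = x (A.mul a b) ∧ A.mul a (x b) = x (A.mul a b)

/-- `B` is the direct sum of the `x ^ k f (A)`, `k < r`, compatibly with gradings and traces. -/
def GM.Free (A B : GM F G) (f : A.H →ₗ[F] B.H) (x : Module.End F B.H) (r : ℕ) : Prop :=
  (∀ a : Fin r → A.H, ∑ k : Fin r, (x ^ (k : ℕ)) (f (a k)) = 0 → a = 0) ∧
    (∀ j, ∀ b ∈ B.gr j, ∃ a : Fin r → A.H, (∀ k : Fin r, a k ∈ A.gr (j - 2 * (k : ℕ))) ∧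
      b = ∑ k : Fin r, (x ^ (k : ℕ)) (f (a k))) ∧
    ∀ m s, r = s + 1 → A.Top m → ∀ a, B.tr (m + s) ((x ^ s) (f a)) = A.tr m a

end

/-- The data of a cohomology theory with compact support. -/
structure Coh (K F : Type) [Field K] [Field F] where
  χ : (AlgebraicClosure K ≃ₐ[K] AlgebraicClosure K) →* Fˣ
  H : ∀ {ι : Type} {d : ι → ℕ}, Set (Amb K d) →
    GM F (AlgebraicClosure K ≃ₐ[K] AlgebraicClosure K)
  e : ∀ {ι : Type} {d : ι → ℕ} (S : Set (Amb K d)), ι → Module.End F (H S).H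
  pull : ∀ {ι κ : Type} {d : ι → ℕ} (u : κ → ι) (S : Set (Amb K d))
    (T : Set (Amb K fun j => d (u j))), (H T).H →ₗ[F] (H S).H
  ext : ∀ {ι : Type} {d : ι → ℕ} (S T : Set (Amb K d)), (H S).H →ₗ[F] (H T).H

section

variable {K F : Type} [NontriviallyNormedField K] [Field F] (C : Coh K F)

/-- Products, action, traces, hyperplane classes; a form without zeros kills its class. -/
def Coh.Basic : Prop :=
  ∀ (ι : Type) (d : ι → ℕ) (S : Set (Amb K d)), LC S → (C.H S).Wf C.χ ∧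
    (∀ k, (C.H S).Op C.χ (C.e S k) ∧ ∀ l, C.e S k * C.e S l = C.e S l * C.e S k) ∧
    ∀ f δ, MH f δ → (∀ p ∈ S, ev f p ≠ 0) → (δ.sum fun k n => n • C.e S k) = 0

/-- Functorial pull-back along proper morphisms. -/
def Coh.Natural : Prop :=
  ∀ (ι κ : Type) (d : ι → ℕ) (u : κ → ι) (S : Set (Amb K d)) (T : Set (Amb K fun j => d (u j))),
    Proper u S T → (C.H T).Hom (C.H S) (C.pull u S T) ∧
      (∀ k a, C.pull u S T (C.e T k a) = C.e S (u k) (C.pull u S T a)) ∧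
      (∀ a, C.pull (fun k => k) S S a = a) ∧
      ∀ (μ : Type) (u' : μ → κ) (R : Set (Amb K fun j => d (u (u' j)))), Proper u' T R →
        ∀ a, C.pull u S T (C.pull u' T R a) = C.pull (fun j => u (u' j)) S R a

/-- Extension by zero from an open part, and two consequences of the long exact sequence. -/
def Coh.Excision : Prop :=
  ∀ (ι : Type) (d : ι → ℕ) (T Z : Set (Amb K d)), LC T → Closed Z →
    (C.H (T \ Z)).Hom (C.H T) (C.ext (T \ Z) T) ∧
      (∀ k a, C.ext (T \ Z) T (C.e (T \ Z) k a) = C.e T k (C.ext (T \ Z) T a)) ∧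
      (∀ m, (C.H T).Top m → ∀ a, (C.H T).tr m (C.ext (T \ Z) T a) = (C.H (T \ Z)).tr m a) ∧
      (∀ i, ∀ a ∈ (C.H T).gr i, C.pull (fun k => k) (T ∩ Z) T a = 0 ↔
        ∃ b ∈ (C.H (T \ Z)).gr i, C.ext (T \ Z) T b = a) ∧
      ∀ i, (∀ c ∈ (C.H (T ∩ Z)).gr (i - 1), ∃ a ∈ (C.H T).gr (i - 1),
          C.pull (fun k => k) (T ∩ Z) T a = c) →
        ∀ b ∈ (C.H (T \ Z)).gr i, C.ext (T \ Z) T b = 0 → b = 0

/-- Restriction to a closed subset commutes with extension by zero. -/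
def Coh.BaseChange : Prop :=
  ∀ (ι : Type) (d : ι → ℕ) (T Z Y : Set (Amb K d)), LC T → Closed Z → Closed Y → ∀ a,
    C.pull (fun k => k) (T ∩ Y) T (C.ext (T \ Z) T a) =
      C.ext ((T ∩ Y) \ Z) (T ∩ Y) (C.pull (fun k => k) ((T ∩ Y) \ Z) (T \ Z) a)

/-- The projective bundle formula. -/
def Coh.Bundle : Prop :=
  ∀ (ι κ : Type) (d : ι → ℕ) (u : κ → ι) (S : Set (Amb K d)) (T : Set (Amb K fun j => d (u j)))
    (k : ι) (r : ℕ), Proper u S T →
    (∀ t ∈ T, ∃ M : Submodule (AlgebraicClosure K) (Fin (d k) → AlgebraicClosure K),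
      Module.finrank (AlgebraicClosure K) M = r ∧
        Set.BijOn (fun p => p k) {p ∈ S | re u p = t} {l | l.submodule ≤ M}) →
    (C.H T).Free (C.H S) (C.pull u S T) (C.e S k) r

/-- Cohomological dimension of a subset of a locally smooth locus of codimension `c`. -/
def Coh.Dimension : Prop :=
  ∀ (ι : Type) [Fintype ι] (d : ι → ℕ) (S : Set (Amb K d)) (c m : ℕ), LC S →
    m + c + Fintype.card ι = ∑ k, d k →
    (∀ p ∈ S, ∃ g : Fin c → Pol K d, (∀ j, ∃ δ, MH (g j) δ) ∧ S ⊆ zer g ∧ Ind g p) →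
    (C.H S).Top m

/-- Poincare duality for smooth projective varieties of dimension `m`. -/
def Coh.Duality : Prop :=
  ∀ (ι κ : Type) [Fintype ι] (d : ι → ℕ) (g : κ → Pol K d) (δ : ι →₀ ℕ) (c m : ℕ),
    (∀ j, MH (g j) δ) → Smooth g c (zer g) → m + c + Fintype.card ι = ∑ k, d k →
    ∀ i, ∀ a ∈ (C.H (zer g)).gr i, a ≠ 0 →
      (∃ b ∈ (C.H (zer g)).gr (2 * m - i), (C.H (zer g)).tr m ((C.H (zer g)).mul a b) ≠ 0) ∧
        ∃ b ∈ (C.H (zer g)).gr (2 * m - i), (C.H (zer g)).tr m ((C.H (zer g)).mul b a) ≠ 0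

/-- Specialisation from an open part of a zero set, along which the equations are transversal, to
all nearby smooth complete intersections. -/
def Coh.Tube : Prop :=
  ∀ (ι κ : Type) [Fintype ι] [Fintype κ] (d : ι → ℕ) (g : κ → Pol K d) (δ : κ → ι →₀ ℕ)
    (Z : Set (Amb K d)) (m : ℕ), (∀ j, MH (g j) (δ j)) → Closed Z → (∀ p ∈ zer g \ Z, Ind g p) →
    m + Fintype.card κ + Fintype.card ι = ∑ k, d k →
    ∃ ε > (0 : ℝ), ∀ g' : κ → Pol K d, (∀ j, MH (g' j) (δ j)) →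
      (∀ j s, ‖coeff s (g' j - g j)‖ < ε) → (∀ p ∈ zer g', Ind g' p) →
      ∃ s : (C.H (zer g \ Z)).H →ₗ[F] (C.H (zer g')).H, (C.H (zer g \ Z)).Hom (C.H (zer g')) s ∧
        ∀ a, (C.H (zer g')).tr m (s a) = (C.H (zer g \ Z)).tr m a

/-- Monodromy-weight purity for smooth complete intersections of ample divisors in products of
projective spaces. -/
def Coh.Scholze [CharZero F] (q : ℕ) (φ u : AlgebraicClosure K ≃ₐ[K] AlgebraicClosure K) : Prop :=
  ∀ (ι κ : Type) [Finite ι] [Finite κ] (d : ι → ℕ) (g : κ → Pol K d) (δ : κ → ι →₀ ℕ),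
    (∀ j, MH (g j) (δ j)) → (∀ j k, 0 < δ j k) → (∀ p ∈ zer g, Ind g p) →
    ∀ i, MwPure q i ((C.H (zer g)).gr i) ((C.H (zer g)).ρ φ) ((C.H (zer g)).ρ u)

/-- `s` is the pull-back along an automorphism of `X`, given by its graph `Γ`, that fixes
pointwise the zeros on `X` of a form of positive degree. -/
def Coh.Refl {N : ℕ} (X : Set (Amb K fun _ : Unit => N)) (s : Module.End F (C.H X).H) : Prop :=
  ∃ (Γ : Set (Amb K fun _ : Bool => N)) (h : Pol K fun _ : Unit => N) (k : ℕ), Closed Γ ∧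
    (∀ b, Set.BijOn (re (d := fun _ : Bool => N) fun _ : Unit => b) Γ X) ∧
    MH h (Finsupp.single () (k + 1)) ∧
    (∀ p ∈ Γ, ev h (fun _ => p false) = 0 → p false = p true) ∧
    ∀ a, C.pull (d := fun _ : Bool => N) (fun _ : Unit => false) Γ X (s a) =
      C.pull (d := fun _ : Bool => N) (fun _ : Unit => true) Γ X a

end

end Pool.Agent.MP_855f4c_ag.Aff
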