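import Pool.Agent.MP_855f4c_ag.Aff.FinalA

/-! The top of the tower is an open part of the zero set of its equations. -/

namespace Pool.Agent.MP_855f4c_ag.Aff

open MvPolynomial Matrix

section Lin

variable {L : Type} [Field L] {w c : ℕ}

theorem fb_det_ne (v φ : Fin w → Fin w → L) (ho : ∀ a a', a ≠ a' → φ a ⬝ᵥ v a' = 0)
    (hn : ∀ a, φ a ⬝ᵥ v a ≠ 0) : (Matrix.of φ).det ≠ 0 ∧ (Matrix.of v).det ≠ 0 := by
  have h1 : Matrix.of φ * (Matrix.of v)ᵀ = Matrix.diagonal fun a => φ a ⬝ᵥ v a := by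
    ext a a'
    by_cases h : a = a'
    · subst h
      rw [diagonal_apply_eq]
      rfl
    · rw [diagonal_apply_ne _ h]
      exact ho a a' h
  have h2 : (Matrix.of φ).det * (Matrix.of v).det ≠ 0 := by
    rw [← det_transpose (Matrix.of v), ← det_mul, h1, det_diagonal]
    exact Finset.prod_ne_zero_iff.2 fun a _ => hn a
  exact ⟨left_ne_zero_of_mul h2, right_ne_zero_of_mul h2⟩

theorem fb_eq_zero (φ : Fin w → Fin w → L) (hd : (Matrix.of φ).det ≠ 0) (u : Fin w → L)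
    (h : ∀ a, φ a ⬝ᵥ u = 0) : u = 0 :=
  Matrix.eq_zero_of_mulVec_eq_zero hd (funext fun a => h a)

/-- The linear algebra behind the converse inclusion. -/
theorem fb_eigen (hc : c ≤ w) (E : Matrix (Fin w) (Fin w) L) (H : L) (hE : E * E = H • E)
    (hr : E.rank = c) (v φ : Fin w → Fin w → L) (ho : ∀ a a', a ≠ a' → φ a ⬝ᵥ v a' = 0)
    (hn : ∀ a, φ a ⬝ᵥ v a ≠ 0)
    (hx : ∀ a a' : Fin w, ¬((a : ℕ) < c ↔ (a' : ℕ) < c) → φ a ⬝ᵥ E *ᵥ v a' = 0)
    (hd : (Matrix.of fun i i' : Fin c =>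
      φ (Fin.castLE hc i) ⬝ᵥ E *ᵥ v (Fin.castLE hc i')).det ≠ 0) :
    (∀ a : Fin w, E *ᵥ v a = (if (a : ℕ) < c then H else 0) • v a) ∧
      ∀ a : Fin w, Eᵀ *ᵥ φ a = (if (a : ℕ) < c then H else 0) • φ a := by
  obtain ⟨hφ, hv⟩ := fb_det_ne v φ ho hn
  have hM : ∀ μ : Fin c → L,
      (∀ i, φ (Fin.castLE hc i) ⬝ᵥ ∑ i', μ i' • E *ᵥ v (Fin.castLE hc i') = 0) → μ = 0 := by
    intro μ h
    refine Matrix.eq_zero_of_mulVec_eq_zero hd (funext fun i => ?_)
    have h1 := h i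
    rw [dotProduct_sum] at h1
    rw [Pi.zero_apply, ← h1]
    simp only [mulVec, Matrix.of_apply, dotProduct_smul, smul_eq_mul]
    exact Finset.sum_congr rfl fun i' _ => mul_comm _ _
  have hli : LinearIndependent L fun i : Fin c => E *ᵥ v (Fin.castLE hc i) := by
    refine Fintype.linearIndependent_iff.2 fun μ h i => ?_
    have := hM μ fun i => by rw [h, dotProduct_zero]
    exact congrFun this i
  have hspan : Submodule.span L (Set.range fun i : Fin c => E *ᵥ v (Fin.castLE hc i)) =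
      LinearMap.range E.mulVecLin := by
    refine Submodule.eq_of_le_of_finrank_eq ?_ ?_
    · rw [Submodule.span_le]
      rintro _ ⟨i, rfl⟩
      exact ⟨_, rfl⟩
    · rw [finrank_span_eq_card hli, Fintype.card_fin]
      exact hr.symm
  have h0 : ∀ a : Fin w, ¬(a : ℕ) < c → E *ᵥ v a = 0 := by
    intro a ha
    have h1 : E *ᵥ v a ∈ Submodule.span L
        (Set.range fun i : Fin c => E *ᵥ v (Fin.castLE hc i)) := by
      rw [hspan]
      exact ⟨_, rfl⟩
    obtain ⟨μ, hμ⟩ := (Submodule.mem_span_range_iff_exists_fun L).1 h1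
    have h2 : μ = 0 := hM μ fun i => by
      rw [hμ]
      exact hx _ _ fun h => ha (h.1 i.2)
    rw [← hμ, h2]
    simp
  have h1 : ∀ a : Fin w, (a : ℕ) < c → E *ᵥ v a = H • v a := by
    intro a ha
    obtain ⟨u, hu⟩ : ∃ u, u = E *ᵥ v a - H • v a := ⟨_, rfl⟩
    have hEu : E *ᵥ u = 0 := by
      rw [hu, mulVec_sub, mulVec_mulVec, hE, mulVec_smul, smul_mulVec, sub_self]
    obtain ⟨μ, hμ⟩ : ∃ μ : Fin c → L, ∀ i, μ i =
        φ (Fin.castLE hc i) ⬝ᵥ u / φ (Fin.castLE hc i) ⬝ᵥ v (Fin.castLE hc i) := ⟨_, fun _ => rfl⟩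
    have h2 : u - ∑ i, μ i • v (Fin.castLE hc i) = 0 := by
      refine fb_eq_zero φ hφ _ fun b => ?_
      rw [dotProduct_sub, dotProduct_sum]
      by_cases hb : (b : ℕ) < c
      · rw [Finset.sum_eq_single ⟨b, hb⟩]
        · rw [dotProduct_smul, hμ, smul_eq_mul]
          have : Fin.castLE hc ⟨b, hb⟩ = b := rfl
          rw [this, div_mul_cancel₀ _ (hn b), sub_self]
        · intro i _ hi
          rw [dotProduct_smul, ho b _ fun h => hi (Fin.ext (congrArg Fin.val h).symm), smul_zero]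
        · intro h
          exact absurd (Finset.mem_univ _) h
      · rw [hu, dotProduct_sub, hx b a fun h => hb (h.2 ha), dotProduct_smul,
          ho b a fun h => hb (h ▸ ha), smul_zero, sub_zero, zero_sub, neg_eq_zero]
        refine Finset.sum_eq_zero fun i _ => ?_
        rw [dotProduct_smul, ho b _ fun h => hb (h ▸ i.2), smul_zero]
    have h3 : u = ∑ i, μ i • v (Fin.castLE hc i) := sub_eq_zero.1 h2
    have h4 : ∑ i, μ i • E *ᵥ v (Fin.castLE hc i) = 0 := by
      rw [← hEu, h3, mulVec_sum]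
      exact Finset.sum_congr rfl fun i _ => (mulVec_smul _ _ _).symm
    have h5 : μ = 0 := hM μ fun i => by rw [h4, dotProduct_zero]
    rw [h5] at h3
    refine sub_eq_zero.1 (hu.symm.trans (h3.trans ?_))
    simp
  have h2 : ∀ a : Fin w, E *ᵥ v a = (if (a : ℕ) < c then H else 0) • v a := by
    intro a
    split_ifs with ha
    · exact h1 a ha
    · rw [h0 a ha, zero_smul]
  refine ⟨h2, fun a => sub_eq_zero.1 (fb_eq_zero v hv _ fun b => ?_)⟩
  rw [dotProduct_sub, dotProduct_comm (v b), mulVec_transpose, ← dotProduct_mulVec, h2,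
    dotProduct_smul, dotProduct_smul, dotProduct_comm (v b)]
  by_cases h : a = b
  · rw [h, sub_self]
  · rw [ho a b h, smul_zero, smul_zero, sub_self]

end Lin

variable {K : Type} [Field K] {N w c : ℕ}

theorem fb_mh_xv (a : Fin w) (b : Bool) (i : Fin w) :
    MH (xv K N a b i) (Finsupp.single (some (a, b) : J w) 1) :=
  MH.X (d := dJ N w) ⟨some (a, b), i⟩

theorem fb_mh_up {f : Pol K fun _ : Unit => N} {δ : Unit →₀ ℕ} (hf : MH f δ) :
    MH (up w f) (δ.mapDomain fun _ : Unit => (none : J w)) :=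
  MH.ren (d := dJ N w) (fun _ : Unit => (none : J w)) hf

/-- The first matrix. -/
noncomputable def fbM (X : Dat K N w c) : Matrix (Fin c) (Fin c) (Pol K (dJ N w)) :=
  Matrix.of fun i i' => ∑ a, ∑ b, xv K N (Fin.castLE X.cw i) true a * up w (X.E a b) *
    xv K N (Fin.castLE X.cw i') false b

/-- The second matrix. -/
noncomputable def fbN (hc : c ≤ w) (A : Fin w → Fin c → Pol K fun _ : Unit => N) :
    Matrix (Fin c) (Fin c) (Pol K (dJ N w)) :=
  Matrix.of fun i i' => ∑ a, xv K N (Fin.castLE hc i) false a * up w (A a i')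

theorem fb_mh_M (X : Dat K N w c) : ∃ η, MH (fbM X).det η := by
  refine ⟨_, MH.det (δ := fun i => Finsupp.single (some (Fin.castLE X.cw i, true) : J w) 1 +
    X.D.mapDomain fun _ : Unit => (none : J w))
    (η := fun i => Finsupp.single (some (Fin.castLE X.cw i, false) : J w) 1) fun i i' => ?_⟩
  rw [fbM, Matrix.of_apply]
  exact MH.sum _ fun a _ => MH.sum _ fun b _ =>
    ((fb_mh_xv _ _ a).mul (fb_mh_up (X.hE a b))).mul (fb_mh_xv _ _ b)

theorem fb_mh_N (hc : c ≤ w) (A : Fin w → Fin c → Pol K fun _ : Unit => N) (η : Unit →₀ ℕ)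
    (hA : ∀ j i, MH (A j i) η) : ∃ η', MH (fbN hc A).det η' := by
  refine ⟨_, MH.det (δ := fun i => Finsupp.single (some (Fin.castLE hc i, false) : J w) 1)
    (η := fun _ => η.mapDomain fun _ : Unit => (none : J w)) fun i i' => ?_⟩
  rw [fbN, Matrix.of_apply]
  exact MH.sum _ fun a _ => (fb_mh_xv _ _ a).mul (fb_mh_up (hA a i'))

theorem fb_ev_form (X : Dat K N w c) (a a' : Fin w) (p : Amb K (dJ N w)) :
    ev (∑ i, ∑ j, xv K N a true i * up w (X.E i j) * xv K N a' false j) p =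
      vc p a true ⬝ᵥ X.Eb false (bz p) *ᵥ vc p a' false := by
  simp only [ev_sum, ev_mul, ev_xv, ev_up, dotProduct, mulVec, Dat.Eb, Bool.false_eq_true,
    if_false, Matrix.map_apply, Finset.mul_sum, mul_assoc]

theorem fb_ev_M (X : Dat K N w c) (p : Amb K (dJ N w)) :
    ev (fbM X).det p = (Matrix.of fun i i' : Fin c => vc p (Fin.castLE X.cw i) true ⬝ᵥ
      X.Eb false (bz p) *ᵥ vc p (Fin.castLE X.cw i') false).det := by
  rw [ev_det]
  congr 1
  ext i i'
  exact fb_ev_form X _ _ p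

theorem fb_ev_N (hc : c ≤ w) (A : Fin w → Fin c → Pol K fun _ : Unit => N) (p : Amb K (dJ N w)) :
    ev (fbN hc A).det p = (Matrix.of fun i i' : Fin c =>
      ∑ a, vc p (Fin.castLE hc i) false a * ev (A a i') (bz p)).det := by
  rw [ev_det]
  congr 1
  ext i i'
  simp only [fbN, Matrix.map_apply, Matrix.of_apply, ev_sum, ev_mul, ev_xv, ev_up]

theorem fb_M_ne (X : Dat K N w c) {p : Amb K (dJ N w)} (hp : p ∈ X.SJ) : ev (fbM X).det p ≠ 0 := by
  obtain ⟨h1, h2, h3, h4⟩ := hp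
  have h5 : (Matrix.of fun i i' : Fin c => vc p (Fin.castLE X.cw i) true ⬝ᵥ
      X.Eb false (bz p) *ᵥ vc p (Fin.castLE X.cw i') false) = Matrix.diagonal fun i =>
        ev X.H (bz p) * vc p (Fin.castLE X.cw i) true ⬝ᵥ vc p (Fin.castLE X.cw i) false := by
    ext i i'
    have h6 : X.eps (Fin.castLE X.cw i') (bz p) = ev X.H (bz p) := if_pos i'.2
    rw [Matrix.of_apply, h2, dotProduct_smul, h6, smul_eq_mul]
    by_cases h : i = i'
    · subst h
      rw [diagonal_apply_eq]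
    · rw [diagonal_apply_ne _ h, h3 _ _ fun e => h (Fin.castLE_injective _ e), mul_zero]
  rw [fb_ev_M, h5, det_diagonal]
  exact Finset.prod_ne_zero_iff.2 fun i _ => mul_ne_zero (X.ne _ h1) (h4 _)

theorem fb_N_ne (X : Dat K N w c) (F : Fin w → Pol K fun _ : Unit => N) {p : Amb K (dJ N w)}
    (hp : p ∈ X.SJ) (hz : bz p ∈ zer F)
    (hJ : ∀ v, X.Eb false (bz p) *ᵥ v = ev X.H (bz p) • v →
      (∀ j, ∑ a, v a * ev (pderiv j (F a)) (bz p) = 0) → v = 0)
    (I : Fin c → Fin w) (h₀ : Pol K fun _ : Unit => N)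
    (A : Fin w → Fin c → Pol K fun _ : Unit => N) (hne : ev h₀ (bz p) ≠ 0)
    (hA : ∀ j, h₀ * F j = ∑ i, A j i * F (I i)) : ev (fbN X.cw A).det p ≠ 0 := by
  obtain ⟨h1, h2, h3, h4⟩ := hp
  rw [fb_ev_N]
  intro hd
  obtain ⟨l, hl, hl0⟩ := Matrix.exists_vecMul_eq_zero_iff.2 hd
  obtain ⟨u, hu⟩ : ∃ u, u = ∑ i, l i • vc p (Fin.castLE X.cw i) false := ⟨_, rfl⟩
  have h5 : ∀ i', ∑ a, u a * ev (A a i') (bz p) = 0 := by
    intro i'
    have h6 := congrFun hl0 i'
    simp only [vecMul, dotProduct, Matrix.of_apply, Pi.zero_apply, Finset.mul_sum] at h6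
    rw [← h6, Finset.sum_comm, hu]
    refine Finset.sum_congr rfl fun a _ => ?_
    rw [Finset.sum_apply, Finset.sum_mul]
    refine Finset.sum_congr rfl fun i _ => ?_
    rw [Pi.smul_apply, smul_eq_mul, mul_assoc]
  have h6 : ∀ j a, ev h₀ (bz p) * ev (pderiv j (F a)) (bz p) =
      ∑ i, ev (A a i) (bz p) * ev (pderiv j (F (I i))) (bz p) := by
    intro j a
    have h7 := congrArg (fun f => ev (pderiv j f) (bz p)) (hA a)
    simp only [map_sum, Derivation.leibniz, smul_eq_mul, ev_add, ev_mul, ev_sum, hz _, zero_mul,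
      add_zero] at h7
    exact h7
  have h7 : u = 0 := by
    refine hJ u ?_ fun j => ?_
    · rw [hu, mulVec_sum, Finset.smul_sum]
      refine Finset.sum_congr rfl fun i _ => ?_
      have h8 : X.eps (Fin.castLE X.cw i) (bz p) = ev X.H (bz p) := if_pos i.2
      rw [mulVec_smul, h2, h8, smul_comm]
    · refine (mul_eq_zero.1 ?_).resolve_left hne
      rw [Finset.mul_sum]
      have h8 : ∀ a, ev h₀ (bz p) * (u a * ev (pderiv j (F a)) (bz p)) =
          ∑ i, u a * ev (A a i) (bz p) * ev (pderiv j (F (I i))) (bz p) := by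
        intro a
        rw [mul_left_comm, h6, Finset.mul_sum]
        exact Finset.sum_congr rfl fun i _ => (mul_assoc _ _ _).symm
      rw [Finset.sum_congr rfl fun a _ => h8 a, Finset.sum_comm]
      refine Finset.sum_eq_zero fun i _ => ?_
      rw [← Finset.sum_mul, h5, zero_mul]
  refine hl (funext fun i => ?_)
  have h8 : vc p (Fin.castLE X.cw i) true ⬝ᵥ u = 0 := by rw [h7, dotProduct_zero]
  rw [hu, dotProduct_sum, Finset.sum_eq_single i] at h8
  · rw [dotProduct_smul, smul_eq_mul] at h8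
    exact (mul_eq_zero.1 h8).resolve_right (h4 _)
  · intro i' _ hi
    rw [dotProduct_smul, h3 _ _ fun e => hi (Fin.castLE_injective _ e).symm, smul_zero]
  · intro h
    exact absurd (Finset.mem_univ _) h

theorem fb_zer (hc : c ≤ w) (F : Fin w → Pol K fun _ : Unit => N) {p : Amb K (dJ N w)}
    (hg : ∀ a : Fin w, (a : ℕ) < c → ∑ i, vc p a false i * ev (F i) (bz p) = 0)
    (I : Fin c → Fin w) (h₀ : Pol K fun _ : Unit => N)
    (A : Fin w → Fin c → Pol K fun _ : Unit => N) (hne : ev h₀ (bz p) ≠ 0)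
    (hA : ∀ j, h₀ * F j = ∑ i, A j i * F (I i)) (hd : ev (fbN hc A).det p ≠ 0) :
    bz p ∈ zer F := by
  rw [fb_ev_N] at hd
  have h1 : ∀ a, ev h₀ (bz p) * ev (F a) (bz p) =
      ∑ i, ev (A a i) (bz p) * ev (F (I i)) (bz p) := by
    intro a
    have h2 := congrArg (fun f => ev f (bz p)) (hA a)
    simpa only [ev_mul, ev_sum] using h2
  have h2 : (fun i => ev (F (I i)) (bz p)) = 0 := by
    refine Matrix.eq_zero_of_mulVec_eq_zero hd (funext fun i => ?_)
    have h3 := hg (Fin.castLE hc i) i.2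
    have h4 : ev h₀ (bz p) * ∑ a, vc p (Fin.castLE hc i) false a * ev (F a) (bz p) = 0 := by
      rw [h3, mul_zero]
    rw [Pi.zero_apply, ← h4, Finset.mul_sum]
    simp only [mulVec, dotProduct, Matrix.of_apply, Finset.sum_mul]
    rw [Finset.sum_comm]
    refine Finset.sum_congr rfl fun a _ => ?_
    rw [mul_left_comm, h1, Finset.mul_sum]
    exact Finset.sum_congr rfl fun i' _ => mul_assoc _ _ _
  intro a
  refine (mul_eq_zero.1 ?_).resolve_left hne
  rw [h1]
  exact Finset.sum_eq_zero fun i _ => by rw [congrFun h2 i, Pi.zero_apply, mul_zero]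

theorem Dat.open_g0 (X : Dat K N w c) (F : Fin w → Pol K fun _ : Unit => N) (δ : Unit →₀ ℕ)
    (hF : ∀ a, MH (F a) δ) (sm : Smooth F c X.U) (h : Pol K fun _ : Unit => N) (dh : ℕ)
    (hh : MH h (Finsupp.single () (dh + 1))) (hU : X.U = zer F \ {z | ev h z = 0})
    (hJ : ∀ z ∈ X.U, ∀ v, X.Eb false z *ᵥ v = ev X.H z • v →
      (∀ j, ∑ a, v a * ev (pderiv j (F a)) z = 0) → v = 0) :
    ∃ Z, Closed Z ∧ zer (fun j => piF w h * X.g0 F j) \ Z = X.SJ := by
  have hUF : X.U ⊆ zer F := by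
    rw [hU]
    exact Set.sdiff_subset
  have key : ∀ p₀ ∈ X.SJ, ∃ r : Pol K (dJ N w), (∃ η, MH r η) ∧ ev r p₀ ≠ 0 ∧
      ∀ p ∈ zer (fun j => piF w h * X.g0 F j), ev r p ≠ 0 → p ∈ X.SJ := by
    intro p₀ hp₀
    obtain ⟨I, h₀, A, η, hη, hAη, hne, hA, -⟩ := sm _ hp₀.1
    refine ⟨piF w h * (fbM X).det * up w h₀ * (fbN X.cw A).det, ?_, ?_, ?_⟩
    · obtain ⟨η₁, h1, -⟩ := mh_piF (w := w) h dh hh
      obtain ⟨η₂, h2⟩ := fb_mh_M X
      obtain ⟨η₃, h3⟩ := fb_mh_N X.cw A η hAη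
      exact ⟨_, ((h1.mul h2).mul (fb_mh_up hη)).mul h3⟩
    · rw [ev_mul, ev_mul, ev_mul, ev_up, ev_piF]
      have h1 : ev h (bz p₀) ≠ 0 := by
        have := hp₀.1
        rw [hU] at this
        exact this.2
      exact mul_ne_zero (mul_ne_zero (mul_ne_zero
        (mul_ne_zero h1 (Finset.prod_ne_zero_iff.2 fun a _ => hp₀.2.2.2 a)) (fb_M_ne X hp₀)) hne)
        (fb_N_ne X F hp₀ (hUF hp₀.1) (hJ _ hp₀.1) I h₀ A hne hA)
    · intro p hp hr
      rw [ev_mul, ev_mul, ev_mul, ev_up] at hr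
      have r4 := right_ne_zero_of_mul hr
      have r3 := right_ne_zero_of_mul (left_ne_zero_of_mul hr)
      have r2 := right_ne_zero_of_mul (left_ne_zero_of_mul (left_ne_zero_of_mul hr))
      have r1 := left_ne_zero_of_mul (left_ne_zero_of_mul (left_ne_zero_of_mul hr))
      have hg : ∀ j, ev (X.g0 F j) p = 0 := fun j => by
        have h1 : ev (piF w h * X.g0 F j) p = 0 := hp j
        rw [ev_mul] at h1
        exact (mul_eq_zero.1 h1).resolve_left r1
      rw [ev_piF] at r1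
      have hn : ∀ a, vc p a true ⬝ᵥ vc p a false ≠ 0 := fun a =>
        Finset.prod_ne_zero_iff.1 (right_ne_zero_of_mul r1) a (Finset.mem_univ a)
      have hz : bz p ∈ zer F := by
        refine fb_zer X.cw F (fun a ha => ?_) I h₀ A r3 hA r4
        have h1 := hg (.inl ⟨a, ha⟩)
        simpa only [Dat.g0, ev_sum, ev_mul, ev_xv, ev_up] using h1
      have hpU : bz p ∈ X.U := by
        rw [hU]
        exact ⟨hz, left_ne_zero_of_mul r1⟩
      have ho : ∀ a a', a ≠ a' → vc p a true ⬝ᵥ vc p a' false = 0 := fun a a' ha => by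
        have h1 := hg (.inr (.inl ⟨(a, a'), ha⟩))
        simpa only [Dat.g0, ev_sum, ev_mul, ev_xv, dotProduct] using h1
      have hx : ∀ a a' : Fin w, ¬((a : ℕ) < c ↔ (a' : ℕ) < c) →
          vc p a true ⬝ᵥ X.Eb false (bz p) *ᵥ vc p a' false = 0 := fun a a' ha =>
        (fb_ev_form X a a' p).symm.trans (hg (.inr (.inr ⟨(a, a'), ha⟩)))
      rw [fb_ev_M] at r2
      obtain ⟨e1, e2⟩ := fb_eigen X.cw (X.Eb false (bz p)) (ev X.H (bz p)) (X.idem _ hpU)
        (X.rank _ hpU) (fun a => vc p a false) (fun a => vc p a true) ho hn hx r2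
      refine ⟨hpU, fun a b => ?_, ho, hn⟩
      cases b
      · exact e1 a
      · exact e2 a
  choose! r hr1 hr2 hr3 using key
  refine ⟨_, closed_of (fun p₀ => p₀ ∈ X.SJ) r hr1, Set.Subset.antisymm ?_ ?_⟩
  · rintro p ⟨hp, hZ⟩
    by_contra hn
    exact hZ fun p₀ hp₀ => by_contra fun h0 => hn (hr3 p₀ hp₀ p hp h0)
  · intro p hp
    refine ⟨fun j => ?_, fun hZ => hr2 p hp (hZ p hp)⟩
    show ev (piF w h * X.g0 F j) p = 0
    rw [ev_mul, X.g0_zero F hUF hp j, mul_zero]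

end Pool.Agent.MP_855f4c_ag.Aff
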