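import Pool.Agent.MP_855f4c_ag.Aff.Poly

/-! On the affine part of a smooth projective variety the conormal module is the image of an
idempotent matrix. -/

namespace Pool.Agent.MP_855f4c_ag.Aff

open MvPolynomial Matrix

theorem Idem_lin {L V : Type} [Field L] [Fintype V] {w c : ℕ} (J : Matrix (Fin w) V L)
    (G : Matrix V (Fin w) L) {H : L} (hH : H ≠ 0) (h1 : J * G * J = H • J) (hr : J.rank = c) :
    (J * G)ᵀ * (J * G)ᵀ = H • (J * G)ᵀ ∧ (J * G)ᵀ.rank = c ∧
      ∀ v, (J * G)ᵀ *ᵥ v = H • v → v ᵥ* J = 0 → v = 0 := by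
  refine ⟨?_, ?_, fun v hv h0 => ?_⟩
  · rw [← transpose_mul, ← Matrix.mul_assoc, h1, Matrix.smul_mul, transpose_smul]
  · rw [rank_transpose, ← hr]
    refine le_antisymm (rank_mul_le_left _ _) ?_
    rw [← rank_smul_of_mem_nonZeroDivisors J (mem_nonZeroDivisors_of_ne_zero hH), ← h1]
    exact rank_mul_le_left _ _
  · rw [mulVec_transpose, ← vecMul_vecMul, h0, zero_vecMul] at hv
    exact (smul_eq_zero.1 hv.symm).resolve_left hH

/-- A generalised inverse built from a minor. -/
def Idem_G {R V : Type} [CommRing R] [DecidableEq V] {w c : ℕ} (J : Matrix (Fin w) V R)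
    (I : (Fin c → Fin w) × (Fin c → V)) : Matrix V (Fin w) R :=
  (1 : Matrix V V R).submatrix id I.2 * adjugate (J.submatrix I.1 I.2) *
    (1 : Matrix (Fin w) (Fin w) R).submatrix I.1 id

theorem Idem_col {R V W U : Type} [CommRing R] [Fintype V] [DecidableEq V] (J : Matrix W V R)
    (I : U → V) : J * (1 : Matrix V V R).submatrix id I = J.submatrix id I := by
  ext a b
  simp [mul_apply, one_apply]

theorem Idem_row {R V W U : Type} [CommRing R] [Fintype W] [DecidableEq W] (J : Matrix W V R)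
    (I : U → W) : (1 : Matrix W W R).submatrix I id * J = J.submatrix I id := by
  ext a b
  simp [mul_apply, one_apply]

theorem Idem_G_map {R S V : Type} [CommRing R] [CommRing S] [DecidableEq V] {w c : ℕ}
    (φ : R →+* S) (J : Matrix (Fin w) V R) (I : (Fin c → Fin w) × (Fin c → V)) :
    (Idem_G J I).map φ = Idem_G (J.map φ) I := by
  have h := φ.map_adjugate (J.submatrix I.1 I.2)
  simp only [RingHom.mapMatrix_apply] at h
  rw [Idem_G, Idem_G, Matrix.map_mul, Matrix.map_mul, h, ← submatrix_map, ← submatrix_map,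
    ← submatrix_map, Matrix.map_one _ φ.map_zero φ.map_one, Matrix.map_one _ φ.map_zero φ.map_one]

theorem Idem_G_mul {R V : Type} [CommRing R] [Fintype V] [DecidableEq V] {w c : ℕ}
    (Cm : Matrix (Fin w) (Fin c) R) (Q : Matrix (Fin c) V R) (I : (Fin c → Fin w) × (Fin c → V)) :
    Cm * Q * Idem_G (Cm * Q) I * (Cm * Q) = ((Cm * Q).submatrix I.1 I.2).det • (Cm * Q) := by
  have e1 : (Cm * Q).submatrix I.1 I.2 = Cm.submatrix I.1 id * Q.submatrix id I.2 := by
    ext a b
    simp [mul_apply]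
  calc Cm * Q * Idem_G (Cm * Q) I * (Cm * Q)
      = Cm * ((Q * (1 : Matrix V V R).submatrix id I.2) * adjugate (Q.submatrix id I.2)) *
        (adjugate (Cm.submatrix I.1 id) *
          ((1 : Matrix (Fin w) (Fin w) R).submatrix I.1 id * Cm)) * Q := by
        rw [Idem_G, e1, adjugate_mul_distrib]
        simp only [Matrix.mul_assoc]
    _ = _ := by
        rw [Idem_col, Idem_row, mul_adjugate, adjugate_mul, e1, det_mul]
        simp only [Matrix.mul_smul, Matrix.smul_mul, Matrix.mul_one, smul_smul, mul_comm]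

theorem Idem_minor {L V : Type} [Field L] [Fintype V] {c : ℕ} (Q : Matrix (Fin c) V L)
    (h : Q.rank = c) : ∃ I : Fin c → V, (Q.submatrix id I).det ≠ 0 := by
  obtain ⟨κ, a, ha, h1, h2⟩ := exists_linearIndependent' L Q.col
  have : Finite κ := Finite.of_injective a ha
  have := Fintype.ofFinite κ
  have h3 : Fintype.card κ = c := by
    rw [← finrank_span_eq_card h2, h1, ← rank_eq_finrank_span_cols, h]
  let e := (Fintype.equivFinOfCardEq h3).symm
  refine ⟨a ∘ e, isUnit_iff_ne_zero.1 ((isUnit_iff_isUnit_det _).1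
    (linearIndependent_cols_iff_isUnit.1 ?_))⟩
  exact h2.comp e e.injective

section

variable {K : Type} [Field K] {ι : Type} {d : ι → ℕ}

theorem Idem_det {c : ℕ} {M : Matrix (Fin c) (Fin c) (Pol K d)} {δ : ι →₀ ℕ}
    (h : ∀ a b, MH (M a b) δ) : MH M.det (c • δ) :=
  (MH.det (δ := fun _ => δ) (η := fun _ => 0) fun a b => (h a b).of_eq (add_zero _).symm).of_eq
    (by simp)

theorem Idem_G_MH {V : Type} [Fintype V] [DecidableEq V] {w c : ℕ}
    {J : Matrix (Fin w) V (Pol K d)} {δ : ι →₀ ℕ} (h : ∀ a b, MH (J a b) δ)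
    (I : (Fin c → Fin w) × (Fin c → V)) (a b : Fin w) : MH ((J * Idem_G J I) a b) (c • δ) := by
  rw [Idem_G, ← Matrix.mul_assoc, ← Matrix.mul_assoc, Idem_col, mul_apply]
  refine MH.sum _ fun i _ => ?_
  rw [submatrix_apply, one_apply]
  split_ifs
  · rw [mul_one, mul_apply]
    refine MH.sum _ fun j _ => ?_
    rw [adjugate_apply, ← det_updateRow_smul]
    refine Idem_det fun x y => ?_
    rw [updateRow_apply]
    split_ifs
    · rw [Pi.smul_apply, Pi.single_apply]
      split_ifs
      · rw [smul_eq_mul, mul_one]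
        exact h _ _
      · rw [smul_zero]
        exact MH.zero _
    · exact h _ _
  · rw [mul_zero]
    exact MH.zero _

theorem Idem_comp {f : Pol K d} {δ : ι →₀ ℕ} (hf : MH f δ) (η : ι →₀ ℕ) (a : Pol K d) :
    weightedHomogeneousComponent (fun v => Finsupp.single v.1 1) (η + δ) (a * f) =
      weightedHomogeneousComponent (fun v => Finsupp.single v.1 1) η a * f := by
  induction a using MvPolynomial.induction_on' with
  | monomial s r =>
    have h1 : MH (monomial s r : Pol K d) _ := isWeightedHomogeneous_monomial _ s r rfl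
    by_cases e : η = Finsupp.weight (fun v : Σ k, Fin (d k) => Finsupp.single v.1 1) s
    · rw [e, IsWeightedHomogeneous.weightedHomogeneousComponent_same (h1.mul hf),
        IsWeightedHomogeneous.weightedHomogeneousComponent_same h1]
    · rw [IsWeightedHomogeneous.weightedHomogeneousComponent_ne _ (h1.mul hf)
        fun e' => e (add_right_cancel e'),
        IsWeightedHomogeneous.weightedHomogeneousComponent_ne _ h1 e, zero_mul]
  | add p q hp hq => rw [add_mul, map_add, map_add, hp, hq, add_mul]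

end

theorem Idem_rad {K : Type} [Field K] {N : ℕ} {α : Type}
    (g : α → Pol K fun _ : Unit => N) (e : α → ℕ) (hg : ∀ a, MH (g a) (Finsupp.single () (e a)))
    (h : Pol K fun _ : Unit => N) (h0 : ∀ z ∈ zer g, ev h z = 0) (dh : ℕ)
    (hh : MH h (Finsupp.single () (dh + 1))) : h ∈ (Ideal.span (Set.range g)).radical := by
  rw [← vanishingIdeal_zeroLocus_eq_radical (K := AlgebraicClosure K), mem_vanishingIdeal_iff]
  intro x hx
  by_cases hy : (fun j : Fin N => x ⟨(), j⟩) = 0
  · have h2 := hh.scale (R := AlgebraicClosure K) (fun _ => 0) x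
    have h3 : (fun v : Σ _ : Unit, Fin N => 0 * x v) = x :=
      funext fun v => (zero_mul _).trans (congrFun hy v.2).symm
    rwa [Finsupp.prod_single_index (by simp), zero_pow dh.succ_ne_zero, zero_mul, h3] at h2
  · obtain ⟨t, ht⟩ := Projectivization.exists_smul_eq_mk_rep (AlgebraicClosure K) _ hy
    let z : Amb K fun _ : Unit => N := fun _ => Projectivization.mk _ _ hy
    have h3 : (fun v : Σ _ : Unit, Fin N => (t : AlgebraicClosure K) * x v) =
        fun v => (z v.1).rep v.2 := funext fun v => congrFun ht v.2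
    have hz : z ∈ zer g := fun a => by
      have h2 := (hg a).scale (R := AlgebraicClosure K) (fun _ => t) x
      rw [hx _ (Ideal.subset_span ⟨a, rfl⟩), mul_zero, h3] at h2
      exact h2
    have h2 := hh.scale (R := AlgebraicClosure K) (fun _ => t) x
    rw [h3, Finsupp.prod_single_index (by simp)] at h2
    exact (mul_eq_zero.1 (h2.symm.trans (h0 z hz))).resolve_left (pow_ne_zero _ t.ne_zero)

theorem Idem_null {K : Type} [Field K] {ι : Type} {d : ι → ℕ} {α : Type} [Fintype α]
    (g : α → Pol K d) (k : ι) (e : α → ℕ) (hg : ∀ a, MH (g a) (Finsupp.single k (e a)))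
    (h : Pol K d) (dh : ℕ) (hh : MH h (Finsupp.single k (dh + 1)))
    (h1 : h ∈ (Ideal.span (Set.range g)).radical) :
    ∃ (m : ℕ) (D : ι →₀ ℕ) (b : α → Pol K d), MH (h ^ m) D ∧
      (∀ a, ∃ η, MH (b a) η ∧ η + Finsupp.single k (e a) = D) ∧ h ^ m = ∑ a, b a * g a := by
  obtain ⟨m, hm⟩ := h1
  obtain ⟨b, hb⟩ := Ideal.mem_span_range_iff_exists_fun.1
    (Ideal.mul_mem_left _ (h ^ ∑ a, e a) hm)
  rw [← pow_add] at hb
  have hD := hh.pow (∑ a, e a + m)
  have hη : ∀ a, ∃ η : ι →₀ ℕ, η + Finsupp.single k (e a) =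
      (∑ a, e a + m) • Finsupp.single k (dh + 1) := fun a => by
    have h3 : e a ≤ ∑ a, e a := Finset.single_le_sum (fun _ _ => Nat.zero_le _) (Finset.mem_univ a)
    refine ⟨Finsupp.single k ((∑ a, e a + m) * (dh + 1) - e a), ?_⟩
    rw [← Finsupp.single_add, Finsupp.smul_single, smul_eq_mul, Nat.sub_add_cancel
      ((h3.trans (Nat.le_add_right _ m)).trans (Nat.le_mul_of_pos_right _ dh.succ_pos))]
  choose η hη using hη
  have h2 := congrArg (weightedHomogeneousComponent (fun v : Σ k, Fin (d k) => Finsupp.single v.1 1)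
    ((∑ a, e a + m) • Finsupp.single k (dh + 1))) hb
  rw [IsWeightedHomogeneous.weightedHomogeneousComponent_same hD, map_sum,
    Finset.sum_congr rfl fun a _ => by rw [← hη a, Idem_comp (hg a)]] at h2
  exact ⟨_, _, _, hD,
    fun a => ⟨η a, weightedHomogeneousComponent_isWeightedHomogeneous _ _, hη a⟩, h2.symm⟩

theorem Idem_fact {K : Type} [Field K] {ι : Type} {d : ι → ℕ} {w c : ℕ} [Fintype (Σ k, Fin (d k))]
    {F : Fin w → Pol K d} {S : Set (Amb K d)} (sm : Smooth F c S) {z : Amb K d} (hS : z ∈ S)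
    (hz : z ∈ zer F)
    (J : Matrix (Fin w) (Σ k, Fin (d k)) (AlgebraicClosure K))
    (hJ : ∀ a v, J a v = ev (pderiv v (F a)) z) :
    ∃ (I : Fin c → Fin w) (Cm : Matrix (Fin w) (Fin c) (AlgebraicClosure K)),
      J = Cm * J.submatrix I id ∧ (J.submatrix I id).rank = c ∧ J.rank = c := by
  obtain ⟨I, h, A, η, -, -, h0, e, ind⟩ := sm z hS
  have e1 : J = (of fun a i => (ev h z)⁻¹ * ev (A a i) z) * J.submatrix I id := by
    ext a v
    have h1 := congrArg (fun f => ev (pderiv v f) z) (e a)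
    simp only [map_sum, Derivation.leibniz, smul_eq_mul, ev_add, ev_mul, ev_sum, hz _, zero_mul,
      add_zero] at h1
    simp only [mul_apply, of_apply, submatrix_apply, id, hJ, mul_assoc]
    rw [← Finset.mul_sum, ← h1, inv_mul_cancel_left₀ h0]
  have e2 : (J.submatrix I id).rank = c := by
    refine (LinearIndependent.rank_matrix ?_).trans (Fintype.card_fin c)
    have : (J.submatrix I id).row = fun i v => ev (pderiv v (F (I i))) z := by
      funext i v
      exact hJ _ _
    rw [this]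
    exact ind
  refine ⟨I, _, e1, e2, le_antisymm ?_ ?_⟩
  · exact (congrArg rank e1).trans_le ((rank_mul_le_right _ _).trans e2.le)
  · classical
    exact e2.ge.trans ((congrArg rank (Idem_row J I)).ge.trans (rank_mul_le_right _ _))

theorem exists_idem {K : Type} [Field K] {N w c : ℕ} (F : Fin w → Pol K fun _ : Unit => N)
    (dg : ℕ) (hF : ∀ a, MH (F a) (Finsupp.single () (dg + 1)))
    (h : Pol K fun _ : Unit => N) (sm : Smooth F c (zer F \ {z | ev h z = 0})) (dh : ℕ)
    (hh : MH h (Finsupp.single () (dh + 1))) :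
    ∃ (E : Matrix (Fin w) (Fin w) (Pol K fun _ : Unit => N)) (H : Pol K fun _ : Unit => N)
      (D : Unit →₀ ℕ), (∀ i j, MH (E i j) D) ∧ MH H D ∧ ∀ z ∈ zer F, ev h z ≠ 0 →
        ev H z ≠ 0 ∧
        ((E.map fun f => ev f z) * (E.map fun f => ev f z) = ev H z • E.map fun f => ev f z) ∧
        (E.map fun f => ev f z).rank = c ∧
        ∀ v, (E.map fun f => ev f z) *ᵥ v = ev H z • v →
          (∀ j, ∑ a, v a * ev (pderiv j (F a)) z = 0) → v = 0 := by
  classical
  let J : Matrix (Fin w) (Σ _ : Unit, Fin N) (Pol K fun _ : Unit => N) :=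
    of fun a v => pderiv v (F a)
  have hJ : ∀ a v, MH (J a v) (Finsupp.single () dg) := fun a v =>
    (hF a).pderiv v (Finsupp.single_add _ _ _).symm
  have cd : c • Finsupp.single () dg = Finsupp.single () (c * dg) := by
    rw [Finsupp.smul_single, smul_eq_mul]
  let g : (Fin c → Fin w) × (Fin c → Σ _ : Unit, Fin N) ⊕ Fin w → Pol K fun _ : Unit => N :=
    Sum.elim (fun I => (J.submatrix I.1 I.2).det) F
  have hg : ∀ a, MH (g a) (Finsupp.single () (Sum.elim (fun _ => c * dg) (fun _ => dg + 1) a)) := by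
    rintro (I | a)
    · exact (Idem_det fun _ _ => hJ _ _).of_eq cd
    · exact hF a
  obtain ⟨m, D, b, hD, hb, e⟩ := Idem_null g () _ hg h dh hh (Idem_rad g _ hg h
    (fun z hz => by_contra fun h0 => by
      obtain ⟨I, -, -, h2, -⟩ := Idem_fact sm (z := z) ⟨fun a => hz (Sum.inr a), h0⟩
        (fun a => hz (Sum.inr a))
        (J.map fun f => ev f z) fun _ _ => rfl
      obtain ⟨I', h3⟩ := Idem_minor _ h2
      exact h3 ((ev_det _ z).symm.trans (hz (Sum.inl (I, I'))))) dh hh)
  refine ⟨(J * ∑ I, b (Sum.inl I) • Idem_G J I)ᵀ, h ^ m, D, fun i j => ?_, hD, fun z hz h0 => ?_⟩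
  · rw [transpose_apply, Matrix.mul_sum, Matrix.sum_apply]
    refine MH.sum _ fun I _ => ?_
    obtain ⟨η, h1, h2⟩ := hb (Sum.inl I)
    rw [Matrix.mul_smul, Matrix.smul_apply, smul_eq_mul]
    exact (h1.mul ((Idem_G_MH hJ I j i).of_eq cd)).of_eq h2
  · have H0 : ev (h ^ m) z ≠ 0 := by rw [ev_pow]; exact pow_ne_zero _ h0
    let φ := (evA z).toRingHom
    obtain ⟨I, Cm, h1, -, h3⟩ := Idem_fact sm ⟨hz, h0⟩ hz (J.map φ) fun _ _ => rfl
    have e1 : ((J * ∑ I, b (Sum.inl I) • Idem_G J I)ᵀ.map fun f => ev f z) =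
        (J.map φ * ∑ I, φ (b (Sum.inl I)) • Idem_G (J.map φ) I)ᵀ := by
      rw [transpose_map]
      refine congrArg transpose ((Matrix.map_mul (f := φ)).trans (congrArg _ ?_))
      ext i j
      simp only [map_apply, Matrix.sum_apply, Matrix.smul_apply, smul_eq_mul, map_sum, map_mul,
        ← Idem_G_map]
    have e2 : ev (h ^ m) z = ∑ I : (Fin c → Fin w) × (Fin c → Σ _ : Unit, Fin N),
        φ (b (Sum.inl I)) * ((J.map φ).submatrix I.1 I.2).det := by
      rw [e, ev_sum, Fintype.sum_sum_type,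
        Finset.sum_eq_zero (f := fun a => ev (b (Sum.inr a) * g (Sum.inr a)) z) fun a _ =>
          (ev_mul _ _ _).trans (mul_eq_zero_of_right _ (hz a)), add_zero]
      exact Finset.sum_congr rfl fun I _ => (ev_mul _ _ _).trans (congrArg _ (ev_det _ z))
    have e3 : J.map φ * (∑ I, φ (b (Sum.inl I)) • Idem_G (J.map φ) I) * J.map φ =
        ev (h ^ m) z • J.map φ := by
      rw [e2, Matrix.mul_sum, Matrix.sum_mul, Finset.sum_smul]
      refine Finset.sum_congr rfl fun I' _ => ?_
      have h4 := Idem_G_mul Cm ((J.map φ).submatrix I id) I'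
      rw [← h1] at h4
      rw [Matrix.mul_smul, Matrix.smul_mul, h4, smul_smul]
    obtain ⟨r1, r2, r3⟩ := Idem_lin _ _ H0 e3 h3
    rw [e1]
    exact ⟨H0, r1, r2, fun v hv hv' => r3 v hv (funext hv')⟩

end Pool.Agent.MP_855f4c_ag.Aff
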