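import Pool.Agent.MP_855f4c_ag.Aff.Tower
import Pool.Agent.MP_855f4c_ag.Aff.FinalB
import Pool.Agent.MP_855f4c_ag.Aff.Bertini
import Pool.Agent.MP_855f4c_ag.Aff.Idem

/-! The affine part of a smooth projective variety is good. -/

namespace Pool.Agent.MP_855f4c_ag.Aff

variable {K F : Type} [NontriviallyNormedField K] [Field F] {C : Coh K F} {N w c : ℕ}

theorem free_bij (bun : C.Bundle) {ι κ : Type} [Finite ι] {d : ι → ℕ} (u : κ → ι)
    (hu : Function.Bijective u) (k : κ) (T : Set (Amb K fun j => d (u j))) (hT : LC T) :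
    Proper u (re u ⁻¹' T) T ∧
      (C.H T).Free (C.H (re u ⁻¹' T)) (C.pull u (re u ⁻¹' T) T) (C.e (re u ⁻¹' T) (u k)) 1 := by
  have h : Proper u (re u ⁻¹' T) T := proper_of u hT closed_univ (by simp)
  exact ⟨h, bun _ _ _ u _ T (u k) 1 h (bij_of_surj u hu k T)⟩

variable [CharZero F] {q : ℕ} {φ u : AlgebraicClosure K ≃ₐ[K] AlgebraicClosure K}

theorem tower_all (bas : C.Basic) (nat : C.Natural) (exc : C.Excision) (bun : C.Bundle)
    (hq : 0 < q) (hφ : (C.χ φ : F) = q) (hu : C.χ u = 1) (X : Dat K N w c) (n : ℕ)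
    (top : (C.H X.U).Top n) (k : ℕ) (hk : k ≤ w) :
    (C.R X (lev w k) (none_mem_lev w k) k).Top (n + ∑ a ∈ Finset.range k, 2 * rk w c a) ∧
      ((C.R X (lev w k) (none_mem_lev w k) k).Good q φ u
        (n + ∑ a ∈ Finset.range k, 2 * rk w c a) → (C.H X.U).Good q φ u n) := by
  induction k with
  | zero =>
    have hb : Function.Bijective fun _ : Unit => (⟨none, none_mem_lev w 0⟩ : lev w 0) := by
      refine ⟨fun _ _ _ => rfl, ?_⟩
      rintro ⟨_ | x, hx⟩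
      · exact ⟨(), rfl⟩
      · simp [some_mem_lev] at hx
    obtain ⟨h1, h2⟩ := free_bij (d := fun j : lev w 0 => dJ N w j) bun _ hb () X.U X.lc
    unfold Coh.R
    rw [X.T_zero]
    exact ⟨h2.top_one top, fun h => (h2.emb (nat _ _ _ _ _ _ h1).1 top).good hq hφ hu h⟩
  | succ k ih =>
    obtain ⟨h1, h2⟩ := ih (by omega)
    obtain ⟨h3, h4⟩ := tower_step bas nat exc bun X ⟨k, hk⟩ _ h1
    have e : n + ∑ a ∈ Finset.range (k + 1), 2 * rk w c a =
        n + ∑ a ∈ Finset.range k, 2 * rk w c a + rk w c k + rk w c k := by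
      rw [Finset.sum_range_succ]; ring
    rw [e]
    exact ⟨h3, fun h => h2 (h4.good hq hφ hu h)⟩

theorem good_dat (bas : C.Basic) (nat : C.Natural) (exc : C.Excision) (bun : C.Bundle)
    (tube : C.Tube) (sch : C.Scholze q φ u) (hq : 0 < q) (hφ : (C.χ φ : F) = q) (hu : C.χ u = 1)
    (X : Dat K N w c) (n : ℕ) (hn : n + c + 1 = N) (top : (C.H X.U).Top n)
    (Fm : Fin w → Pol K fun _ : Unit => N) (δ : Unit →₀ ℕ) (hF : ∀ a, MH (Fm a) δ)
    (sm : Smooth Fm c X.U) (h : Pol K fun _ : Unit => N) (dh : ℕ)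
    (hh : MH h (Finsupp.single () (dh + 1))) (hU : X.U = zer Fm \ {z | ev h z = 0})
    (hJ : ∀ z ∈ X.U, ∀ v, Matrix.mulVec (X.Eb false z) v = ev X.H z • v →
      (∀ j, ∑ a, v a * ev (MvPolynomial.pderiv j (Fm a)) z = 0) → v = 0) :
    (C.H X.U).Good q φ u n := by
  obtain ⟨h1, h2⟩ := tower_all bas nat exc bun hq hφ hu X n top w le_rfl
  refine h2 ?_
  have hb : Function.Bijective (Subtype.val : lev w w → J w) := by
    refine ⟨Subtype.val_injective, ?_⟩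
    rintro (_ | x)
    · exact ⟨⟨none, none_mem_lev w w⟩, rfl⟩
    · exact ⟨⟨some x, some_mem_lev.2 x.1.2⟩, rfl⟩
  obtain ⟨h3, h4⟩ := free_bij (d := dJ N w) bun _ hb ⟨none, none_mem_lev w w⟩
    (X.T (lev w w) (none_mem_lev w w) w) (X.lc_T _ _ _)
  refine (h4.emb (nat _ _ _ _ _ _ h3).1 h1).good hq hφ hu ?_
  rw [← X.SJ_eq]
  obtain ⟨Z, cZ, eZ⟩ := X.open_g0 Fm δ hF sm h dh hh hU hJ
  have sU : X.U ⊆ zer Fm := hU ▸ Set.sdiff_subset
  choose η hη using X.mh_g0 Fm δ hF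
  obtain ⟨θ, hθ, pθ⟩ := mh_piF (w := w) h dh hh
  have hg : ∀ j, MH (piF w h * X.g0 Fm j) (θ + η j) := fun j => hθ.mul (hη j)
  have pos : ∀ j k, 0 < (θ + η j) k := fun j k => by
    have := pθ k
    rw [Finsupp.add_apply]
    omega
  obtain ⟨ε, hε, ht⟩ := tube _ _ _ _ _ Z _ hg cZ (fun p hp => by
    rw [eZ] at hp
    refine Ind.mul _ (X.g0_zero Fm sU hp) ?_ (X.ind_g0 Fm sU hJ p hp)
    rw [ev_piF]
    refine mul_ne_zero ?_ (Finset.prod_ne_zero_iff.2 fun a _ => hp.2.2.2 a)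
    have h5 := hp.1
    rw [hU] at h5
    exact h5.2) (count_eq X.cw n hn)
  obtain ⟨g', k1, k2, k3⟩ := bertini _ _ hg pos ε hε
  obtain ⟨s, k4, k5⟩ := ht g' k1 k2 k3
  rw [← eZ]
  exact (GM.Emb.of_hom k4 k5).good hq hφ hu (GM.good_of_pure hq
    (bas _ _ _ (closed_zer g' fun j => ⟨_, k1 j⟩).lc).1 (sch _ _ _ g' _ k1 pos k3) _)

omit [CharZero F] in
theorem top_of_smooth (dim : C.Dimension) (n : ℕ) (hn : n + c + 1 = N)
    (Fm : Fin w → Pol K fun _ : Unit => N) (δ : Unit →₀ ℕ) (hF : ∀ a, MH (Fm a) δ)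
    (S : Set (Amb K fun _ : Unit => N)) (sm : Smooth Fm c S) (hS : LC S) (h : S ⊆ zer Fm) :
    (C.H S).Top n := by
  refine dim _ _ S c n hS (by simpa using hn) fun p hp => ?_
  obtain ⟨I, -, -, -, -, -, -, -, h1⟩ := sm p hp
  exact ⟨fun i => Fm (I i), fun j => ⟨δ, hF _⟩, fun z hz j => h hz _, h1⟩

theorem good_affine (bas : C.Basic) (nat : C.Natural) (exc : C.Excision) (bun : C.Bundle)
    (dim : C.Dimension) (tube : C.Tube) (sch : C.Scholze q φ u) (hq : 0 < q)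
    (hφ : (C.χ φ : F) = q) (hu : C.χ u = 1) (n : ℕ) (hn : n + c + 1 = N) (cw : c ≤ w)
    (Fm : Fin w → Pol K fun _ : Unit => N) (dg : ℕ)
    (hF : ∀ a, MH (Fm a) (Finsupp.single () (dg + 1))) (h : Pol K fun _ : Unit => N)
    (sm : Smooth Fm c (zer Fm \ {z | ev h z = 0})) (dh : ℕ)
    (hh : MH h (Finsupp.single () (dh + 1))) :
    (C.H (zer Fm \ {z | ev h z = 0})).Good q φ u n := by
  obtain ⟨E, H, D, h1, h2, h3⟩ := exists_idem Fm dg hF h sm dh hh
  have lc : LC (zer Fm \ {z | ev h z = 0}) :=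
    (closed_zer Fm fun a => ⟨_, hF a⟩).lc.diff (closed_one hh)
  let X : Dat K N w c := ⟨zer Fm \ {z | ev h z = 0}, E, H, D, lc, h1, h2,
    fun z hz => (h3 z hz.1 hz.2).1, fun z hz => (h3 z hz.1 hz.2).2.1,
    fun z hz => (h3 z hz.1 hz.2).2.2.1, cw⟩
  exact good_dat bas nat exc bun tube sch hq hφ hu X n hn
    (top_of_smooth dim n hn Fm _ hF _ sm lc Set.sdiff_subset) Fm _ hF sm h dh hh rfl
    fun z hz => (h3 z hz.1 hz.2).2.2.2

end Pool.Agent.MP_855f4c_ag.Aff
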