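import Mathlib

/-! Locally closed subvarieties of products of projective spaces, cohomology with compact support
on them, and monodromy-weight purity. -/

namespace Pool.Agent.MP_855f4c_ag.Aff

open MvPolynomial

/-- A grading, a product, an action of `G` and trace functionals on a module `H`. -/
structure Gr (F G H : Type) [Field F] [Group G] [AddCommGroup H] [Module F H] where
  gr : ℤ → Submodule F H
  mul : H →ₗ[F] H →ₗ[F] H
  ρ : G →* Module.End F H
  tr : ℕ → H →ₗ[F] F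

section

variable {F G H H' : Type} [Field F] [Group G] [AddCommGroup H] [Module F H] [AddCommGroup H']
  [Module F H']

/-- Finite dimension; product and action respect the grading; the action is multiplicative and
scales the `m`-th trace by `χ ^ m`. -/
def Gr.Wf (χ : G →* Fˣ) (A : Gr F G H) : Prop :=
  Module.Finite F H ∧ (∀ i j, ∀ a ∈ A.gr i, ∀ b ∈ A.gr j, A.mul a b ∈ A.gr (i + j)) ∧
    ∀ σ, (∀ i, ∀ a ∈ A.gr i, A.ρ σ a ∈ A.gr i) ∧
      (∀ a b, A.ρ σ (A.mul a b) = A.mul (A.ρ σ a) (A.ρ σ b)) ∧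
      ∀ m a, A.tr m (A.ρ σ a) = (χ σ : F) ^ m * A.tr m a

/-- Vanishing above degree `2 m`. -/
def Gr.Top (A : Gr F G H) (m : ℕ) : Prop := ∀ j : ℤ, 2 * m < j → A.gr j = ⊥

/-- Maps respecting grading, product and action. -/
def Gr.Hom (A : Gr F G H) (B : Gr F G H') (f : H →ₗ[F] H') : Prop :=
  (∀ i, ∀ a ∈ A.gr i, f a ∈ B.gr i) ∧ (∀ a b, f (A.mul a b) = B.mul (f a) (f b)) ∧
    ∀ σ a, B.ρ σ (f a) = f (A.ρ σ a)

/-- Operators behaving like the product with a central class of degree two scaled by `χ`. -/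
def Gr.Op (χ : G →* Fˣ) (A : Gr F G H) (x : Module.End F H) : Prop :=
  (∀ i, ∀ a ∈ A.gr i, x a ∈ A.gr (i + 2)) ∧ (∀ σ a, A.ρ σ (x a) = (χ σ : F) • x (A.ρ σ a)) ∧
    ∀ a b, A.mul (x a) b = x (A.mul a b) ∧ A.mul a (x b) = x (A.mul a b)

/-- `B` is the direct sum of the `x ^ k f (A)`, `k < r`, compatibly with gradings and traces. -/
def Gr.Free (A : Gr F G H) (B : Gr F G H') (f : H →ₗ[F] H') (x : Module.End F H') (r : ℕ) :
    Prop :=
  (∀ a : Fin r → H, ∑ k : Fin r, (x ^ (k : ℕ)) (f (a k)) = 0 → a = 0) ∧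
    (∀ j, ∀ b ∈ B.gr j, ∃ a : Fin r → H, (∀ k : Fin r, a k ∈ A.gr (j - 2 * (k : ℕ))) ∧
      b = ∑ k : Fin r, (x ^ (k : ℕ)) (f (a k))) ∧
    ∀ m s, r = s + 1 → A.Top m → ∀ a, B.tr (m + s) ((x ^ s) (f a)) = A.tr m a

/-- Monodromy-weight purity of weight `i` of `V` for `φ` (Frobenius) and `u` (an element of
inertia): for some `m > 0` the monodromy filtration `M` of `N = u ^ m - 1` on `V` is stable under
`φ`, and on `M a / M (a - 1)` the operator `φ` is killed by a nonzero rational polynomial all of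
whose complex roots have absolute value `q ^ ((a + i) / 2)`. -/
def MwPure [CharZero F] (q : ℕ) (i : ℤ) (V : Submodule F H) (φ u : Module.End F H) : Prop :=
  ∃ m > 0, ∃ M : ℤ → Submodule F H, Monotone M ∧ (∃ a, M a = ⊥) ∧ (∃ a, ∀ b ≥ a, M b = V) ∧
    (∀ a, ∀ v ∈ M a, (u ^ m - 1) v ∈ M (a - 2)) ∧
    (∀ r : ℕ, (∀ v ∈ M r, ((u ^ m - 1) ^ r) v ∈ M (-r - 1) → v ∈ M (r - 1)) ∧
      ∀ w ∈ M (-r), ∃ v ∈ M r, w - ((u ^ m - 1) ^ r) v ∈ M (-r - 1)) ∧
    ∀ a, (∀ v ∈ M a, φ v ∈ M a) ∧ ∃ P : Polynomial ℚ, P ≠ 0 ∧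
      (∀ z : ℂ, Polynomial.aeval z P = 0 → ‖z‖ ^ 2 = (q : ℝ) ^ (a + i)) ∧
        ∀ v ∈ M a, Polynomial.aeval φ (P.map (algebraMap ℚ F)) v ∈ M (a - 1)

end

/-- Geometric points of the product of the projective spaces with `d k` homogeneous
coordinates. -/
def Amb (K : Type) [Field K] {ι : Type} (d : ι → ℕ) : Type :=
  ∀ k, Projectivization (AlgebraicClosure K) (Fin (d k) → AlgebraicClosure K)

/-- Polynomials over `K` in the homogeneous coordinates. -/
abbrev Pol (K : Type) [Field K] {ι : Type} (d : ι → ℕ) : Type :=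
  MvPolynomial (Σ k, Fin (d k)) K

section

variable {K : Type} [Field K] {ι κ : Type} {d : ι → ℕ}

/-- Value at the chosen homogeneous coordinates of a point. -/
noncomputable def ev (f : Pol K d) (p : Amb K d) : AlgebraicClosure K :=
  aeval (fun v => (p v.1).rep v.2) f

/-- Multihomogeneous of multidegree `δ`. -/
def MH (f : Pol K d) (δ : ι →₀ ℕ) : Prop :=
  IsWeightedHomogeneous (fun v => Finsupp.single v.1 1) f δ

/-- Common zeros of a family of polynomials. -/
def zer (g : κ → Pol K d) : Set (Amb K d) := {p | ∀ j, ev (g j) p = 0}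

/-- Zariski closed and defined over `K`. -/
def Closed (Z : Set (Amb K d)) : Prop :=
  ∃ T : Set (Pol K d), (∀ f ∈ T, ∃ δ, MH f δ) ∧ Z = {p | ∀ f ∈ T, ev f p = 0}

/-- Locally closed and defined over `K`, in a finite product. -/
def LC (S : Set (Amb K d)) : Prop := Finite ι ∧ ∃ Z Z', Closed Z ∧ Closed Z' ∧ S = Z \ Z'

/-- The morphism between products of projective spaces given by a map of index sets. -/
def re (u : κ → ι) (p : Amb K d) : Amb K fun j => d (u j) := fun j => p (u j)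

/-- `re u` restricts to a proper morphism `S → T`. -/
def Proper (u : κ → ι) (S : Set (Amb K d)) (T : Set (Amb K fun j => d (u j))) : Prop :=
  LC S ∧ LC T ∧ ∃ Z, Closed Z ∧ S = Z ∩ re u ⁻¹' T

/-- The gradients of the `g j` at `p` are linearly independent. -/
def Ind (g : κ → Pol K d) (p : Amb K d) : Prop :=
  LinearIndependent (AlgebraicClosure K) fun j v => ev (pderiv v (g j)) p

/-- Near each point of `S` the ideal of the `g j` is generated by `c` of them, with independent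
gradients: the subscheme they define is smooth of codimension `c` along `S`. -/
def Smooth (g : κ → Pol K d) (c : ℕ) (S : Set (Amb K d)) : Prop :=
  ∀ p ∈ S, ∃ (I : Fin c → κ) (h : Pol K d) (A : κ → Fin c → Pol K d) (η : ι →₀ ℕ),
    MH h η ∧ (∀ j i, MH (A j i) η) ∧ ev h p ≠ 0 ∧ (∀ j, h * g j = ∑ i, A j i * g (I i)) ∧
      Ind (fun i => g (I i)) p

end

/-- The data of a cohomology theory with compact support, with underlying modules `H S`. -/
structure Theory (K F : Type) [Field K] [Field F]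
    (H : ∀ {ι : Type} {d : ι → ℕ}, Set (Amb K d) → ModuleCat.{0} F) where
  χ : (AlgebraicClosure K ≃ₐ[K] AlgebraicClosure K) →* Fˣ
  A : ∀ {ι : Type} {d : ι → ℕ} (S : Set (Amb K d)),
    Gr F (AlgebraicClosure K ≃ₐ[K] AlgebraicClosure K) (H S)
  e : ∀ {ι : Type} {d : ι → ℕ} (S : Set (Amb K d)), ι → Module.End F (H S)
  pull : ∀ {ι κ : Type} {d : ι → ℕ} (u : κ → ι) (S : Set (Amb K d))
    (T : Set (Amb K fun j => d (u j))), H T →ₗ[F] H S
  ext : ∀ {ι : Type} {d : ι → ℕ} (S T : Set (Amb K d)), H S →ₗ[F] H T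

section

variable {K F : Type} [NontriviallyNormedField K] [Field F]
  {H : ∀ {ι : Type} {d : ι → ℕ}, Set (Amb K d) → ModuleCat.{0} F} (C : Theory K F H)

/-- Products, action, traces, hyperplane classes; a form without zeros kills its class. -/
def Theory.Basic : Prop :=
  ∀ (ι : Type) (d : ι → ℕ) (S : Set (Amb K d)), LC S → (C.A S).Wf C.χ ∧
    (∀ k, (C.A S).Op C.χ (C.e S k) ∧ ∀ l, C.e S k * C.e S l = C.e S l * C.e S k) ∧
    ∀ f δ, MH f δ → (∀ p ∈ S, ev f p ≠ 0) → (δ.sum fun k n => n • C.e S k) = 0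

/-- Functorial pull-back along proper morphisms. -/
def Theory.Natural : Prop :=
  ∀ (ι κ : Type) (d : ι → ℕ) (u : κ → ι) (S : Set (Amb K d)) (T : Set (Amb K fun j => d (u j))),
    Proper u S T → (C.A T).Hom (C.A S) (C.pull u S T) ∧
      (∀ k a, C.pull u S T (C.e T k a) = C.e S (u k) (C.pull u S T a)) ∧
      (∀ a, C.pull (fun k => k) S S a = a) ∧
      ∀ (μ : Type) (u' : μ → κ) (R : Set (Amb K fun j => d (u (u' j)))), Proper u' T R →
        ∀ a, C.pull u S T (C.pull u' T R a) = C.pull (fun j => u (u' j)) S R a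

/-- Extension by zero from the open part `U`, and two consequences of the long exact sequence with
the closed part `Y`. -/
def Theory.Excision : Prop :=
  ∀ (ι : Type) (d : ι → ℕ) (T Z U Y : Set (Amb K d)), LC T → Closed Z → U = T \ Z → Y = T ∩ Z →
    (C.A U).Hom (C.A T) (C.ext U T) ∧ (∀ k a, C.ext U T (C.e U k a) = C.e T k (C.ext U T a)) ∧
      (∀ m, (C.A T).Top m → ∀ a, (C.A T).tr m (C.ext U T a) = (C.A U).tr m a) ∧
      (∀ i, ∀ a ∈ (C.A T).gr i, C.pull (fun k => k) Y T a = 0 ↔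
        ∃ b ∈ (C.A U).gr i, C.ext U T b = a) ∧
      ∀ i, (∀ c ∈ (C.A Y).gr (i - 1), ∃ a ∈ (C.A T).gr (i - 1), C.pull (fun k => k) Y T a = c) →
        ∀ b ∈ (C.A U).gr i, C.ext U T b = 0 → b = 0

/-- Restriction to a closed subset commutes with extension by zero. -/
def Theory.BaseChange : Prop :=
  ∀ (ι : Type) (d : ι → ℕ) (T Z Y U T' U' : Set (Amb K d)), LC T → Closed Z → Closed Y →
    U = T \ Z → T' = T ∩ Y → U' = T' \ Z → ∀ a,
      C.pull (fun k => k) T' T (C.ext U T a) = C.ext U' T' (C.pull (fun k => k) U' U a)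

/-- The projective bundle formula. -/
def Theory.Bundle : Prop :=
  ∀ (ι κ : Type) (d : ι → ℕ) (u : κ → ι) (S : Set (Amb K d)) (T : Set (Amb K fun j => d (u j)))
    (k : ι) (r : ℕ), Proper u S T →
    (∀ t ∈ T, ∃ M : Submodule (AlgebraicClosure K) (Fin (d k) → AlgebraicClosure K),
      Module.finrank (AlgebraicClosure K) M = r ∧
        Set.BijOn (fun p => p k) {p ∈ S | re u p = t} {l | l.submodule ≤ M}) →
    (C.A T).Free (C.A S) (C.pull u S T) (C.e S k) r

/-- Cohomological dimension of a subset of a locally smooth locus of codimension `c`. -/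
def Theory.Dimension : Prop :=
  ∀ (ι : Type) [Fintype ι] (d : ι → ℕ) (S : Set (Amb K d)) (c m : ℕ), LC S →
    m + c + Fintype.card ι = ∑ k, d k →
    (∀ p ∈ S, ∃ g : Fin c → Pol K d, (∀ j, ∃ δ, MH (g j) δ) ∧ S ⊆ zer g ∧ Ind g p) →
    (C.A S).Top m

/-- Poincare duality for smooth projective varieties of dimension `m`. -/
def Theory.Duality : Prop :=
  ∀ (ι κ : Type) [Fintype ι] (d : ι → ℕ) (g : κ → Pol K d) (δ : ι →₀ ℕ) (c m : ℕ)
    (X : Set (Amb K d)), X = zer g → (∀ j, MH (g j) δ) → Smooth g c X →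
    m + c + Fintype.card ι = ∑ k, d k → ∀ i, ∀ a ∈ (C.A X).gr i, a ≠ 0 →
      (∃ b ∈ (C.A X).gr (2 * m - i), (C.A X).tr m ((C.A X).mul a b) ≠ 0) ∧
        ∃ b ∈ (C.A X).gr (2 * m - i), (C.A X).tr m ((C.A X).mul b a) ≠ 0

/-- Specialisation from an open part `U` of a zero set, along which the equations are transversal,
to all nearby smooth complete intersections `Y`. -/
def Theory.Tube : Prop :=
  ∀ (ι κ : Type) [Fintype ι] [Fintype κ] (d : ι → ℕ) (g : κ → Pol K d) (δ : κ → ι →₀ ℕ)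
    (Z U : Set (Amb K d)) (m : ℕ), (∀ j, MH (g j) (δ j)) → Closed Z → U = zer g \ Z →
    (∀ p ∈ U, Ind g p) → m + Fintype.card κ + Fintype.card ι = ∑ k, d k →
    ∃ ε > (0 : ℝ), ∀ (g' : κ → Pol K d) (Y : Set (Amb K d)), (∀ j, MH (g' j) (δ j)) →
      (∀ j s, ‖coeff s (g' j - g j)‖ < ε) → Y = zer g' → (∀ p ∈ Y, Ind g' p) →
      ∃ s : H U →ₗ[F] H Y, (C.A U).Hom (C.A Y) s ∧ ∀ a, (C.A Y).tr m (s a) = (C.A U).tr m a

/-- Monodromy-weight purity for smooth complete intersections of ample divisors in products of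
projective spaces. -/
def Theory.Scholze [CharZero F] (q : ℕ)
    (φ u : AlgebraicClosure K ≃ₐ[K] AlgebraicClosure K) : Prop :=
  ∀ (ι κ : Type) [Finite ι] [Finite κ] (d : ι → ℕ) (g : κ → Pol K d) (δ : κ → ι →₀ ℕ)
    (Y : Set (Amb K d)), (∀ j, MH (g j) (δ j)) → (∀ j k, 0 < δ j k) → Y = zer g →
    (∀ p ∈ Y, Ind g p) → ∀ i, MwPure q i ((C.A Y).gr i) ((C.A Y).ρ φ) ((C.A Y).ρ u)

/-- `s` is the pull-back along an automorphism of `X`, given by its graph `Γ`, that fixes
pointwise the zeros on `X` of a form of positive degree. -/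
def Theory.Refl {N : ℕ} (X : Set (Amb K fun _ : Unit => N)) (s : Module.End F (H X)) : Prop :=
  ∃ (Γ : Set (Amb K fun _ : Bool => N)) (h : Pol K fun _ : Unit => N) (k : ℕ), Closed Γ ∧
    (∀ b, Set.BijOn (re (d := fun _ : Bool => N) fun _ : Unit => b) Γ X) ∧
    MH h (Finsupp.single () (k + 1)) ∧
    (∀ p ∈ Γ, ev h (fun _ => p false) = 0 → p false = p true) ∧
    ∀ a, C.pull (d := fun _ : Bool => N) (fun _ : Unit => false) Γ X (s a) =
      C.pull (d := fun _ : Bool => N) (fun _ : Unit => true) Γ X a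

end

end Pool.Agent.MP_855f4c_ag.Aff
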