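import Pool.Agent.MP_855f4c_ag.Aff.TowerDefs

/-! The equations of the top of the tower: degrees, number, and transversality. -/

namespace Pool.Agent.MP_855f4c_ag.Aff

open MvPolynomial Matrix

variable {K : Type} [Field K] {N w c : ℕ}

theorem fa_mh_xv (a : Fin w) (b : Bool) (i : Fin w) :
    MH (xv K N a b i) (Finsupp.single (some (a, b)) 1) :=
  MH.X (d := dJ N w) ⟨some (a, b), i⟩

theorem fa_mh_up {f : Pol K fun _ : Unit => N} {δ : Unit →₀ ℕ} (hf : MH f δ) :
    MH (up w f) (δ.mapDomain fun _ : Unit => (none : J w)) :=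
  MH.ren (d := dJ N w) (fun _ : Unit => (none : J w)) hf

theorem Dat.mh_g0 (X : Dat K N w c) (F : Fin w → Pol K fun _ : Unit => N) (δ : Unit →₀ ℕ)
    (hF : ∀ a, MH (F a) δ) (j : EqI w c) : ∃ η, MH (X.g0 F j) η := by
  rcases j with a | x | x
  · exact ⟨_, MH.sum _ fun i _ => (fa_mh_xv a.1 false i).mul (fa_mh_up (hF i))⟩
  · exact ⟨_, MH.sum _ fun i _ => (fa_mh_xv x.1.1 true i).mul (fa_mh_xv x.1.2 false i)⟩
  · exact ⟨_, MH.sum _ fun i _ => MH.sum _ fun j _ =>
      ((fa_mh_xv x.1.1 true i).mul (fa_mh_up (X.hE i j))).mul (fa_mh_xv x.1.2 false j)⟩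

theorem mh_piF (h : Pol K fun _ : Unit => N) (dh : ℕ) (hh : MH h (Finsupp.single () (dh + 1))) :
    ∃ η, MH (piF w h) η ∧ ∀ k, 0 < η k := by
  refine ⟨_, (fa_mh_up hh).mul (MH.prod (δ := fun a : Fin w =>
    Finsupp.single (some (a, true)) 1 + Finsupp.single (some (a, false)) 1) _ fun a _ =>
      MH.sum _ fun i _ => (fa_mh_xv a true i).mul (fa_mh_xv a false i)), ?_⟩
  intro k
  rw [Finsupp.mapDomain_single, Finsupp.add_apply, Finsupp.finsetSum_apply]
  rcases k with _ | ⟨a, b⟩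
  · simp
  · refine Nat.add_pos_right _ (Finset.sum_pos' (fun _ _ => Nat.zero_le _)
      ⟨a, Finset.mem_univ _, ?_⟩)
    cases b <;> simp

theorem ev_piF (h : Pol K fun _ : Unit => N) (p : Amb K (dJ N w)) :
    ev (piF w h) p = ev h (bz p) * ∏ a, vc p a true ⬝ᵥ vc p a false := by
  simp [piF, dotProduct]

theorem fa_sum_rk (c e : ℕ) :
    ∑ a ∈ Finset.range (c + e), 2 * rk (c + e) c a + c + e = c * c + e * e := by
  have key : ∀ m : ℕ, ∑ a ∈ Finset.range m, 2 * (m - a - 1) + m = m * m := by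
    intro m
    have h1 : ∑ a ∈ Finset.range m, 2 * (m - a - 1) = ∑ a ∈ Finset.range m, 2 * a := by
      rw [← Finset.sum_range_reflect]
      refine Finset.sum_congr rfl fun a ha => ?_
      have := Finset.mem_range.1 ha
      omega
    rw [h1]
    clear h1
    induction m with
    | zero => simp
    | succ m ih => rw [Finset.sum_range_succ]; nlinarith
  rw [Finset.sum_range_add]
  have h1 : ∑ a ∈ Finset.range c, 2 * rk (c + e) c a = ∑ a ∈ Finset.range c, 2 * (c - a - 1) :=
    Finset.sum_congr rfl fun a ha => by rw [rk, if_pos (Finset.mem_range.1 ha)]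
  have h2 : ∑ a ∈ Finset.range e, 2 * rk (c + e) c (c + a) =
      ∑ a ∈ Finset.range e, 2 * (e - a - 1) :=
    Finset.sum_congr rfl fun a _ => by
      rw [rk, if_neg (by omega)]
      omega
  rw [h1, h2]
  have := key c
  have := key e
  omega

theorem fa_card_lt (c e : ℕ) :
    ∑ a : Fin (c + e), (if (a : ℕ) < c then 1 else 0 : ℕ) = c ∧
      ∑ a : Fin (c + e), (if (a : ℕ) < c then 0 else 1 : ℕ) = e := by
  constructor <;> rw [Fin.sum_univ_add] <;> simp

theorem count_eq (hc : c ≤ w) (n : ℕ) (hn : n + c + 1 = N) :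
    (n + ∑ a ∈ Finset.range w, 2 * rk w c a) + Fintype.card (EqI w c) + Fintype.card (J w) =
      ∑ k, dJ N w k := by
  obtain ⟨e, rfl⟩ := Nat.exists_eq_add_of_le hc
  obtain ⟨k1, k2⟩ := fa_card_lt c e
  have h1 : Fintype.card {a : Fin (c + e) // (a : ℕ) < c} = c := by
    rw [Fintype.card_subtype, Finset.card_filter, k1]
  have h2 : Fintype.card {x : Fin (c + e) × Fin (c + e) // x.1 ≠ x.2} + (c + e) =
      (c + e) * (c + e) := by
    rw [Fintype.card_subtype, Finset.card_filter, Fintype.sum_prod_type]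
    have : ∀ a : Fin (c + e), ∑ b : Fin (c + e), (if a ≠ b then 1 else 0 : ℕ) + 1 = c + e := by
      intro a
      have h3 : ∑ b : Fin (c + e), (if a = b then 1 else 0 : ℕ) = 1 := by simp
      rw [← h3, ← Finset.sum_add_distrib]
      rw [Finset.sum_congr rfl (g := fun _ => 1) fun b _ => by by_cases h : a = b <;> simp [h]]
      simp
    have h4 : ∑ a : Fin (c + e), (∑ b : Fin (c + e), (if a ≠ b then 1 else 0 : ℕ) + 1) =
        (c + e) * (c + e) := by
      rw [Finset.sum_congr rfl fun a _ => this a]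
      simp
    rw [Finset.sum_add_distrib] at h4
    simpa using h4
  have h3 : Fintype.card {x : Fin (c + e) × Fin (c + e) // ¬((x.1 : ℕ) < c ↔ (x.2 : ℕ) < c)} =
      c * e + e * c := by
    rw [Fintype.card_subtype, Finset.card_filter, Fintype.sum_prod_type]
    have : ∀ a b : Fin (c + e), (if ¬((a : ℕ) < c ↔ (b : ℕ) < c) then 1 else 0 : ℕ) =
        (if (a : ℕ) < c then 1 else 0) * (if (b : ℕ) < c then 0 else 1) +
          (if (a : ℕ) < c then 0 else 1) * (if (b : ℕ) < c then 1 else 0) := by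
      intro a b
      by_cases ha : (a : ℕ) < c <;> by_cases hb : (b : ℕ) < c <;> simp [ha, hb]
    simp only [this, Finset.sum_add_distrib, ← Finset.mul_sum, ← Finset.sum_mul, k1, k2]
  have h4 : ∑ k, dJ N (c + e) k = N + (c + e) * 2 * (c + e) := by
    rw [Fintype.sum_option]
    simp [dJ]
  have h5 := fa_sum_rk c e
  rw [h4, Fintype.card_sum, Fintype.card_sum, h1, h3, Fintype.card_option, Fintype.card_prod,
    Fintype.card_fin, Fintype.card_bool]
  nlinarith

theorem fa_E_dot (X : Dat K N w c) (p : Amb K (dJ N w)) (φ v : Fin w → AlgebraicClosure K) :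
    ∑ i, ∑ j, φ i * ev (X.E i j) (bz p) * v j = φ ⬝ᵥ (X.Eb false (bz p) *ᵥ v) := by
  simp [Dat.Eb, dotProduct, mulVec, Finset.mul_sum, mul_assoc]

theorem Dat.g0_zero (X : Dat K N w c) (F : Fin w → Pol K fun _ : Unit => N) (hU : X.U ⊆ zer F) :
    X.SJ ⊆ zer (X.g0 F) := by
  rintro p ⟨h1, h2, h3, -⟩ j
  rcases j with a | x | x
  · have := hU h1
    simp [Dat.g0, this _]
  · have := h3 _ _ x.2
    simpa [Dat.g0, dotProduct] using this
  · have hne : x.1.1 ≠ x.1.2 := fun h => x.2 (by rw [h])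
    have := fa_E_dot X p (vc p x.1.1 true) (vc p x.1.2 false)
    rw [h2, dotProduct_smul, h3 _ _ hne, smul_zero] at this
    simpa [Dat.g0] using this

theorem fa_ev_pderiv_mul {ι : Type} {d : ι → ℕ} (v : Σ k, Fin (d k)) (f g : Pol K d)
    (p : Amb K d) :
    ev (pderiv v (f * g)) p = ev f p * ev (pderiv v g) p + ev g p * ev (pderiv v f) p := by
  rw [Derivation.leibniz]
  simp

theorem fa_pderiv_up_none (j : Fin N) (f : Pol K fun _ : Unit => N) :
    pderiv (⟨none, j⟩ : Σ k, Fin (dJ N w k)) (up w f) = up w (pderiv ⟨(), j⟩ f) := by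
  have hinj : Function.Injective
      (fun v : Σ _ : Unit, Fin N => (⟨none, v.2⟩ : Σ k, Fin (dJ N w k))) := by
    rintro ⟨⟨⟩, a⟩ ⟨⟨⟩, b⟩ h
    have := eq_of_heq (Sigma.mk.inj h).2
    subst this
    rfl
  exact pderiv_rename hinj ⟨(), j⟩ f

theorem fa_pderiv_up_some (x : Fin w × Bool) (i : Fin w) (f : Pol K fun _ : Unit => N) :
    pderiv (⟨some x, i⟩ : Σ k, Fin (dJ N w k)) (up w f) = 0 := by
  induction f using MvPolynomial.induction_on with
  | C a =>
    have : up w (C a : Pol K fun _ : Unit => N) = C a := rename_C _ a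
    rw [this, pderiv_C]
  | add f g hf hg =>
    have : up w (f + g) = up w f + up w g := map_add _ f g
    rw [this, map_add, hf, hg, add_zero]
  | mul_X f v hf =>
    have h1 : up w (f * MvPolynomial.X v) = up w f * up w (MvPolynomial.X v) := map_mul _ _ _
    have h2 : up w (MvPolynomial.X v : Pol K fun _ : Unit => N) =
        MvPolynomial.X ⟨none, v.2⟩ := rename_X _ v
    rw [h1, h2, Derivation.leibniz, hf, pderiv_X_of_ne (by simp)]
    simp

theorem fa_pderiv_xv_none (j : Fin N) (a : Fin w) (b : Bool) (i : Fin w) :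
    pderiv (⟨none, j⟩ : Σ k, Fin (dJ N w k)) (xv K N a b i) = 0 :=
  pderiv_X_of_ne (by simp)

theorem fa_pderiv_xv_some (a' : Fin w) (b' : Bool) (i' : Fin w) (a : Fin w) (b : Bool)
    (i : Fin w) :
    pderiv (⟨some (a', b'), i'⟩ : Σ k, Fin (dJ N w k)) (xv K N a b i) =
      if a = a' ∧ b = b' ∧ i = i' then 1 else 0 := by
  split_ifs with h
  · obtain ⟨rfl, rfl, rfl⟩ := h
    exact pderiv_X_self _
  · refine pderiv_X_of_ne fun h' => h ?_
    obtain ⟨h1, h2⟩ := Sigma.mk.inj h'
    obtain ⟨rfl, rfl⟩ := Prod.mk.inj (Option.some.inj h1)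
    exact ⟨rfl, rfl, eq_of_heq h2⟩

theorem fa_ev_ite {ι : Type} {d : ι → ℕ} (P : Prop) [Decidable P] (p : Amb K d) :
    ev (if P then (1 : Pol K d) else 0) p = if P then 1 else 0 := by
  split_ifs <;> simp

theorem fa_sum_single {L α : Type} [Field L] [Fintype α] (P : α → Prop)
    [Fintype {x // P x}] (g : {x // P x} → L) (t : α → L) (x0 : α) [Decidable (P x0)]
    (ht : ∀ x, x ≠ x0 → t x = 0) :
    ∑ y, g y * t y.1 = if h : P x0 then g ⟨x0, h⟩ * t x0 else 0 := by
  split_ifs with h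
  · exact Fintype.sum_eq_single (⟨x0, h⟩ : {x // P x}) fun y hy => by
      rw [ht y.1 fun h' => hy (Subtype.ext h'), mul_zero]
  · exact Finset.sum_eq_zero fun y _ => by
      rw [ht y.1 fun h' => h (h' ▸ y.2), mul_zero]

section grad

variable (X : Dat K N w c) (F : Fin w → Pol K fun _ : Unit => N) (p : Amb K (dJ N w))

theorem fa_d_true_inl (a i : Fin w) (y : {a : Fin w // (a : ℕ) < c}) :
    ev (pderiv (⟨some (a, true), i⟩ : Σ k, Fin (dJ N w k)) (X.g0 F (.inl y))) p = 0 := by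
  simp only [Dat.g0, map_sum, ev_sum, fa_ev_pderiv_mul, fa_pderiv_up_some, fa_pderiv_xv_some]
  simp

theorem fa_d_false_inl (hF : bz p ∈ zer F) (a i : Fin w) (y : {a : Fin w // (a : ℕ) < c}) :
    ev (pderiv (⟨some (a, false), i⟩ : Σ k, Fin (dJ N w k)) (X.g0 F (.inl y))) p = 0 := by
  simp only [Dat.g0, map_sum, ev_sum, fa_ev_pderiv_mul, fa_pderiv_up_some, ev_up, hF _]
  simp

theorem fa_d_none_inl (j : Fin N) (y : {a : Fin w // (a : ℕ) < c}) :
    ev (pderiv (⟨none, j⟩ : Σ k, Fin (dJ N w k)) (X.g0 F (.inl y))) p =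
      ∑ i, vc p y.1 false i * ev (pderiv ⟨(), j⟩ (F i)) (bz p) := by
  simp only [Dat.g0, map_sum, ev_sum, fa_ev_pderiv_mul, fa_pderiv_up_none, fa_pderiv_xv_none]
  simp

theorem fa_d_true_mu (a i : Fin w) (y : {x : Fin w × Fin w // x.1 ≠ x.2}) :
    ev (pderiv (⟨some (a, true), i⟩ : Σ k, Fin (dJ N w k)) (X.g0 F (.inr (.inl y)))) p =
      if y.1.1 = a then vc p y.1.2 false i else 0 := by
  simp only [Dat.g0, map_sum, ev_sum, fa_ev_pderiv_mul, fa_pderiv_xv_some, fa_ev_ite]
  by_cases h : y.1.1 = a <;> simp [h]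

theorem fa_d_false_mu (a i : Fin w) (y : {x : Fin w × Fin w // x.1 ≠ x.2}) :
    ev (pderiv (⟨some (a, false), i⟩ : Σ k, Fin (dJ N w k)) (X.g0 F (.inr (.inl y)))) p =
      if y.1.2 = a then vc p y.1.1 true i else 0 := by
  simp only [Dat.g0, map_sum, ev_sum, fa_ev_pderiv_mul, fa_pderiv_xv_some, fa_ev_ite]
  by_cases h : y.1.2 = a <;> simp [h]

theorem fa_d_true_nu (a i : Fin w)
    (y : {x : Fin w × Fin w // ¬((x.1 : ℕ) < c ↔ (x.2 : ℕ) < c)}) :
    ev (pderiv (⟨some (a, true), i⟩ : Σ k, Fin (dJ N w k)) (X.g0 F (.inr (.inr y)))) p =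
      if y.1.1 = a then (X.Eb false (bz p) *ᵥ vc p y.1.2 false) i else 0 := by
  simp only [Dat.g0, map_sum, ev_sum, fa_ev_pderiv_mul, fa_pderiv_xv_some, fa_ev_ite,
    fa_pderiv_up_some]
  by_cases h : y.1.1 = a
  · simp [h, Dat.Eb, mulVec, dotProduct, mul_comm]
  · simp [h]

theorem fa_d_false_nu (a i : Fin w)
    (y : {x : Fin w × Fin w // ¬((x.1 : ℕ) < c ↔ (x.2 : ℕ) < c)}) :
    ev (pderiv (⟨some (a, false), i⟩ : Σ k, Fin (dJ N w k)) (X.g0 F (.inr (.inr y)))) p =
      if y.1.2 = a then (X.Eb true (bz p) *ᵥ vc p y.1.1 true) i else 0 := by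
  simp only [Dat.g0, map_sum, ev_sum, fa_ev_pderiv_mul, fa_pderiv_xv_some, fa_ev_ite,
    fa_pderiv_up_some]
  by_cases h : y.1.2 = a
  · simp [h, Dat.Eb, mulVec, dotProduct, mul_comm]
  · simp [h]

end grad

theorem Dat.ind_g0 (X : Dat K N w c) (F : Fin w → Pol K fun _ : Unit => N) (hU : X.U ⊆ zer F)
    (hJ : ∀ z ∈ X.U, ∀ v, X.Eb false z *ᵥ v = ev X.H z • v →
      (∀ j, ∑ a, v a * ev (pderiv j (F a)) z = 0) → v = 0) :
    ∀ p ∈ X.SJ, Ind (X.g0 F) p := by
  rintro p ⟨h1, h2, h3, h4⟩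
  refine Fintype.linearIndependent_iff.2 fun g hg => ?_
  have hv : ∀ v : Σ k, Fin (dJ N w k),
      ∑ y, g (.inl y) * ev (pderiv v (X.g0 F (.inl y))) p +
        (∑ y, g (.inr (.inl y)) * ev (pderiv v (X.g0 F (.inr (.inl y)))) p +
          ∑ y, g (.inr (.inr y)) * ev (pderiv v (X.g0 F (.inr (.inr y)))) p) = 0 := by
    intro v
    have := congrFun hg v
    rw [Finset.sum_apply, Fintype.sum_sum_type, Fintype.sum_sum_type] at this
    simpa only [Pi.smul_apply, smul_eq_mul, Pi.zero_apply] using this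
  have hA : ∀ a b : Fin w,
      (if h : a ≠ b then g (.inr (.inl ⟨(a, b), h⟩)) * (vc p b true ⬝ᵥ vc p b false) else 0) +
        (if h : ¬((a : ℕ) < c ↔ (b : ℕ) < c) then g (.inr (.inr ⟨(a, b), h⟩)) *
          (X.eps b (bz p) * (vc p b true ⬝ᵥ vc p b false)) else 0) = 0 := by
    intro a b
    have e1 := fa_sum_single (fun x : Fin w × Fin w => x.1 ≠ x.2) (fun y => g (.inr (.inl y)))
      (fun x => if x.1 = a then vc p b true ⬝ᵥ vc p x.2 false else 0) (a, b) (by
        rintro ⟨x, y⟩ hx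
        by_cases h : x = a
        · subst h
          rw [if_pos rfl]
          exact h3 _ _ fun h' => hx (by rw [h'])
        · exact if_neg h)
    have e2 := fa_sum_single (fun x : Fin w × Fin w => ¬((x.1 : ℕ) < c ↔ (x.2 : ℕ) < c))
      (fun y => g (.inr (.inr y)))
      (fun x => if x.1 = a then X.eps x.2 (bz p) * (vc p b true ⬝ᵥ vc p x.2 false) else 0) (a, b)
      (by
        rintro ⟨x, y⟩ hx
        by_cases h : x = a
        · subst h
          rw [if_pos rfl, h3 _ _ fun h' => hx (by rw [h']), mul_zero]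
        · exact if_neg h)
    simp only [if_true] at e1 e2
    rw [← e1, ← e2]
    have e3 := Finset.sum_eq_zero (s := Finset.univ) fun (i : Fin w) _ =>
      mul_eq_zero_of_right (vc p b true i) (hv ⟨some (a, true), i⟩)
    refine Eq.trans ?_ e3
    simp only [fa_d_true_inl, fa_d_true_mu, fa_d_true_nu, h2, mul_zero, Finset.sum_const_zero,
      zero_add, mul_add, Finset.sum_add_distrib, Finset.mul_sum]
    congr 1 <;> rw [Finset.sum_comm] <;> refine Finset.sum_congr rfl fun y _ => ?_ <;>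
      split_ifs <;> simp [dotProduct, Finset.mul_sum, mul_left_comm]
  have hB : ∀ a b : Fin w,
      (if h : a ≠ b then g (.inr (.inl ⟨(a, b), h⟩)) * (vc p a true ⬝ᵥ vc p a false) else 0) +
        (if h : ¬((a : ℕ) < c ↔ (b : ℕ) < c) then g (.inr (.inr ⟨(a, b), h⟩)) *
          (X.eps a (bz p) * (vc p a true ⬝ᵥ vc p a false)) else 0) = 0 := by
    intro a b
    have e1 := fa_sum_single (fun x : Fin w × Fin w => x.1 ≠ x.2) (fun y => g (.inr (.inl y)))
      (fun x => if x.2 = b then vc p x.1 true ⬝ᵥ vc p a false else 0) (a, b) (by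
        rintro ⟨x, y⟩ hx
        by_cases h : y = b
        · subst h
          rw [if_pos rfl]
          exact h3 _ _ fun h' => hx (Prod.ext h' rfl)
        · exact if_neg h)
    have e2 := fa_sum_single (fun x : Fin w × Fin w => ¬((x.1 : ℕ) < c ↔ (x.2 : ℕ) < c))
      (fun y => g (.inr (.inr y)))
      (fun x => if x.2 = b then X.eps x.1 (bz p) * (vc p x.1 true ⬝ᵥ vc p a false) else 0) (a, b)
      (by
        rintro ⟨x, y⟩ hx
        by_cases h : y = b
        · subst h
          rw [if_pos rfl, h3 _ _ fun h' => hx (Prod.ext h' rfl), mul_zero]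
        · exact if_neg h)
    simp only [if_true] at e1 e2
    rw [← e1, ← e2]
    have e3 := Finset.sum_eq_zero (s := Finset.univ) fun (i : Fin w) _ =>
      mul_eq_zero_of_right (vc p a false i) (hv ⟨some (b, false), i⟩)
    refine Eq.trans ?_ e3
    simp only [fa_d_false_inl X F p (hU h1), fa_d_false_mu, fa_d_false_nu, h2, mul_zero,
      Finset.sum_const_zero, zero_add, mul_add, Finset.sum_add_distrib, Finset.mul_sum]
    congr 1 <;> rw [Finset.sum_comm] <;> refine Finset.sum_congr rfl fun y _ => ?_ <;>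
      split_ifs <;>
      simp only [dotProduct, Finset.mul_sum, mul_zero, Finset.sum_const_zero, Pi.smul_apply,
        smul_eq_mul] <;>
      exact Finset.sum_congr rfl fun _ _ => by ring
  have hH := X.ne _ h1
  have hnu : ∀ y, g (.inr (.inr y)) = 0 := by
    rintro ⟨⟨a, b⟩, h⟩
    have hne : a ≠ b := fun h' => h (by rw [h'])
    have e1 := hA a b
    have e2 := hB a b
    rw [dif_pos hne, dif_pos h, ← mul_assoc, ← add_mul, mul_eq_zero] at e1 e2
    replace e1 := e1.resolve_right (h4 b)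
    replace e2 := e2.resolve_right (h4 a)
    by_cases ha : (a : ℕ) < c
    · have hb : ¬(b : ℕ) < c := fun hb => h (iff_of_true ha hb)
      rw [Dat.eps, if_neg hb, mul_zero, add_zero] at e1
      rw [Dat.eps, if_pos ha, e1, zero_add] at e2
      exact (mul_eq_zero.1 e2).resolve_right hH
    · have hb : (b : ℕ) < c := by_contra fun hb => h (iff_of_false ha hb)
      rw [Dat.eps, if_neg ha, mul_zero, add_zero] at e2
      rw [Dat.eps, if_pos hb, e2, zero_add] at e1
      exact (mul_eq_zero.1 e1).resolve_right hH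
  have hmu : ∀ y, g (.inr (.inl y)) = 0 := by
    rintro ⟨⟨a, b⟩, h⟩
    have e1 := hA a b
    simp only [hnu, zero_mul, dite_eq_ite, ite_self, add_zero] at e1
    rw [dif_pos h] at e1
    exact (mul_eq_zero.1 e1).resolve_right (h4 b)
  have hv0 : ∑ y : {a : Fin w // (a : ℕ) < c}, g (.inl y) • vc p y.1 false = 0 := by
    refine hJ _ h1 _ ?_ ?_
    · rw [mulVec_sum, Finset.smul_sum]
      refine Finset.sum_congr rfl fun y _ => ?_
      rw [mulVec_smul, h2, Dat.eps, if_pos y.2, smul_comm]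
    · rintro ⟨⟨⟩, j⟩
      have e := hv ⟨none, j⟩
      simp only [hmu, hnu, zero_mul, Finset.sum_const_zero, add_zero, fa_d_none_inl,
        Finset.mul_sum] at e
      rw [Finset.sum_comm] at e
      rw [← e]
      refine Finset.sum_congr rfl fun i _ => ?_
      rw [Finset.sum_apply, Finset.sum_mul]
      refine Finset.sum_congr rfl fun y _ => ?_
      rw [Pi.smul_apply, smul_eq_mul, mul_assoc]
  rintro (y | y | y)
  · have e : vc p y.1 true ⬝ᵥ ∑ y : {a : Fin w // (a : ℕ) < c}, g (.inl y) • vc p y.1 false = 0 := by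
      rw [hv0, dotProduct_zero]
    rw [dotProduct_sum, Fintype.sum_eq_single y fun y' hy => by
      rw [dotProduct_smul, h3 _ _ fun h => hy (Subtype.ext h.symm), smul_zero],
      dotProduct_smul, smul_eq_mul] at e
    exact (mul_eq_zero.1 e).resolve_right (h4 _)
  · exact hmu y
  · exact hnu y

theorem Ind.mul {ι κ : Type} {d : ι → ℕ} {g : κ → Pol K d} {p : Amb K d} (f : Pol K d)
    (hp : p ∈ zer g) (hf : ev f p ≠ 0) (h : Ind g p) : Ind (fun j => f * g j) p := by
  have h1 := LinearIndependent.units_smul h fun _ => Units.mk0 (ev f p) hf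
  unfold Ind
  convert h1 using 1
  funext j v
  rw [fa_ev_pderiv_mul, hp j, zero_mul, add_zero]
  simp [Units.smul_def]

end Pool.Agent.MP_855f4c_ag.Aff
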