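import Pool.Agent.MP_855f4c_ag.Aff.LinAlg

/-! Graded modules all of whose perfectly paired stable subspaces are monodromy-weight pure. -/

namespace Pool.Agent.MP_855f4c_ag.Aff

variable {F G : Type} [Field F] [Group G]

/-- The pairing `B` between `V` and `W` has trivial kernels. -/
def Perf {H : Type} [AddCommGroup H] [Module F H] (B : H →ₗ[F] H →ₗ[F] F) (V W : Submodule F H) :
    Prop :=
  (∀ v ∈ V, (∀ w ∈ W, B v w = 0) → v = 0) ∧ ∀ w ∈ W, (∀ v ∈ V, B v w = 0) → w = 0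

theorem Perf.exists {H : Type} [AddCommGroup H] [Module F H] [Module.Finite F H]
    {B : H →ₗ[F] H →ₗ[F] F} {V W : Submodule F H} (h : Perf B V W) (b : H) :
    ∃ v ∈ V, ∀ w ∈ W, B (b - v) w = 0 := by
  let P : V →ₗ[F] Module.Dual F W := (B.domRestrict₂ W).domRestrict V
  let Q : W →ₗ[F] Module.Dual F V := (B.flip.domRestrict₂ V).domRestrict W
  have hP : Function.Injective P := by
    rw [injective_iff_map_eq_zero]
    intro v hv
    exact Subtype.ext (h.1 v v.2 fun w hw => LinearMap.congr_fun hv ⟨w, hw⟩)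
  have hQ : Function.Injective Q := by
    rw [injective_iff_map_eq_zero]
    intro w hw
    exact Subtype.ext (h.2 w w.2 fun v hv => LinearMap.congr_fun hw ⟨v, hv⟩)
  have h1 := LinearMap.finrank_le_finrank_of_injective hP
  have h2 := LinearMap.finrank_le_finrank_of_injective hQ
  rw [Subspace.dual_finrank_eq] at h1 h2
  have hs : Function.Surjective P :=
    (LinearMap.injective_iff_surjective_of_finrank_eq_finrank
      (by rw [Subspace.dual_finrank_eq]; omega)).1 hP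
  obtain ⟨v, hv⟩ := hs (B.domRestrict₂ W b)
  refine ⟨v, v.2, fun w hw => ?_⟩
  have := LinearMap.congr_fun hv ⟨w, hw⟩
  rw [map_sub, LinearMap.sub_apply, sub_eq_zero]
  exact this.symm

/-- The trace pairing. -/
def GM.pair (A : GM F G) (m : ℕ) : A.H →ₗ[F] A.H →ₗ[F] F := A.mul.compr₂ (A.tr m)

@[simp] theorem GM.pair_apply (A : GM F G) (m : ℕ) (a b : A.H) :
    A.pair m a b = A.tr m (A.mul a b) := rfl

/-- `α` shifts degrees by `2 t`, twists the action by `χ ^ t` and scales the pairing by a unit. -/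
def GM.Emb (χ : G →* Fˣ) (A B : GM F G) (m t : ℕ) : Prop :=
  ∃ (α : ℤ → A.H →ₗ[F] B.H) (κ : F), κ ≠ 0 ∧ (∀ i, ∀ a ∈ A.gr i, α i a ∈ B.gr (i + 2 * t)) ∧
    (∀ i σ, ∀ a ∈ A.gr i, B.ρ σ (α i a) = (χ σ : F) ^ t • α i (A.ρ σ a)) ∧
    ∀ i j : ℤ, i + j = 2 * m → ∀ a ∈ A.gr i, ∀ b ∈ A.gr j,
      B.tr (m + t + t) (B.mul (α i a) (α j b)) = κ * A.tr m (A.mul a b)

theorem GM.Emb.of_hom {χ : G →* Fˣ} {A B : GM F G} {m : ℕ} {f : A.H →ₗ[F] B.H} (hf : A.Hom B f)
    (ht : ∀ a, B.tr m (f a) = A.tr m a) : A.Emb χ B m 0 :=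
  ⟨fun _ => f, 1, one_ne_zero, fun i a ha => by simpa using hf.1 i a ha,
    fun i σ a _ => by simpa using hf.2.2 σ a, fun i j _ a _ b _ => by
      rw [← hf.2.1, one_mul]
      exact ht _⟩

theorem GM.Free.inj {A B : GM F G} {f : A.H →ₗ[F] B.H} {x : Module.End F B.H}
    (h : A.Free B f x 1) : Function.Injective f := by
  rw [injective_iff_map_eq_zero]
  intro a ha
  exact congrFun (h.1 (fun _ => a) (by simpa using ha)) 0

theorem GM.Free.surj {A B : GM F G} {f : A.H →ₗ[F] B.H} {x : Module.End F B.H}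
    (h : A.Free B f x 1) (i : ℤ) : ∀ b ∈ B.gr i, ∃ a ∈ A.gr i, f a = b := by
  intro b hb
  obtain ⟨a, h1, h2⟩ := h.2.1 i b hb
  exact ⟨a 0, by simpa using h1 0, by simpa using h2.symm⟩

theorem GM.Free.tr_eq {A B : GM F G} {f : A.H →ₗ[F] B.H} {x : Module.End F B.H}
    (h : A.Free B f x 1) {m : ℕ} (hA : A.Top m) (a : A.H) : B.tr m (f a) = A.tr m a := by
  simpa using h.2.2 m 0 rfl hA a

theorem GM.Free.top_one {A B : GM F G} {f : A.H →ₗ[F] B.H} {x : Module.End F B.H}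
    (h : A.Free B f x 1) {m : ℕ} (hA : A.Top m) : B.Top m := by
  intro j hj
  refine eq_bot_iff.2 fun b hb => ?_
  obtain ⟨a, h1, rfl⟩ := h.surj j b hb
  rw [hA j hj, Submodule.mem_bot] at h1
  simp [h1]

theorem GM.Free.top_one' {A B : GM F G} {f : A.H →ₗ[F] B.H} {x : Module.End F B.H}
    (h : A.Free B f x 1) (hf : A.Hom B f) {m : ℕ} (hB : B.Top m) : A.Top m := by
  intro j hj
  refine eq_bot_iff.2 fun a ha => ?_
  have h1 := hf.1 j a ha
  rw [hB j hj, Submodule.mem_bot] at h1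
  exact h.inj (by simpa using h1)

theorem GM.Free.emb {χ : G →* Fˣ} {A B : GM F G} {f : A.H →ₗ[F] B.H} {x : Module.End F B.H}
    (h : A.Free B f x 1) (hf : A.Hom B f) {m : ℕ} (hA : A.Top m) : A.Emb χ B m 0 :=
  GM.Emb.of_hom hf (h.tr_eq hA)

theorem GM.Free.emb' {χ : G →* Fˣ} {A B : GM F G} {f : A.H →ₗ[F] B.H} {x : Module.End F B.H}
    (h : A.Free B f x 1) (hf : A.Hom B f) {m : ℕ} (hA : A.Top m) :
    B.Emb χ A m 0 := by
  obtain ⟨g, hg⟩ := f.exists_leftInverse_of_injective (LinearMap.ker_eq_bot.2 h.inj)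
  have hgf : ∀ a, g (f a) = a := fun a => LinearMap.congr_fun hg a
  refine ⟨fun _ => g, 1, one_ne_zero, fun i b hb => ?_, fun i σ b hb => ?_,
    fun i j _ a ha b hb => ?_⟩
  · obtain ⟨a, ha, rfl⟩ := h.surj i b hb
    simpa [hgf] using ha
  · obtain ⟨a, ha, rfl⟩ := h.surj i b hb
    simp [hgf, hf.2.2]
  · obtain ⟨a', -, rfl⟩ := h.surj i a ha
    obtain ⟨b', -, rfl⟩ := h.surj j b hb
    rw [hgf, hgf, ← hf.2.1, one_mul]
    exact (h.tr_eq hA _).symm

variable [CharZero F]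

/-- If `V` in degree `i` is stable under `φ` and `u`, `W` in degree `2 m - i` is stable under `u`,
and the `m`-th trace pairs them perfectly, then `V` is monodromy-weight pure of weight `i`. -/
def GM.Good (A : GM F G) (q : ℕ) (φ u : G) (m : ℕ) : Prop :=
  ∀ (i : ℤ) (V W : Submodule F A.H), V ≤ A.gr i → W ≤ A.gr (2 * m - i) →
    (∀ v ∈ V, A.ρ φ v ∈ V ∧ A.ρ u v ∈ V) → (∀ w ∈ W, A.ρ u w ∈ W) →
    (∀ v ∈ V, (∀ w ∈ W, A.tr m (A.mul v w) = 0) → v = 0) →
    (∀ w ∈ W, (∀ v ∈ V, A.tr m (A.mul v w) = 0) → w = 0) → MwPure q i V (A.ρ φ) (A.ρ u)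

theorem GM.good_of_pure {χ : G →* Fˣ} {A : GM F G} {q : ℕ} {φ u : G} (hq : 0 < q) (wA : A.Wf χ)
    (h : ∀ i, MwPure q i (A.gr i) (A.ρ φ) (A.ρ u)) (m : ℕ) : A.Good q φ u m := by
  intro i V W hV _ sV sW hP1 hP2
  have hP : Perf (A.pair m) V W := ⟨hP1, hP2⟩
  have := wA.1
  let C : Submodule F A.H := ⨅ w ∈ W, LinearMap.ker ((A.pair m).flip w)
  have hC : ∀ b, b ∈ C ↔ ∀ w ∈ W, A.pair m b w = 0 := fun b => by simp [C]
  refine MwPure.of_summand (r := 0) hq V (A.gr i) C _ _ (A.ρ φ) (A.ρ u) LinearMap.id hV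
    (fun b _ => ?_) (fun v hv h1 => hP.1 v hv ((hC v).1 h1)) (fun b hb => ?_)
    ((wA.2.2 u).1 i) (by simp) (by simp) (fun v hv => (sV v hv).1) (fun v hv => (sV v hv).2)
    (by simpa using h i)
  · obtain ⟨v, hv, h1⟩ := hP.exists b
    exact ⟨v, hv, (hC _).2 h1⟩
  · refine (hC _).2 fun w hw => ?_
    have hi : Function.Injective ((A.ρ u).restrict sW) := fun x y hxy => by
      have h1 := congrArg (fun z : W => A.ρ u⁻¹ z) hxy
      simp only [LinearMap.coe_restrict_apply, ← Module.End.mul_apply, ← map_mul, inv_mul_cancel,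
        map_one, Module.End.one_apply] at h1
      exact Subtype.ext h1
    obtain ⟨w', hw'⟩ := LinearMap.surjective_of_injective hi ⟨w, hw⟩
    have h1 : w = A.ρ u w' := (congrArg Subtype.val hw').symm
    have h2 := (hC b).1 hb _ w'.2
    rw [GM.pair_apply] at h2
    rw [h1, GM.pair_apply, ← (wA.2.2 u).2.1, (wA.2.2 u).2.2, h2, mul_zero]

theorem GM.Emb.good {χ : G →* Fˣ} {A B : GM F G} {q m t : ℕ} {φ u : G} (hq : 0 < q)
    (hφ : (χ φ : F) = q) (hu : χ u = 1) (h : A.Emb χ B m t) (hB : B.Good q φ u (m + t + t)) :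
    A.Good q φ u m := by
  obtain ⟨α, κ, hκ, h1, h2, h3⟩ := h
  intro i V W hV hW sV sW hP1 hP2
  have st : ∀ (i : ℤ) (V : Submodule F A.H) (σ : G), V ≤ A.gr i → (∀ v ∈ V, A.ρ σ v ∈ V) →
      ∀ v ∈ V.map (α i), B.ρ σ v ∈ V.map (α i) := by
    rintro i V σ hV sV _ ⟨v, hv, rfl⟩
    rw [h2 i σ v (hV hv)]
    exact Submodule.smul_mem _ _ ⟨_, sV v hv, rfl⟩
  have hij : i + (2 * m - i) = 2 * m := by ring
  have hinj : ∀ v ∈ V, (∀ w ∈ W, B.tr (m + t + t) (B.mul (α i v) (α (2 * m - i) w)) = 0) →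
      v = 0 := by
    intro v hv h
    refine hP1 v hv fun w hw => ?_
    have := h w hw
    rw [h3 i _ hij v (hV hv) w (hW hw)] at this
    exact (mul_eq_zero.1 this).resolve_left hκ
  have s1 := st i V φ hV fun v hv => (sV v hv).1
  have s2 := st i V u hV fun v hv => (sV v hv).2
  have h4 := hB (i + 2 * t) (V.map (α i)) (W.map (α (2 * m - i)))
    (by rintro _ ⟨v, hv, rfl⟩; exact h1 i v (hV hv))
    (by
      rintro _ ⟨v, hv, rfl⟩
      convert h1 _ v (hW hv) using 2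
      push_cast; ring)
    (fun v hv => ⟨s1 v hv, s2 v hv⟩) (st _ W u hW sW)
    (by
      rintro _ ⟨v, hv, rfl⟩ h
      rw [hinj v hv fun w hw => h _ ⟨w, hw, rfl⟩, map_zero])
    (by
      rintro _ ⟨w, hw, rfl⟩ h
      have : w = 0 := hP2 w hw fun v hv => by
        have := h _ ⟨v, hv, rfl⟩
        rw [h3 i _ hij v (hV hv) w (hW hw)] at this
        exact (mul_eq_zero.1 this).resolve_left hκ
      rw [this, map_zero])
  refine MwPure.of_summand (r := t) hq V (V.map (α i)) ⊥ _ _ (B.ρ φ) (B.ρ u) (α i)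
    (fun v hv => ⟨v, hv, rfl⟩) ?_ (fun v hv h => hinj v hv fun w _ => ?_) (by simp)
    s2 (fun v hv => by rw [h2 i φ v (hV hv), hφ])
    (fun v hv => by rw [h2 i u v (hV hv), hu]; simp) (fun v hv => (sV v hv).1)
    (fun v hv => (sV v hv).2) h4
  · rintro _ ⟨v, hv, rfl⟩
    exact ⟨v, hv, by simp⟩
  · rw [Submodule.mem_bot] at h
    simp [h]

end Pool.Agent.MP_855f4c_ag.Aff
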