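import Pool.Agent.MP_855f4c_ag.Aff.LinAlg

/-! Finite direct sums of monodromy-weight pure modules. -/

namespace Pool.Agent.MP_855f4c_ag.Aff

open Polynomial

variable {F : Type} [Field F] {H : Type} [AddCommGroup H] [Module F H]

theorem unip_one {N : Module.End F H} {M : ℤ → Submodule F H} (mM : Monotone M)
    (hN : ∀ a, ∀ x ∈ M a, N x ∈ M (a - 2)) (k : ℕ) (a : ℤ) (x : H) (hx : x ∈ M a) :
    ((N + 1) ^ k - 1) x - (k : F) • N x ∈ M (a - 4) := by
  induction k with
  | zero => simp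
  | succ k ih =>
    have h1 : ((N + 1) ^ k - 1) x ∈ M (a - 2) := by
      have := add_mem (mM (show a - 4 ≤ a - 2 by omega) ih) ((M (a - 2)).smul_mem (k : F) (hN a x hx))
      simpa using this
    have h2 := hN _ _ h1
    rw [show a - 2 - 2 = a - 4 by ring] at h2
    convert add_mem h2 ih using 1
    simp only [pow_succ', Module.End.mul_apply, LinearMap.sub_apply, LinearMap.add_apply,
      Module.End.one_apply, map_sub, Nat.cast_add, Nat.cast_one, add_smul, one_smul]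
    abel

theorem unip_pow {N : Module.End F H} {M : ℤ → Submodule F H} (mM : Monotone M)
    (hN : ∀ a, ∀ x ∈ M a, N x ∈ M (a - 2)) (k : ℕ) :
    (∀ a, ∀ x ∈ M a, ((N + 1) ^ k - 1) x ∈ M (a - 2)) ∧ ∀ (r : ℕ) (a : ℤ), ∀ x ∈ M a,
      (((N + 1) ^ k - 1) ^ r) x - (k : F) ^ r • (N ^ r) x ∈ M (a - 2 * r - 2) := by
  have h0 : ∀ a, ∀ x ∈ M a, ((N + 1) ^ k - 1) x ∈ M (a - 2) := fun a x hx => by
    have := add_mem (mM (show a - 4 ≤ a - 2 by omega) (unip_one mM hN k a x hx))
      ((M (a - 2)).smul_mem (k : F) (hN a x hx))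
    simpa using this
  refine ⟨h0, fun r a x hx => ?_⟩
  induction r with
  | zero => simp
  | succ r ih =>
    have h1 := h0 _ _ ih
    have h2 := (M _).smul_mem ((k : F) ^ r) (unip_one mM hN k _ _ (shift_pow hN r a x hx))
    rw [show a - 2 * (r : ℤ) - 2 - 2 = a - 2 * ((r + 1 : ℕ) : ℤ) - 2 by push_cast; ring] at h1
    rw [show a - 2 * (r : ℤ) - 4 = a - 2 * ((r + 1 : ℕ) : ℤ) - 2 by push_cast; ring] at h2
    convert add_mem h1 h2 using 1
    generalize (N + 1) ^ k - 1 = N'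
    simp only [pow_succ', Module.End.mul_apply, map_sub, map_smul, smul_sub, smul_smul,
      mul_comm]
    abel

variable [CharZero F]

theorem MwPure.bot (q : ℕ) (i : ℤ) (φ u : Module.End F H) : MwPure q i ⊥ φ u :=
  ⟨1, one_pos, fun _ => ⊥, monotone_const, ⟨0, rfl⟩, ⟨0, fun _ _ => rfl⟩, by simp,
    fun r => ⟨fun _ h _ => h, by simp⟩, fun a => ⟨by simp, 1, one_ne_zero, by simp, by simp⟩⟩

theorem MwPure.pi {J : Type} [Fintype J] {q : ℕ} {i : ℤ} {V : J → Submodule F H}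
    {φ u : Module.End F H} (h : ∀ j, MwPure q i (V j) φ u) :
    MwPure q i (Submodule.pi Set.univ V) (φ.compLeft J) (u.compLeft J) := by
  classical
  choose m hm M mM hb ht nM lM pM using h
  choose b hb using hb
  choose t ht using ht
  have sM := fun j a => (pM j a).1
  choose P hP0 hP1 hP2 using fun j a => (pM j a).2
  have ev : ∀ (ψ : Module.End F H) (Q : F[X]) (x : J → H) (j : J),
      aeval (ψ.compLeft J : Module.End F (J → H)) Q x j = aeval ψ Q (x j) := fun ψ Q x j =>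
    (aeval_intertwine (φ := (ψ.compLeft J : Module.End F (J → H))) (ψ := ψ)
      (ι := LinearMap.proj j) (V := ⊤) (fun _ _ => trivial) (fun _ _ => rfl) Q x trivial).symm
  have evN : ∀ (n r : ℕ) (x : J → H) (j : J),
      ((((u.compLeft J : Module.End F (J → H)) ^ n - 1) ^ r) x) j = ((u ^ n - 1) ^ r) (x j) := by
    intro n r x j
    have := ev u ((X ^ n - 1) ^ r) x j
    rwa [map_pow, map_sub, map_pow, aeval_X, map_one, map_pow, map_sub, map_pow, aeval_X,
      map_one] at this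
  have hk : ∀ j, ∃ k : ℕ, k ≠ 0 ∧ u ^ (∏ j, m j) = (u ^ m j - 1 + 1) ^ k := fun j => by
    refine ⟨∏ l ∈ Finset.univ.erase j, m l, Finset.prod_ne_zero_iff.2 fun l _ => (hm l).ne', ?_⟩
    rw [sub_add_cancel, ← pow_mul, Finset.mul_prod_erase _ _ (Finset.mem_univ j)]
  choose k hk0 hk using hk
  have U := fun j => unip_pow (mM j) (nM j) (k j)
  simp only [← hk] at U
  have hkr : ∀ j (r : ℕ), (k j : F) ^ r ≠ 0 := fun j r =>
    pow_ne_zero _ (Nat.cast_ne_zero.2 (hk0 j))
  refine ⟨∏ j, m j, Finset.prod_pos fun j _ => hm j, fun a => Submodule.pi Set.univ fun j => M j a,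
    fun a a' h x hx j hj => mM j h (hx j hj), ⟨-(∑ j, (b j).natAbs : ℕ), ?_⟩,
    ⟨(∑ j, (t j).natAbs : ℕ), fun a ha => ?_⟩, fun a x hx j hj => ?_,
    fun r => ⟨fun x hx h1 j hj => ?_, fun w hw => ?_⟩,
    fun a => ⟨fun x hx j hj => sM j a _ (hx j hj), ∏ j, P j a,
      Finset.prod_ne_zero_iff.2 fun j _ => hP0 j a, fun z hz => ?_, fun x hx j hj => ?_⟩⟩
  · refine eq_bot_iff.2 fun x hx => funext fun j => ?_
    have h1 : (b j).natAbs ≤ ∑ j, (b j).natAbs :=
      Finset.single_le_sum (f := fun j => (b j).natAbs) (fun _ _ => Nat.zero_le _)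
        (Finset.mem_univ j)
    have h2 := mM j (show -((∑ j, (b j).natAbs : ℕ) : ℤ) ≤ b j by omega) (hx j trivial)
    rwa [hb j] at h2
  · refine congrArg (Submodule.pi Set.univ) (funext fun j => ht j a ?_)
    have h1 : (t j).natAbs ≤ ∑ j, (t j).natAbs :=
      Finset.single_le_sum (f := fun j => (t j).natAbs) (fun _ _ => Nat.zero_le _)
        (Finset.mem_univ j)
    omega
  · have h1 := evN (∏ j, m j) 1 x j
    rw [pow_one, pow_one] at h1
    rw [h1]
    exact (U j).1 a _ (hx j hj)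
  · refine (lM j r).1 _ (hx j hj) ?_
    have h2 := h1 j hj
    rw [evN] at h2
    have h3 := mM j (show (r : ℤ) - 2 * r - 2 ≤ -r - 1 by omega) ((U j).2 r r _ (hx j hj))
    have h4 := sub_mem h2 h3
    rw [sub_sub_cancel] at h4
    exact ((M j _).smul_mem_iff (hkr j r)).1 h4
  · choose v hv1 hv2 using fun j => (lM j r).2 (w j) (hw j trivial)
    refine ⟨fun j => ((k j : F) ^ r)⁻¹ • v j, fun j _ => (M j r).smul_mem _ (hv1 j),
      fun j _ => ?_⟩
    rw [Pi.sub_apply, evN]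
    have h3 := (M j _).smul_mem ((k j : F) ^ r)⁻¹
      (mM j (show (r : ℤ) - 2 * r - 2 ≤ -r - 1 by omega) ((U j).2 r r _ (hv1 j)))
    have h4 := sub_mem (hv2 j) h3
    rw [smul_sub, smul_smul, inv_mul_cancel₀ (hkr j r), one_smul, sub_sub, add_sub_cancel] at h4
    rw [map_smul]
    exact h4
  · rw [map_prod] at hz
    obtain ⟨j, -, hj⟩ := Finset.prod_eq_zero_iff.1 hz
    exact hP1 j a z hj
  · rw [ev, ← Finset.prod_erase_mul _ _ (Finset.mem_univ j), Polynomial.map_mul, map_mul,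
      Module.End.mul_apply]
    exact aeval_mem (sM j _) _ _ (hP2 j a _ (hx j hj))

theorem MwPure.of_sum {J : Type} [Fintype J] {q : ℕ} {i : ℤ} (hq : 0 < q) {V : Submodule F H}
    {W : J → Submodule F H} {φ u : Module.End F H} (p : J → Module.End F H)
    (h : ∀ j, MwPure q i (W j) φ u) (hW : ∀ j, W j ≤ V) (hp : ∀ j, ∀ v ∈ V, p j v ∈ W j)
    (hs : ∀ v ∈ V, ∑ j, p j v = v) (cφ : ∀ j v, φ (p j v) = p j (φ v))
    (cu : ∀ j v, u (p j v) = p j (u v)) (sφ : ∀ v ∈ V, φ v ∈ V) (su : ∀ v ∈ V, u v ∈ V)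
    (sW : ∀ j, ∀ v ∈ W j, u v ∈ W j) : MwPure q i V φ u := by
  let S : (J → H) →ₗ[F] H := ∑ j, LinearMap.proj j
  have hS : ∀ x, S x = ∑ j, x j := fun x => by simp [S]
  refine MwPure.of_summand (r := 0) hq V (Submodule.pi Set.univ W) (LinearMap.ker S) φ u
    (φ.compLeft J) (u.compLeft J) (LinearMap.pi p) (fun v hv j _ => hp j v hv) (fun b hb => ?_)
    (fun v hv h1 => ?_) (fun b hb => ?_) (fun b hb j hj => sW j _ (hb j hj))
    (fun v _ => funext fun j => by simpa using cφ j v) (fun v _ => funext fun j => cu j v) sφ su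
    (by simpa using MwPure.pi h)
  · have h1 : ∑ j, b j ∈ V := V.sum_mem fun j _ => hW j (hb j trivial)
    refine ⟨_, h1, ?_⟩
    rw [LinearMap.mem_ker, map_sub, hS, hS, sub_eq_zero]
    exact (hs _ h1).symm
  · rw [LinearMap.mem_ker, hS] at h1
    exact (hs v hv).symm.trans h1
  · rw [LinearMap.mem_ker, hS] at hb ⊢
    have := congrArg u hb
    rwa [map_sum, map_zero] at this

end Pool.Agent.MP_855f4c_ag.Aff
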