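import Pool.Agent.MP_855f4c_ag.Aff.Good
import Pool.Agent.MP_855f4c_ag.Aff.Sum

/-! Finite groups of automorphisms: the non-invariant part. -/

namespace Pool.Agent.MP_855f4c_ag.Aff

variable {F G : Type} [Field F] [Group G]

/-- The product twisted by `1 - s` in both variables. -/
def GM.tw (A : GM F G) (s : Module.End F A.H) : GM F G :=
  { A with mul := A.mul.compl₁₂ (1 - s) (1 - s) }

variable [CharZero F]

theorem nondeg_tw {H : Type} [AddCommGroup H] [Module F H] [Module.Finite F H]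
    (B : H →ₗ[F] H →ₗ[F] F) (s : Module.End F H) (r : ℕ) (hr : 0 < r) (hs : s ^ r = 1)
    (inv : ∀ x y, B (s x) (s y) = B x y) (U U' : Submodule F H) (sU : ∀ x ∈ U, s x ∈ U)
    (sU' : ∀ x ∈ U', s x ∈ U') (nd : ∀ a ∈ U, a ≠ 0 → ∃ b ∈ U', B a b ≠ 0) :
    ∀ a ∈ U.map (s - 1), (∀ w ∈ U'.map (s - 1), B ((1 - s) a) ((1 - s) w) = 0) → a = 0 := by
  have hrF : (r : F) ≠ 0 := Nat.cast_ne_zero.2 hr.ne'
  set T : Module.End F H := ∑ k ∈ Finset.range r, s ^ k with hT
  have T1 : ∀ x, T ((s - 1) x) = 0 := fun x => by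
    rw [← Module.End.mul_apply, hT, geom_sum_mul, hs, sub_self, LinearMap.zero_apply]
  have T2 : ∀ x, s (T x) = T x := fun x => by
    have : (s - 1) (T x) = 0 := by
      rw [← Module.End.mul_apply, hT, mul_geom_sum, hs, sub_self, LinearMap.zero_apply]
    exact sub_eq_zero.1 this
  have inj : ∀ x, (1 - s) ((s - 1) x) = 0 → (s - 1) x = 0 := fun x h => by
    have h1 : s ((s - 1) x) = (s - 1) x := (sub_eq_zero.1 h).symm
    have h2 : ∀ k : ℕ, (s ^ k) ((s - 1) x) = (s - 1) x := fun k => by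
      induction k with
      | zero => rfl
      | succ k ih => rw [pow_succ, Module.End.mul_apply, h1, ih]
    have h3 := T1 x
    rw [hT, LinearMap.sum_apply, Finset.sum_congr rfl fun k _ => h2 k, Finset.sum_const,
      Finset.card_range, ← Nat.cast_smul_eq_nsmul F] at h3
    exact (smul_eq_zero.1 h3).resolve_left hrF
  have st : ∀ W : Submodule F H, (∀ x ∈ W, s x ∈ W) →
      ∀ x ∈ W.map (s - 1), (1 - s) x ∈ W.map (s - 1) := by
    rintro W hW _ ⟨x, hx, rfl⟩
    exact ⟨(1 - s) x, sub_mem hx (hW x hx), by simp; abel⟩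
  have sur : ∀ w ∈ U'.map (s - 1), ∃ w' ∈ U'.map (s - 1), (1 - s) w' = w := by
    intro w hw
    have hi : Function.Injective ((1 - s).restrict (st U' sU')) := by
      rw [injective_iff_map_eq_zero]
      rintro ⟨_, x, hx, rfl⟩ h
      exact Subtype.ext (inj x (congrArg Subtype.val h))
    obtain ⟨w', hw'⟩ := LinearMap.surjective_of_injective hi ⟨w, hw⟩
    exact ⟨w', w'.2, congrArg Subtype.val hw'⟩
  have tel : ∀ b ∈ U', ∀ k : ℕ, (s ^ k) b ∈ U' ∧ (s ^ k) b - b ∈ U'.map (s - 1) := by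
    intro b hb k
    induction k with
    | zero => simpa using hb
    | succ k ih =>
      rw [pow_succ', Module.End.mul_apply]
      refine ⟨sU' _ ih.1, ?_⟩
      have := add_mem (Submodule.mem_map_of_mem (f := s - 1) ih.1) ih.2
      simpa using this
  rintro _ ⟨x, hx, rfl⟩ h
  refine inj x (by_contra fun hne => ?_)
  obtain ⟨y, hy, e⟩ := st U sU _ ⟨x, hx, rfl⟩
  rw [← e] at hne h
  obtain ⟨b, hb, h1⟩ := nd _ (sub_mem (sU y hy) hy) hne
  have h2 : B ((s - 1) y) (T b - (r : F) • b) = 0 := by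
    have h3 : T b - (r : F) • b ∈ U'.map (s - 1) := by
      have := Submodule.sum_mem _ fun k (_ : k ∈ Finset.range r) => (tel b hb k).2
      rwa [Finset.sum_sub_distrib, Finset.sum_const, Finset.card_range,
        ← Nat.cast_smul_eq_nsmul F, ← LinearMap.sum_apply] at this
    obtain ⟨w', hw', e'⟩ := sur _ h3
    rw [← e']
    exact h w' hw'
  have h3 : B ((s - 1) y) (T b) = 0 := by
    rw [LinearMap.sub_apply, map_sub, LinearMap.sub_apply, Module.End.one_apply, sub_eq_zero]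
    conv_lhs => rw [← T2, inv]
  rw [map_sub, h3, map_smul, zero_sub, neg_eq_zero, smul_eq_mul] at h2
  exact h1 ((mul_eq_zero.1 h2).resolve_left hrF)

theorem refl_pure {χ : G →* Fˣ} {A : GM F G} {q n : ℕ} {φ u : G} (wA : A.Wf χ)
    (dua : ∀ i, ∀ a ∈ A.gr i, a ≠ 0 → (∃ b ∈ A.gr (2 * n - i), A.tr n (A.mul a b) ≠ 0) ∧
      ∃ b ∈ A.gr (2 * n - i), A.tr n (A.mul b a) ≠ 0)
    {s : Module.End F A.H} (hs : A.Hom A s) (ht : ∀ a, A.tr n (s a) = A.tr n a) (r : ℕ)
    (hr : 0 < r) (h1 : s ^ r = 1) (hg : (A.tw s).Good q φ u n) (i : ℤ) :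
    MwPure q i ((A.gr i).map (s - 1)) (A.ρ φ) (A.ρ u) := by
  have := wA.1
  have le : ∀ i, (A.gr i).map (s - 1) ≤ A.gr i := by
    rintro i _ ⟨x, hx, rfl⟩
    exact sub_mem (hs.1 i x hx) hx
  have st : ∀ i σ, ∀ v ∈ (A.gr i).map (s - 1), A.ρ σ v ∈ (A.gr i).map (s - 1) := by
    rintro i σ _ ⟨x, hx, rfl⟩
    exact ⟨A.ρ σ x, (wA.2.2 σ).1 i x hx, by simp [hs.2.2]⟩
  have inv : ∀ x y, A.pair n (s x) (s y) = A.pair n x y := fun x y => by
    rw [GM.pair_apply, ← hs.2.1, ht, GM.pair_apply]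
  refine hg i _ ((A.gr (2 * n - i)).map (s - 1)) (le i) (le _)
    (fun v hv => ⟨st i φ v hv, st i u v hv⟩) (st _ u)
    (nondeg_tw (A.pair n) s r hr h1 inv _ _ (hs.1 _) (hs.1 _) fun a ha h => (dua i a ha h).1)
    (nondeg_tw (A.pair n).flip s r hr h1 (fun x y => inv y x) _ _ (hs.1 _) (hs.1 _)
      fun a ha h => ?_)
  have h2 := (dua _ a ha h).2
  rwa [sub_sub_cancel] at h2

theorem group_pure {χ : G →* Fˣ} {A : GM F G} {q : ℕ} {φ u : G} (hq : 0 < q) (wA : A.Wf χ)
    {Γ : Type} [Group Γ] [Finite Γ] (s : Γ →* Module.End F A.H) (S : Set Γ)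
    (hS : Subgroup.closure S = ⊤) (hom : ∀ g ∈ S, A.Hom A (s g)) (i : ℤ)
    (pure : ∀ g ∈ S, MwPure q i ((A.gr i).map (s g - 1)) (A.ρ φ) (A.ρ u)) :
    MwPure q i (⨆ g, (A.gr i).map (s g - 1)) (A.ρ φ) (A.ρ u) ∧
      (MwPure q i (A.gr i ⊓ ⨅ g, LinearMap.ker (s g - 1)) (A.ρ φ) (A.ρ u) →
        MwPure q i (A.gr i) (A.ρ φ) (A.ρ u)) := by
  classical
  have := Fintype.ofFinite Γ
  have := Fintype.ofFinite S
  let E : Subalgebra F (Module.End F A.H) :=
    { carrier := {a | (∀ v ∈ A.gr i, a v ∈ A.gr i) ∧ ∀ σ v, A.ρ σ (a v) = a (A.ρ σ v)}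
      mul_mem' := fun ha hb => ⟨fun v hv => ha.1 _ (hb.1 v hv), fun σ v => by
        rw [Module.End.mul_apply, ha.2, hb.2, Module.End.mul_apply]⟩
      add_mem' := fun ha hb => ⟨fun v hv => add_mem (ha.1 v hv) (hb.1 v hv), fun σ v => by
        simp [ha.2, hb.2]⟩
      algebraMap_mem' := fun c => ⟨fun v hv => (A.gr i).smul_mem c hv, fun σ v => by simp⟩ }
  have key : ∀ g, s g ∈ E ∧ ∃ a : S → Module.End F A.H, (∀ j, a j ∈ E) ∧
      s g - 1 = ∑ j : S, (s j - 1) * a j := by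
    intro g
    have hg : g ∈ Submonoid.closure S := by
      rw [← Subgroup.closure_toSubmonoid_of_finite, hS]
      trivial
    induction hg using Submonoid.closure_induction_left with
    | one => exact ⟨by rw [map_one]; exact one_mem _, 0, fun _ => zero_mem _, by simp⟩
    | mul_left x hx y _ ih =>
      obtain ⟨h1, a, h2, h3⟩ := ih
      refine ⟨?_, a + Pi.single ⟨x, hx⟩ (s y), fun j => add_mem (h2 j) ?_, ?_⟩
      · rw [map_mul]
        exact mul_mem (show s x ∈ E from ⟨(hom x hx).1 i, (hom x hx).2.2⟩) h1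
      · rw [Pi.single_apply]
        split_ifs
        · exact h1
        · exact zero_mem _
      · simp only [Pi.add_apply, mul_add, Finset.sum_add_distrib, ← h3]
        rw [Finset.sum_eq_single ⟨x, hx⟩ (fun j _ hj => by simp [hj]) (by simp), Pi.single_eq_same,
          map_mul, sub_mul, one_mul]
        abel
  choose hE a ha1 ha2 using key
  have hc : (Fintype.card Γ : F) ≠ 0 := Nat.cast_ne_zero.2 Fintype.card_ne_zero
  set av : Module.End F A.H := (Fintype.card Γ : F)⁻¹ • ∑ g, s g with hav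
  have avE : av ∈ E := E.smul_mem (E.sum_mem fun g _ => hE g) _
  have av1 : ∀ g, av * s g = av := fun g => by
    rw [hav, smul_mul_assoc, Finset.sum_mul]
    simp only [← map_mul]
    rw [Fintype.sum_equiv (Equiv.mulRight g) (fun x => s (x * g)) s fun _ => rfl]
  have av2 : ∀ g, s g * av = av := fun g => by
    rw [hav, mul_smul_comm, Finset.mul_sum]
    simp only [← map_mul]
    rw [Fintype.sum_equiv (Equiv.mulLeft g) (fun x => s (g * x)) s fun _ => rfl]
  let b : S → Module.End F A.H := fun j => -((Fintype.card Γ : F)⁻¹ • ∑ g, a g j)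
  have bE : ∀ j, b j ∈ E := fun j => neg_mem (E.smul_mem (E.sum_mem fun g _ => ha1 g j) _)
  have hb : ∑ j : S, (s j - 1) * b j = 1 - av := by
    simp only [b, mul_neg, mul_smul_comm, Finset.mul_sum, Finset.sum_neg_distrib,
      ← Finset.smul_sum]
    rw [Finset.sum_comm, Finset.sum_congr rfl fun g _ => (ha2 g).symm, Finset.sum_sub_distrib,
      smul_sub, Finset.sum_const, Finset.card_univ, ← Nat.cast_smul_eq_nsmul F, smul_smul,
      inv_mul_cancel₀ hc, one_smul, neg_sub]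
  have E1 : ∀ g, s g - 1 ∈ E := fun g => sub_mem (hE g) (one_mem _)
  set V := ⨆ g, (A.gr i).map (s g - 1) with hV
  have le : V ≤ A.gr i := iSup_le fun g => by
    rintro _ ⟨x, hx, rfl⟩
    exact (E1 g).1 x hx
  have st : ∀ g σ, ∀ v ∈ (A.gr i).map (s g - 1), A.ρ σ v ∈ (A.gr i).map (s g - 1) := by
    rintro g σ _ ⟨x, hx, rfl⟩
    exact ⟨A.ρ σ x, (wA.2.2 σ).1 i x hx, ((E1 g).2 σ x).symm⟩
  have sV : ∀ σ, ∀ v ∈ V, A.ρ σ v ∈ V := fun σ =>
    show V ≤ V.comap (A.ρ σ) from iSup_le fun g v hv =>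
      le_iSup (fun g => (A.gr i).map (s g - 1)) g (st g σ v hv)
  have avV : ∀ v ∈ V, av v = 0 :=
    show V ≤ LinearMap.ker av from iSup_le fun g => by
      rintro _ ⟨x, -, rfl⟩
      rw [LinearMap.mem_ker, ← Module.End.mul_apply, mul_sub, av1, mul_one, sub_self,
        LinearMap.zero_apply]
  have pV : MwPure q i V (A.ρ φ) (A.ρ u) := by
    refine MwPure.of_sum hq (W := fun j : S => (A.gr i).map (s j - 1))
      (fun j => (s j - 1) * b j) (fun j => pure j j.2)
      (fun j => le_iSup (fun g => (A.gr i).map (s g - 1)) j)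
      (fun j v hv => ⟨_, (bE j).1 v (le hv), rfl⟩) (fun v hv => ?_)
      (fun j => (mul_mem (E1 j) (bE j)).2 φ) (fun j => (mul_mem (E1 j) (bE j)).2 u) (sV φ) (sV u)
      fun j => st j u
    rw [← LinearMap.sum_apply, hb, LinearMap.sub_apply, avV v hv, sub_zero, Module.End.one_apply]
  refine ⟨pV, fun pI => ?_⟩
  refine MwPure.of_sum hq
    (W := fun x : Bool => if x then V else A.gr i ⊓ ⨅ g, LinearMap.ker (s g - 1))
    (fun x => if x then 1 - av else av) ?_ ?_ ?_ (fun v _ => by simp) ?_ ?_ ((wA.2.2 φ).1 i)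
    ((wA.2.2 u).1 i) ?_
  · rintro (_ | _)
    · exact pI
    · exact pV
  · rintro (_ | _)
    · exact inf_le_left
    · exact le
  · rintro (_ | _) v hv
    · refine ⟨avE.1 v hv, (Submodule.mem_iInf _).2 fun g => ?_⟩
      change ((s g - 1) * av) v = 0
      rw [sub_mul, av2, one_mul, sub_self, LinearMap.zero_apply]
    · change (1 - av) v ∈ V
      rw [← hb, LinearMap.sum_apply]
      exact V.sum_mem fun j _ => le_iSup (fun g => (A.gr i).map (s g - 1)) j
        ⟨_, (bE j).1 v hv, rfl⟩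
  · rintro (_ | _)
    · exact avE.2 φ
    · exact (sub_mem (one_mem E) avE).2 φ
  · rintro (_ | _)
    · exact avE.2 u
    · exact (sub_mem (one_mem E) avE).2 u
  · rintro (_ | _) v hv
    · refine ⟨(wA.2.2 u).1 i v hv.1, (Submodule.mem_iInf _).2 fun g => ?_⟩
      rw [LinearMap.mem_ker, ← (E1 g).2, (Submodule.mem_iInf _).1 hv.2 g, map_zero]
    · exact sV u v hv

end Pool.Agent.MP_855f4c_ag.Aff
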