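import Pool.Agent.MP_855f4c_ag.Aff.Bund

/-! Evaluation of multihomogeneous polynomials, closed and locally closed sets. -/

namespace Pool.Agent.MP_855f4c_ag.Aff

open MvPolynomial

variable {K : Type} [Field K] {ι κ μ : Type} {d : ι → ℕ}

/-- Evaluation at a point as an algebra map. -/
noncomputable def evA (p : Amb K d) : Pol K d →ₐ[K] AlgebraicClosure K :=
  aeval fun v => (p v.1).rep v.2

theorem ev_eq (f : Pol K d) (p : Amb K d) : ev f p = evA p f := rfl

@[simp] theorem ev_add (f g : Pol K d) (p : Amb K d) : ev (f + g) p = ev f p + ev g p :=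
  map_add (evA p) f g

@[simp] theorem ev_sub (f g : Pol K d) (p : Amb K d) : ev (f - g) p = ev f p - ev g p :=
  map_sub (evA p) f g

@[simp] theorem ev_neg (f : Pol K d) (p : Amb K d) : ev (-f) p = -ev f p := map_neg (evA p) f

@[simp] theorem ev_mul (f g : Pol K d) (p : Amb K d) : ev (f * g) p = ev f p * ev g p :=
  map_mul (evA p) f g

@[simp] theorem ev_pow (f : Pol K d) (n : ℕ) (p : Amb K d) : ev (f ^ n) p = ev f p ^ n :=
  map_pow (evA p) f n

@[simp] theorem ev_zero (p : Amb K d) : ev (0 : Pol K d) p = 0 := map_zero (evA p)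

@[simp] theorem ev_one (p : Amb K d) : ev (1 : Pol K d) p = 1 := map_one (evA p)

@[simp] theorem ev_X (v : Σ k, Fin (d k)) (p : Amb K d) : ev (X v) p = (p v.1).rep v.2 :=
  aeval_X _ v

@[simp] theorem ev_sum {α : Type} (s : Finset α) (f : α → Pol K d) (p : Amb K d) :
    ev (∑ a ∈ s, f a) p = ∑ a ∈ s, ev (f a) p := map_sum (evA p) f s

@[simp] theorem ev_prod {α : Type} (s : Finset α) (f : α → Pol K d) (p : Amb K d) :
    ev (∏ a ∈ s, f a) p = ∏ a ∈ s, ev (f a) p := map_prod (evA p) f s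

theorem ev_det {α : Type} [Fintype α] [DecidableEq α] (M : Matrix α α (Pol K d)) (p : Amb K d) :
    ev M.det p = (M.map fun f => ev f p).det :=
  (evA p).toRingHom.map_det M

theorem MH.X (v : Σ k, Fin (d k)) : MH (X v : Pol K d) (Finsupp.single v.1 1) :=
  isWeightedHomogeneous_X _ _ v

theorem MH.zero (δ : ι →₀ ℕ) : MH (0 : Pol K d) δ := isWeightedHomogeneous_zero _ _ δ

theorem MH.one : MH (1 : Pol K d) 0 := isWeightedHomogeneous_one _ _

theorem MH.C (a : K) : MH (C a : Pol K d) 0 := isWeightedHomogeneous_C _ a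

theorem MH.add {f g : Pol K d} {δ : ι →₀ ℕ} (hf : MH f δ) (hg : MH g δ) : MH (f + g) δ :=
  IsWeightedHomogeneous.add hf hg

theorem MH.sub {f g : Pol K d} {δ : ι →₀ ℕ} (hf : MH f δ) (hg : MH g δ) : MH (f - g) δ :=
  IsWeightedHomogeneous.sub hf hg

theorem MH.neg {f : Pol K d} {δ : ι →₀ ℕ} (hf : MH f δ) : MH (-f) δ :=
  IsWeightedHomogeneous.neg hf

theorem MH.mul {f g : Pol K d} {δ η : ι →₀ ℕ} (hf : MH f δ) (hg : MH g η) :
    MH (f * g) (δ + η) := IsWeightedHomogeneous.mul hf hg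

theorem MH.pow {f : Pol K d} {δ : ι →₀ ℕ} (hf : MH f δ) (n : ℕ) : MH (f ^ n) (n • δ) :=
  IsWeightedHomogeneous.pow hf n

theorem MH.sum {α : Type} (s : Finset α) {f : α → Pol K d} {δ : ι →₀ ℕ}
    (h : ∀ a ∈ s, MH (f a) δ) : MH (∑ a ∈ s, f a) δ := IsWeightedHomogeneous.sum s f δ h

theorem MH.prod {α : Type} (s : Finset α) {f : α → Pol K d} {δ : α → ι →₀ ℕ}
    (h : ∀ a ∈ s, MH (f a) (δ a)) : MH (∏ a ∈ s, f a) (∑ a ∈ s, δ a) :=
  IsWeightedHomogeneous.prod s f δ h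

theorem MH.of_eq {f : Pol K d} {δ η : ι →₀ ℕ} (hf : MH f δ) (h : δ = η) : MH f η := h ▸ hf

theorem MH.pderiv {f : Pol K d} {δ η : ι →₀ ℕ} (hf : MH f δ) (v : Σ k, Fin (d k))
    (h : η + Finsupp.single v.1 1 = δ) : MH (MvPolynomial.pderiv v f) η := by
  intro s hs
  rw [coeff_pderiv] at hs
  have h1 := hf (left_ne_zero_of_mul hs)
  rw [map_add, Finsupp.weight_single, one_smul, ← h] at h1
  exact add_right_cancel h1

theorem MH.det {α : Type} [Fintype α] [DecidableEq α] {M : Matrix α α (Pol K d)}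
    {δ η : α → ι →₀ ℕ} (h : ∀ a b, MH (M a b) (δ a + η b)) :
    MH M.det (∑ a, δ a + ∑ b, η b) := by
  rw [Matrix.det_apply']
  refine MH.sum _ fun σ _ => ?_
  have h1 : MH (∏ i, M (σ i) i) (∑ i, (δ (σ i) + η i)) :=
    MH.prod (f := fun i => M (σ i) i) (δ := fun i => δ (σ i) + η i) Finset.univ fun i _ => h _ _
  have h2 : MH (((Equiv.Perm.sign σ : ℤ) : Pol K d)) 0 := by
    have h3 := MH.C (d := d) (((Equiv.Perm.sign σ : ℤ) : K))
    rwa [map_intCast] at h3
  have h4 : (0 : ι →₀ ℕ) + ∑ i, (δ (σ i) + η i) = ∑ a, δ a + ∑ b, η b := by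
    rw [zero_add, Finset.sum_add_distrib, Equiv.sum_comp σ δ]
  exact (h2.mul h1).of_eq h4

/-- Scaling the blocks of variables scales the value of a multihomogeneous polynomial. -/
theorem MH.scale {R : Type} [CommRing R] [Algebra K R] {f : Pol K d} {δ : ι →₀ ℕ} (hf : MH f δ)
    (a : ι → R) (x : (Σ k, Fin (d k)) → R) :
    aeval (fun v => a v.1 * x v) f = (δ.prod fun k n => a k ^ n) * aeval x f := by
  classical
  conv_lhs => rw [f.as_sum]
  conv_rhs => rw [f.as_sum]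
  rw [map_sum, map_sum, Finset.mul_sum]
  refine Finset.sum_congr rfl fun s hs => ?_
  have hw := hf (mem_support_iff.1 hs)
  rw [aeval_monomial, aeval_monomial, ← hw, Finsupp.weight_apply]
  have : ((s.sum fun v n => n • Finsupp.single v.1 1 : ι →₀ ℕ).prod fun k n => a k ^ n) =
      s.prod fun v n => a v.1 ^ n := by
    rw [Finsupp.sum, ← Finsupp.prod_finsetSum_index (by simp) (by simp [pow_add])]
    refine Finset.prod_congr rfl fun v _ => ?_
    rw [Finsupp.smul_single, Finsupp.prod_single_index (by simp)]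
    simp
  rw [this]
  simp only [Finsupp.prod, mul_pow, Finset.prod_mul_distrib]
  ring

/-- Pull-back of polynomials along a map of index sets. -/
noncomputable def ren (u : κ → ι) : Pol K (fun j => d (u j)) →ₐ[K] Pol K d :=
  rename fun v => ⟨u v.1, v.2⟩

@[simp] theorem ev_ren (u : κ → ι) (f : Pol K fun j => d (u j)) (p : Amb K d) :
    ev (ren u f) p = ev f (re u p) := by
  unfold ev ren
  rw [aeval_rename]
  rfl

theorem MH.ren (u : κ → ι) {f : Pol K fun j => d (u j)} {δ : κ →₀ ℕ} (hf : MH f δ) :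
    MH (ren u f) (δ.mapDomain u) := by
  classical
  conv => enter [1]; rw [f.as_sum, map_sum]
  refine MH.sum _ fun s hs => ?_
  have hw := hf (mem_support_iff.1 hs)
  unfold Aff.ren
  rw [rename_monomial]
  refine isWeightedHomogeneous_monomial _ _ _ ?_
  rw [← hw, Finsupp.weight_apply, Finsupp.weight_apply,
    Finsupp.sum_mapDomain_index (by simp) (by simp [add_smul]), Finsupp.sum, Finsupp.sum,
    Finsupp.mapDomain_finsetSum]
  refine Finset.sum_congr rfl fun v _ => ?_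
  rw [Finsupp.mapDomain_smul, Finsupp.mapDomain_single]

theorem closed_of {α : Type} (P : α → Prop) (g : α → Pol K d) (hg : ∀ a, P a → ∃ δ, MH (g a) δ) :
    Closed {p | ∀ a, P a → ev (g a) p = 0} := by
  refine ⟨g '' {a | P a}, ?_, ?_⟩
  · rintro _ ⟨a, ha, rfl⟩
    exact hg a ha
  · ext p
    simp

theorem closed_zer (g : κ → Pol K d) (hg : ∀ j, ∃ δ, MH (g j) δ) : Closed (zer g) := by
  have := closed_of (fun _ => True) g fun a _ => hg a
  simpa [zer] using this

theorem closed_one {f : Pol K d} {δ : ι →₀ ℕ} (hf : MH f δ) : Closed {p | ev f p = 0} := by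
  have := closed_zer (fun _ : Unit => f) fun _ => ⟨δ, hf⟩
  simpa [zer] using this

theorem closed_univ : Closed (Set.univ : Set (Amb K d)) := ⟨∅, by simp, by simp⟩

theorem closed_empty : Closed (∅ : Set (Amb K d)) := by
  have := closed_one (d := d) (K := K) MH.one
  simpa using this

theorem closed_iInter {α : Type} {Z : α → Set (Amb K d)} (h : ∀ a, Closed (Z a)) :
    Closed (⋂ a, Z a) := by
  choose T hT hZ using h
  refine ⟨⋃ a, T a, ?_, ?_⟩
  · intro f hf
    obtain ⟨a, ha⟩ := Set.mem_iUnion.1 hf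
    exact hT a f ha
  · ext p
    simp only [Set.mem_iInter, Set.mem_iUnion, Set.mem_ofPred_eq, hZ]
    exact ⟨fun h f ⟨a, ha⟩ => h a f ha, fun h a f ha => h f ⟨a, ha⟩⟩

theorem Closed.inter {Y Z : Set (Amb K d)} (hY : Closed Y) (hZ : Closed Z) : Closed (Y ∩ Z) := by
  obtain ⟨S, hS, rfl⟩ := hY
  obtain ⟨T, hT, rfl⟩ := hZ
  refine ⟨S ∪ T, fun f hf => hf.elim (hS f) (hT f), ?_⟩
  ext p
  simp [or_imp, forall_and]

theorem Closed.union {Y Z : Set (Amb K d)} (hY : Closed Y) (hZ : Closed Z) : Closed (Y ∪ Z) := by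
  obtain ⟨S, hS, rfl⟩ := hY
  obtain ⟨T, hT, rfl⟩ := hZ
  refine ⟨Set.image2 (· * ·) S T, ?_, ?_⟩
  · rintro _ ⟨f, hf, g, hg, rfl⟩
    obtain ⟨δ, h1⟩ := hS f hf
    obtain ⟨η, h2⟩ := hT g hg
    exact ⟨_, h1.mul h2⟩
  · ext p
    simp only [Set.mem_union, Set.mem_ofPred_eq, Set.forall_mem_image2, ev_mul, mul_eq_zero]
    constructor
    · rintro (h | h) f hf g hg
      · exact Or.inl (h f hf)
      · exact Or.inr (h g hg)
    · intro h
      by_contra hn
      push Not at hn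
      obtain ⟨⟨f, hf, h1⟩, g, hg, h2⟩ := hn
      exact (h f hf g hg).elim h1 h2

theorem Closed.preimage (u : κ → ι) {Z : Set (Amb K fun j => d (u j))} (hZ : Closed Z) :
    Closed (re u ⁻¹' Z) := by
  obtain ⟨T, hT, rfl⟩ := hZ
  refine ⟨ren u '' T, ?_, ?_⟩
  · rintro _ ⟨f, hf, rfl⟩
    obtain ⟨δ, h⟩ := hT f hf
    exact ⟨_, h.ren u⟩
  · ext p
    simp

theorem Closed.lc [Finite ι] {Z : Set (Amb K d)} (hZ : Closed Z) : LC Z :=
  ⟨‹_›, Z, ∅, hZ, closed_empty, by simp⟩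

theorem LC.inter_closed {S Z : Set (Amb K d)} (hS : LC S) (hZ : Closed Z) : LC (S ∩ Z) := by
  obtain ⟨hf, Y, Y', h1, h2, rfl⟩ := hS
  exact ⟨hf, Y ∩ Z, Y', h1.inter hZ, h2, by ext p; simp; tauto⟩

theorem LC.diff {S Z : Set (Amb K d)} (hS : LC S) (hZ : Closed Z) : LC (S \ Z) := by
  obtain ⟨hf, Y, Y', h1, h2, rfl⟩ := hS
  exact ⟨hf, Y, Y' ∪ Z, h1, h2.union hZ, by ext p; simp; tauto⟩

theorem LC.preimage [Finite ι] (u : κ → ι) {T : Set (Amb K fun j => d (u j))} (hT : LC T) :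
    LC (re u ⁻¹' T) := by
  obtain ⟨-, Y, Y', h1, h2, rfl⟩ := hT
  exact ⟨‹_›, _, _, h1.preimage u, h2.preimage u, rfl⟩

theorem proper_of [Finite ι] (u : κ → ι) {S Z : Set (Amb K d)}
    {T : Set (Amb K fun j => d (u j))} (hT : LC T) (hZ : Closed Z) (h : S = Z ∩ re u ⁻¹' T) :
    Proper u S T :=
  ⟨by rw [h, Set.inter_comm]; exact (hT.preimage u).inter_closed hZ, hT, Z, hZ, h⟩

theorem proper_inter {T Z : Set (Amb K d)} (hT : LC T) (hZ : Closed Z) :
    Proper (fun k => k) (T ∩ Z) T :=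
  ⟨hT.inter_closed hZ, hT, Z, hZ, Set.inter_comm _ _⟩

end Pool.Agent.MP_855f4c_ag.Aff
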