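import Pool.Agent.MP_855f4c_ag.Aff.Bund

/-! The class `θ`: compactly supported cohomology of the base embeds into that of the complement
of the incidence divisor in `P(M) × P(M^*)`, scaling the pairing by `± rank`. -/

namespace Pool.Agent.MP_855f4c_ag.Aff

variable {F G : Type} [Field F] [Group G]

theorem GM.Free.top {A B : GM F G} {f : A.H →ₗ[F] B.H} {x : Module.End F B.H} {s m : ℕ}
    (h : A.Free B f x (s + 1)) (hA : A.Top m) : B.Top (m + s) := by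
  intro j hj
  refine (Submodule.eq_bot_iff _).2 fun b hb => ?_
  obtain ⟨a, h1, rfl⟩ := h.2.1 j b hb
  refine Finset.sum_eq_zero fun k _ => ?_
  have h2 := h1 k
  have h3 := k.2
  rw [hA _ (by push_cast at hj; omega), Submodule.mem_bot] at h2
  rw [h2, map_zero, map_zero]

theorem step_gr {χ : G →* Fˣ} {A : GM F G} {x : Module.End F A.H} (h : A.Op χ x) (k : ℕ)
    {i : ℤ} {a : A.H} (ha : a ∈ A.gr i) : (x ^ k) a ∈ A.gr (i + 2 * k) := by
  induction k with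
  | zero => simpa using ha
  | succ k ih =>
    have := h.1 _ _ ih
    rwa [← Module.End.mul_apply, ← pow_succ', add_assoc,
      show (2 * k + 2 : ℤ) = 2 * (k + 1 : ℕ) by push_cast; ring] at this

theorem step_rho {χ : G →* Fˣ} {A : GM F G} {x : Module.End F A.H} (h : A.Op χ x) (k : ℕ)
    (σ : G) (a : A.H) : A.ρ σ ((x ^ k) a) = (χ σ : F) ^ k • (x ^ k) (A.ρ σ a) := by
  induction k with
  | zero => simp
  | succ k ih =>
    rw [pow_succ', Module.End.mul_apply, h.2.1, ih, map_smul, smul_smul, Module.End.mul_apply,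
      pow_succ']

theorem step_left {χ : G →* Fˣ} {A : GM F G} {x : Module.End F A.H} (h : A.Op χ x) (k : ℕ)
    (a b : A.H) : A.mul ((x ^ k) a) b = (x ^ k) (A.mul a b) := by
  induction k with
  | zero => simp
  | succ k ih => rw [pow_succ', Module.End.mul_apply, (h.2.2 _ _).1, ih, Module.End.mul_apply]

theorem step_right {χ : G →* Fˣ} {A : GM F G} {x : Module.End F A.H} (h : A.Op χ x) (k : ℕ)
    (a b : A.H) : A.mul a ((x ^ k) b) = (x ^ k) (A.mul a b) := by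
  induction k with
  | zero => simp
  | succ k ih => rw [pow_succ', Module.End.mul_apply, (h.2.2 _ _).2, ih, Module.End.mul_apply]

theorem step_comm {V W : Type} [AddCommGroup V] [Module F V] [AddCommGroup W] [Module F W]
    {f : V →ₗ[F] W} {x : Module.End F V} {y : Module.End F W} (h : ∀ a, f (x a) = y (f a))
    (k : ℕ) (a : V) : f ((x ^ k) a) = (y ^ k) (f a) := by
  induction k with
  | zero => simp
  | succ k ih => rw [pow_succ', Module.End.mul_apply, h, ih, pow_succ', Module.End.mul_apply]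

theorem step_neg {V : Type} [AddCommGroup V] [Module F V] {x y : Module.End F V}
    (h : x * y = y * x) {z : V} (hz : x z + y z = 0) (k : ℕ) :
    (y ^ k) z = (-1 : F) ^ k • (x ^ k) z := by
  have h1 : ∀ a, x (y a) = y (x a) := fun a => congrArg (fun f : Module.End F V => f a) h
  induction k with
  | zero => simp
  | succ k ih =>
    rw [pow_succ, Module.End.mul_apply, eq_neg_of_add_eq_zero_right hz, map_neg,
      ← step_comm (f := x) h1, ih, map_smul, pow_succ' x, Module.End.mul_apply, pow_succ, mul_smul,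
      neg_one_smul, smul_neg]

theorem step_mul {χ : G →* Fˣ} {A B : GM F G} {f : A.H →ₗ[F] B.H} {x : Module.End F B.H} {s : ℕ}
    (w : A.Wf χ) (hf : A.Hom B f) (ox : B.Op χ x) (h : A.Free B f x s) {i j : ℤ} {a b : B.H}
    (ha : a ∈ B.gr i) (hb : b ∈ B.gr j) : B.mul a b ∈ B.gr (i + j) := by
  obtain ⟨a, h1, rfl⟩ := h.2.1 i a ha
  obtain ⟨b, h2, rfl⟩ := h.2.1 j b hb
  rw [map_sum]
  refine Submodule.sum_mem _ fun l _ => ?_
  rw [map_sum, LinearMap.sum_apply]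
  refine Submodule.sum_mem _ fun k _ => ?_
  rw [step_left ox, step_right ox, ← hf.2.1]
  have := step_gr ox k (step_gr ox l (hf.1 _ _ (w.2.1 _ _ _ (h1 k) _ (h2 l))))
  rwa [show i - 2 * (k : ℕ) + (j - 2 * (l : ℕ)) + 2 * (l : ℕ) + 2 * (k : ℕ) = i + j by ring] at this

theorem step_lin {V W U : Type} [AddCommGroup V] [Module F V] [AddCommGroup W] [Module F W]
    [AddCommGroup U] [Module F U] (p : Submodule F V) (q : Submodule F W) (N : Submodule F U)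
    (e : W →ₗ[F] U) (g : V →ₗ[F] U) (hu : ∀ ξ ∈ q, e ξ ∈ N → ξ = 0)
    (hex : ∀ a ∈ p, ∃ ξ ∈ q, e ξ - g a ∈ N) :
    ∃ α : V →ₗ[F] W, ∀ a ∈ p, α a ∈ q ∧ e (α a) - g a ∈ N := by
  choose f f1 f2 using fun a : p => hex a.1 a.2
  have hadd : ∀ a b, f (a + b) = f a + f b := fun a b => by
    refine sub_eq_zero.1 (hu _ (q.sub_mem (f1 _) (q.add_mem (f1 a) (f1 b))) ?_)
    have := N.sub_mem (f2 (a + b)) (N.add_mem (f2 a) (f2 b))
    rw [Submodule.coe_add, map_add] at this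
    rw [map_sub, map_add]
    exact (by abel : e (f (a + b)) - (g a + g b) - (e (f a) - g a + (e (f b) - g b)) =
      e (f (a + b)) - (e (f a) + e (f b))) ▸ this
  have hsmul : ∀ (c : F) a, f (c • a) = c • f a := fun c a => by
    refine sub_eq_zero.1 (hu _ (q.sub_mem (f1 _) (q.smul_mem c (f1 a))) ?_)
    have := N.sub_mem (f2 (c • a)) (N.smul_mem c (f2 a))
    rw [Submodule.coe_smul, map_smul, smul_sub, sub_sub_sub_cancel_right] at this
    rwa [map_sub, map_smul]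
  obtain ⟨α, hα⟩ := LinearMap.exists_extend (⟨⟨f, hadd⟩, hsmul⟩ : p →ₗ[F] W)
  refine ⟨α, fun a ha => ?_⟩
  have : α a = f ⟨a, ha⟩ := congrArg (fun φ : p →ₗ[F] W => φ ⟨a, ha⟩) hα
  rw [this]
  exact ⟨f1 _, f2 _⟩

/-- The span of the `y ^ j f b`, `j < r`. -/
def stepN {V W : Type} [AddCommGroup V] [Module F V] [AddCommGroup W] [Module F W]
    (f : V →ₗ[F] W) (y : Module.End F W) (r : ℕ) : Submodule F W where
  carrier := {c | ∃ β : Fin r → V, c = ∑ j : Fin r, (y ^ (j : ℕ)) (f (β j))}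
  add_mem' := by
    rintro _ _ ⟨β, rfl⟩ ⟨β', rfl⟩
    exact ⟨β + β', by simp [Finset.sum_add_distrib]⟩
  zero_mem' := ⟨0, by simp⟩
  smul_mem' := by
    rintro c _ ⟨β, rfl⟩
    exact ⟨c • β, by simp [Finset.smul_sum]⟩

theorem step_expand {χ : G →* Fˣ} {R0 R1 R1' R2 : GM F G} {r : ℕ}
    {π1 : R0.H →ₗ[F] R1.H} {π1' : R0.H →ₗ[F] R1'.H} {π2 : R1.H →ₗ[F] R2.H}
    {π2' : R1'.H →ₗ[F] R2.H} {x1 : Module.End F R1.H} {y1 : Module.End F R1'.H}
    {x2 y2 : Module.End F R2.H} (h1' : R0.Hom R1' π1') (oy1 : R1'.Op χ y1)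
    (sq : ∀ a, π2 (π1 a) = π2' (π1' a)) (cx : ∀ a, π2 (x1 a) = x2 (π2 a))
    (cy : ∀ a, π2' (y1 a) = y2 (π2' a)) (cxy : x2 * y2 = y2 * x2)
    (f1' : R0.Free R1' π1' y1 (r + 1)) (f2 : R1.Free R2 π2 y2 (r + 1)) {i : ℤ} {a : R0.H}
    (ha : a ∈ R0.gr i) {z : R2.H} (hz : z ∈ R2.gr (i + 2 * r))
    (hN : z - (y2 ^ r) (π2 (π1 a)) ∈ stepN π2 y2 r) (van : x2 z + y2 z = 0) :
    ∃ β : Fin (r + 1) → R1.H, (∀ j : Fin (r + 1), β j ∈ R1.gr (i + 2 * r - 2 * (j : ℕ))) ∧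
      z = ∑ j : Fin (r + 1), (y2 ^ (j : ℕ)) (π2 (β j)) ∧ β (Fin.last r) = π1 a ∧
      ∀ j : Fin r, ∃ g ∈ R0.gr (i + 2 * r - 2 * (j : ℕ)),
        β j.castSucc = -x1 (β j.succ) - π1 g := by
  obtain ⟨β, b1, b2⟩ := f2.2.1 _ z hz
  obtain ⟨β', b3⟩ := hN
  have b4 : β (Fin.last r) = π1 a := by
    have := f2.1 (β - Fin.snoc (α := fun _ => R1.H) β' (π1 a)) (by
      simp only [Pi.sub_apply, map_sub, Finset.sum_sub_distrib]
      rw [← b2, Fin.sum_univ_castSucc]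
      simp only [Fin.snoc_castSucc, Fin.snoc_last, Fin.val_castSucc, Fin.val_last]
      rw [← b3, sub_add_cancel, sub_self])
    simpa [sub_eq_zero] using congrFun this (Fin.last r)
  obtain ⟨g, g1, g2⟩ := f1'.2.1 _ _ (step_gr oy1 (r + 1) (h1'.1 _ _ ha))
  have g3 : (y2 ^ (r + 1)) (π2 (π1 a)) = ∑ j : Fin (r + 1), (y2 ^ (j : ℕ)) (π2 (π1 (g j))) := by
    rw [sq, ← step_comm cy, g2, map_sum]
    exact Finset.sum_congr rfl fun j _ => by rw [step_comm cy, sq]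
  have h3 : ∀ a, x2 (y2 a) = y2 (x2 a) := fun a =>
    congrArg (fun f : Module.End F R2.H => f a) cxy
  have k1 : x2 z = ∑ j : Fin (r + 1), (y2 ^ (j : ℕ)) (π2 (x1 (β j))) := by
    rw [b2, map_sum]
    exact Finset.sum_congr rfl fun j _ => by rw [step_comm (f := x2) h3, cx]
  have k2 : y2 z = ∑ j : Fin (r + 1), (y2 ^ (j : ℕ))
      (π2 (Fin.cons (α := fun _ => R1.H) 0 (fun j => β j.castSucc) j)) +
      ∑ j : Fin (r + 1), (y2 ^ (j : ℕ)) (π2 (π1 (g j))) := by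
    rw [← g3, Fin.sum_univ_succ, b2, Fin.sum_univ_castSucc, map_add, map_sum, b4]
    simp [pow_succ']
  have k3 := f2.1 (fun j => x1 (β j) + Fin.cons (α := fun _ => R1.H) 0 (fun j => β j.castSucc) j +
      π1 (g j)) (by
    simp only [map_add, Finset.sum_add_distrib]
    rw [add_assoc, ← k1, ← k2, van])
  refine ⟨β, b1, b2, b4, fun j => ⟨g j.succ, ?_, ?_⟩⟩
  · have := g1 j.succ
    rwa [Fin.val_succ, show i + 2 * (r + 1 : ℕ) - 2 * ((j : ℕ) + 1 : ℕ) =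
      i + 2 * r - 2 * (j : ℕ) by push_cast; ring] at this
  · have := congrFun k3 j.succ
    simp only [Fin.cons_succ, Pi.zero_apply] at this
    rw [← sub_eq_zero, ← this]
    abel

theorem theta_step (χ : G →* Fˣ) (R0 R1 R1' R2 RF RS : GM F G) (r m : ℕ)
    (π1 : R0.H →ₗ[F] R1.H) (π1' : R0.H →ₗ[F] R1'.H) (π2 : R1.H →ₗ[F] R2.H)
    (π2' : R1'.H →ₗ[F] R2.H) (res : R2.H →ₗ[F] RF.H) (ext : RS.H →ₗ[F] R2.H)
    (x1 : Module.End F R1.H) (y1 : Module.End F R1'.H) (x2 y2 : Module.End F R2.H)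
    (yF : Module.End F RF.H)
    (w0 : R0.Wf χ) (wS : RS.Wf χ) (top : R0.Top m)
    (h1 : R0.Hom R1 π1) (h1' : R0.Hom R1' π1') (h2 : R1.Hom R2 π2) (h2' : R1'.Hom R2 π2')
    (hres : R2.Hom RF res) (hext : RS.Hom R2 ext)
    (ox1 : R1.Op χ x1) (oy1 : R1'.Op χ y1) (ox2 : R2.Op χ x2) (oy2 : R2.Op χ y2)
    (sq : ∀ a, π2 (π1 a) = π2' (π1' a)) (cx : ∀ a, π2 (x1 a) = x2 (π2 a))
    (cy : ∀ a, π2' (y1 a) = y2 (π2' a)) (cF : ∀ a, res (y2 a) = yF (res a))
    (cxy : x2 * y2 = y2 * x2)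
    (f1 : R0.Free R1 π1 x1 (r + 1)) (f1' : R0.Free R1' π1' y1 (r + 1))
    (f2 : R1.Free R2 π2 y2 (r + 1)) (fF : R1.Free RF (res ∘ₗ π2) yF r)
    (trext : R2.Top (m + r + r) → ∀ a, R2.tr (m + r + r) (ext a) = RS.tr (m + r + r) a)
    (e1 : ∀ i, ∀ a ∈ R2.gr i, res a = 0 ↔ ∃ b ∈ RS.gr i, ext b = a)
    (e2 : ∀ i, (∀ c ∈ RF.gr (i - 1), ∃ a ∈ R2.gr (i - 1), res a = c) →
      ∀ b ∈ RS.gr i, ext b = 0 → b = 0)
    (van : ∀ b, x2 (ext b) + y2 (ext b) = 0) :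
    RS.Top (m + r + r) ∧ ∃ α : ℤ → R0.H →ₗ[F] RS.H,
      (∀ i, ∀ a ∈ R0.gr i, α i a ∈ RS.gr (i + 2 * r)) ∧
      (∀ i σ, ∀ a ∈ R0.gr i, RS.ρ σ (α i a) = (χ σ : F) ^ r • α i (R0.ρ σ a)) ∧
      ∀ i j : ℤ, i + j = 2 * m → ∀ a ∈ R0.gr i, ∀ b ∈ R0.gr j,
        RS.tr (m + r + r) (RS.mul (α i a) (α j b)) =
          ((-1) ^ r * (r + 1) : F) * R0.tr m (R0.mul a b) := by
  have top1 : R1.Top (m + r) := f1.top top
  have top2 : R2.Top (m + r + r) := f2.top top1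
  have inj : ∀ i, ∀ b ∈ RS.gr i, ext b = 0 → b = 0 := fun i => e2 i fun c hc => by
    obtain ⟨a, a1, rfl⟩ := fF.2.1 _ c hc
    refine ⟨∑ k : Fin r, (y2 ^ (k : ℕ)) (π2 (a k)), Submodule.sum_mem _ fun k _ => ?_, ?_⟩
    · simpa using step_gr oy2 k (h2.1 _ _ (a1 k))
    · rw [map_sum]
      exact Finset.sum_congr rfl fun k _ => step_comm cF _ _
  have uniq : ∀ i, ∀ ξ ∈ RS.gr i, ext ξ ∈ stepN π2 y2 r → ξ = 0 := by
    rintro i ξ h ⟨β, hβ⟩
    have k1 := (e1 i _ (hext.1 _ _ h)).2 ⟨ξ, h, rfl⟩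
    rw [hβ, map_sum] at k1
    obtain rfl := fF.1 β (by
      rw [← k1]
      exact Finset.sum_congr rfl fun k _ => (step_comm cF _ _).symm)
    exact inj i ξ h (by simpa using hβ)
  have ex : ∀ i, ∀ a ∈ R0.gr i, ∃ ξ ∈ RS.gr (i + 2 * r),
      ext ξ - ((y2 ^ r) ∘ₗ π2 ∘ₗ π1) a ∈ stepN π2 y2 r := fun i a ha => by
    have k1 := step_gr oy2 r (h2.1 _ _ (h1.1 _ _ ha))
    obtain ⟨β, b1, b2⟩ := fF.2.1 _ _ (hres.1 _ _ k1)
    obtain ⟨ξ, k2, k3⟩ := (e1 (i + 2 * r)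
      ((y2 ^ r) (π2 (π1 a)) - ∑ k : Fin r, (y2 ^ (k : ℕ)) (π2 (β k)))
      (Submodule.sub_mem _ k1 (Submodule.sum_mem _ fun k _ => by
        simpa using step_gr oy2 k (h2.1 _ _ (b1 k))))).1 (by
        rw [map_sub, b2, map_sum, sub_eq_zero]
        exact Finset.sum_congr rfl fun k _ => (step_comm cF _ _).symm)
    refine ⟨ξ, k2, ?_⟩
    rw [k3]
    simpa using (stepN π2 y2 r).neg_mem ⟨β, rfl⟩
  choose α hα using fun i => step_lin _ _ _ ext _ (uniq (i + 2 * r)) (ex i)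
  refine ⟨fun j hj => (Submodule.eq_bot_iff _).2 fun b hb => inj j b hb ?_, α,
    fun i a ha => (hα i a ha).1, fun i σ a ha => ?_, fun i j hij a ha b hb => ?_⟩
  · have := hext.1 _ _ hb
    rwa [top2 j hj, Submodule.mem_bot] at this
  · obtain ⟨k1, β, k2⟩ := hα i a ha
    obtain ⟨k3, k4⟩ := hα i _ ((w0.2.2 σ).1 _ _ ha)
    refine sub_eq_zero.1 (uniq _ _ (Submodule.sub_mem _ ((wS.2.2 σ).1 _ _ k1)
      (Submodule.smul_mem _ _ k3)) ?_)
    have k5 : R2.ρ σ (ext (α i a) - ((y2 ^ r) ∘ₗ π2 ∘ₗ π1) a) ∈ stepN π2 y2 r := by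
      refine ⟨fun k => (χ σ : F) ^ (k : ℕ) • R1.ρ σ (β k), ?_⟩
      rw [k2, map_sum]
      exact Finset.sum_congr rfl fun k _ => by rw [step_rho oy2, h2.2.2, map_smul, map_smul]
    have k6 := Submodule.sub_mem _ k5 (Submodule.smul_mem _ ((χ σ : F) ^ r) k4)
    simp only [LinearMap.comp_apply] at k6
    rw [map_sub, step_rho oy2, h2.2.2, h1.2.2, hext.2.2, smul_sub, sub_sub_sub_cancel_right] at k6
    rwa [map_sub, map_smul]
  · obtain ⟨β, b1, b2, b3, b4⟩ := step_expand h1' oy1 sq cx cy cxy f1' f2 ha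
      (hext.1 _ _ (hα i a ha).1) (hα i a ha).2 (van _)
    obtain ⟨β', c1, c2, c3, -⟩ := step_expand h1' oy1 sq cx cy cxy f1' f2 hb
      (hext.1 _ _ (hα j b hb).1) (hα j b hb).2 (van _)
    have t1 : ∀ c ∈ R1.gr (i + 2 * r), R2.tr (m + r + r) (R2.mul (π2 c) (ext (α j b))) =
        R1.tr (m + r) (R1.mul c (π1 b)) := fun c hc => by
      rw [c2, map_sum, Fin.sum_univ_castSucc, Finset.sum_eq_zero fun k _ => ?_, zero_add,
        step_right oy2, ← h2.2.1, c3]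
      · exact f2.2.2 _ r rfl top1 _
      · have k1 := step_mul w0 h1 ox1 f1 hc (c1 k.castSucc)
        have k2 := k.2
        rw [top1 _ (by rw [Fin.val_castSucc]; push_cast; omega), Submodule.mem_bot] at k1
        rw [step_right oy2, ← h2.2.1, k1, map_zero, map_zero]
    have t2 : ∀ k : Fin (r + 1), (-1 : F) ^ (k : ℕ) *
        R1.tr (m + r) (R1.mul ((x1 ^ (k : ℕ)) (β k)) (π1 b)) =
        (-1) ^ r * R0.tr m (R0.mul a b) := fun k => by
      induction k using Fin.reverseInduction with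
      | last => rw [b3, Fin.val_last, step_left ox1, ← h1.2.1, f1.2.2 _ r rfl top]
      | cast k ih =>
        obtain ⟨g, g1, g2⟩ := b4 k
        have k1 := w0.2.1 _ _ _ g1 _ hb
        have k2 := k.2
        rw [top _ (by omega), Submodule.mem_bot] at k1
        rw [← ih, g2, Fin.val_castSucc, Fin.val_succ, step_left ox1, map_sub,
          LinearMap.sub_apply, ← h1.2.1, k1, map_zero, sub_zero, ← step_left ox1, map_neg,
          map_neg, LinearMap.neg_apply, map_neg, pow_succ x1, Module.End.mul_apply, pow_succ]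
        ring
    rw [← trext top2, hext.2.1, b2, map_sum, LinearMap.sum_apply, map_sum,
      Finset.sum_congr rfl (g := fun _ => (-1) ^ r * R0.tr m (R0.mul a b)) fun k _ => ?_]
    · simp only [Finset.sum_const, Finset.card_univ, Fintype.card_fin, nsmul_eq_mul]
      push_cast
      ring
    · rw [← t2 k, ← t1 _ (by simpa using step_gr ox1 k (b1 k)), step_left oy2, ← step_right oy2,
        step_neg cxy (van _), map_smul, map_smul, smul_eq_mul, step_right ox2, ← step_left ox2,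
        step_comm cx]

end Pool.Agent.MP_855f4c_ag.Aff
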