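import Pool.Agent.MP_855f4c_ag.Aff.Grp
import Pool.Agent.MP_855f4c_ag.Aff.Step
import Pool.Agent.MP_855f4c_ag.Aff.Poly

/-! The difference of two pull-backs lifts canonically to compact support off the diagonal. -/

namespace Pool.Agent.MP_855f4c_ag.Aff

variable {K F : Type} [NontriviallyNormedField K] [Field F] {C : Coh K F} {N : ℕ}

/-- The two projections. -/
def pj (b : Bool) (p : Amb K fun _ : Bool => N) : Amb K fun _ : Unit => N :=
  re (d := fun _ : Bool => N) (fun _ : Unit => b) p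

/-- Properness of a projection. -/
abbrev Pp (b : Bool) (S : Set (Amb K fun _ : Bool => N)) (T : Set (Amb K fun _ : Unit => N)) :
    Prop := Proper (d := fun _ : Bool => N) (fun _ : Unit => b) S T

/-- Pull-back along a projection. -/
def Coh.pb (C : Coh K F) (b : Bool) (S : Set (Amb K fun _ : Bool => N))
    (T : Set (Amb K fun _ : Unit => N)) : (C.H T).H →ₗ[F] (C.H S).H :=
  C.pull (d := fun _ : Bool => N) (fun _ : Unit => b) S T

theorem closed_pj (b : Bool) {Z : Set (Amb K fun _ : Unit => N)} (h : Closed Z) :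
    Closed (pj b ⁻¹' Z) := Closed.preimage (d := fun _ : Bool => N) (fun _ : Unit => b) h

theorem pp_of (b : Bool) {S Z : Set (Amb K fun _ : Bool => N)} {T : Set (Amb K fun _ : Unit => N)}
    (hT : LC T) (hZ : Closed Z) (h : S = Z ∩ pj b ⁻¹' T) : Pp b S T :=
  proper_of (d := fun _ : Bool => N) (fun _ : Unit => b) hT hZ h

theorem closed_diag : Closed {p : Amb K fun _ : Bool => N | p false = p true} := by
  have h := closed_zer (K := K) (d := fun _ : Bool => N)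
    (fun x : Fin N × Fin N => MvPolynomial.X ⟨false, x.1⟩ * MvPolynomial.X ⟨true, x.2⟩ -
      MvPolynomial.X ⟨false, x.2⟩ * MvPolynomial.X ⟨true, x.1⟩)
    fun x => ⟨_, ((MH.X _).mul (MH.X _)).sub ((MH.X _).mul (MH.X _))⟩
  convert h using 1
  ext p
  simp only [zer, Set.mem_ofPred_eq, ev_sub, ev_mul, ev_X, Prod.forall]
  constructor
  · intro e i j
    rw [e, mul_comm, sub_self]
  · intro e
    obtain ⟨i, hi⟩ := Function.ne_iff.1 (p true).rep_nonzero
    rw [← (p false).mk_rep, ← (p true).mk_rep, Projectivization.mk_eq_mk_iff']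
    refine ⟨(p false).rep i / (p true).rep i, funext fun j => ?_⟩
    have h1 := sub_eq_zero.1 (e i j)
    have h2 : (p true).rep i ≠ 0 := hi
    rw [Pi.smul_apply, smul_eq_mul, div_mul_eq_mul_div, h1, mul_div_cancel_right₀ _ h2]

theorem pb_free (bun : C.Bundle) (b : Bool) {S : Set (Amb K fun _ : Bool => N)}
    {T : Set (Amb K fun _ : Unit => N)} (hp : Pp b S T) (bij : Set.BijOn (pj b) S T) :
    (C.H T).Free (C.H S) (C.pb b S T) (C.e S (!b)) 1 := by
  refine bun _ _ _ _ _ _ (!b) 1 hp fun t ht => ?_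
  obtain ⟨p₀, h1, h2⟩ := bij.2.2 ht
  have e : ∀ p ∈ S, pj b p = t → p = p₀ := fun p hp h => bij.2.1 hp h1 (h.trans h2.symm)
  refine ⟨(p₀ (!b)).submodule, (p₀ (!b)).finrank_submodule, ?_, ?_, fun l hl => ?_⟩
  · rintro p ⟨h3, h4⟩
    rw [e p h3 h4]
    exact le_refl (p₀ (!b)).submodule
  · rintro p ⟨h3, h4⟩ p' ⟨h5, h6⟩ -
    rw [e p h3 h4, e p' h5 h6]
  · exact ⟨p₀, ⟨h1, h2⟩, (Projectivization.submodule_injective (Submodule.eq_of_le_of_finrank_eq
      hl (l.finrank_submodule.trans (p₀ (!b)).finrank_submodule.symm))).symm⟩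

theorem pb_hom (nat : C.Natural) {b : Bool} {S : Set (Amb K fun _ : Bool => N)}
    {T : Set (Amb K fun _ : Unit => N)} (hp : Pp b S T) : (C.H T).Hom (C.H S) (C.pb b S T) :=
  (nat _ _ _ _ _ _ hp).1

theorem res_pb (nat : C.Natural) {b : Bool} {S S' : Set (Amb K fun _ : Bool => N)}
    {T : Set (Amb K fun _ : Unit => N)} (hp : Pp b S T) (h : Proper (fun k => k) S' S)
    (a : (C.H T).H) : C.pull (fun k => k) S' S (C.pb b S T a) = C.pb b S' T a :=
  (nat _ _ _ _ _ _ h).2.2.2 _ (fun _ : Unit => b) T hp a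

theorem pb_diag (nat : C.Natural) (bun : C.Bundle) {X : Set (Amb K fun _ : Unit => N)}
    (cX : Closed X) {S : Set (Amb K fun _ : Bool => N)} (cS : Closed S)
    (hS : ∀ p, p ∈ S ↔ pj false p ∈ X ∧ p false = p true) :
    (∀ i, ∀ c ∈ (C.H S).gr i, ∃ a ∈ (C.H X).gr i, C.pb false S X a = c) ∧
      ∀ i, ∀ a ∈ (C.H X).gr i, C.pb false S X a = C.pb true S X a := by
  have e : ∀ p ∈ S, pj true p = pj false p := fun p hp => funext fun _ => ((hS p).1 hp).2.symm
  have pS : ∀ b, Pp b S X := fun b => pp_of b cX.lc cS (Set.inter_eq_left.2 fun p hp => by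
    cases b
    · exact ((hS p).1 hp).1
    · rw [Set.mem_preimage, e p hp]
      exact ((hS p).1 hp).1).symm
  have fr := pb_free bun false (pS false) ⟨fun p hp => ((hS p).1 hp).1, fun p hp p' hp' h => by
    have h1 : p false = p' false := congrFun h ()
    funext b
    cases b
    · exact h1
    · rw [← ((hS p).1 hp).2, ← ((hS p').1 hp').2, h1],
    fun x hx => ⟨fun _ => x (), (hS _).2 ⟨hx, rfl⟩, rfl⟩⟩
  have pd : Proper (d := fun _ : Unit => N) (fun _ : Bool => ()) X S :=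
    proper_of (d := fun _ : Unit => N) (fun _ : Bool => ()) cS.lc cX
      (Set.ext fun x => ⟨fun hx => ⟨hx, (hS fun _ => x ()).2 ⟨hx, rfl⟩⟩, fun hx => hx.1⟩)
  have nd := nat _ _ _ _ _ _ pd
  have h1 : ∀ b a, C.pull (d := fun _ : Unit => N) (fun _ : Bool => ()) X S (C.pb b S X a) = a :=
    fun b a => (nd.2.2.2 _ (fun _ : Unit => b) X (pS b) a).trans (nd.2.2.1 a)
  refine ⟨fr.surj, fun i a ha => ?_⟩
  obtain ⟨a', -, h2⟩ := fr.surj i _ ((pb_hom nat (pS true)).1 i a ha)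
  rw [← h2, ← h1 false a', h2, h1]

theorem bc_eq (bc : C.BaseChange) {ι : Type} {d : ι → ℕ} {T Z Y S : Set (Amb K d)} (hT : LC T)
    (hZ : Closed Z) (hY : Closed Y) (hS : S = T ∩ Y) (a : (C.H (T \ Z)).H) :
    C.pull (fun k => k) S T (C.ext (T \ Z) T a) =
      C.ext (S \ Z) S (C.pull (fun k => k) (S \ Z) (T \ Z) a) := by
  subst hS
  exact bc _ _ T Z Y hT hZ hY a

theorem ext_emb (exc : C.Excision) {ι : Type} {d : ι → ℕ} {T Z S : Set (Amb K d)} (hT : LC T)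
    (hZ : Closed Z) (hS : S = T \ Z) {n : ℕ} (top : (C.H T).Top n) :
    (C.H S).Emb C.χ (C.H T) n 0 := by
  subst hS
  exact GM.Emb.of_hom (exc _ _ T Z hT hZ).1 ((exc _ _ T Z hT hZ).2.2.1 n top)

theorem refl_good [CharZero F] {q n : ℕ} {φ u : AlgebraicClosure K ≃ₐ[K] AlgebraicClosure K}
    (bas : C.Basic) (nat : C.Natural) (exc : C.Excision) (bc : C.BaseChange) (bun : C.Bundle)
    (hq : 0 < q) (hφ : (C.χ φ : F) = q) (hu : C.χ u = 1) {X : Set (Amb K fun _ : Unit => N)}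
    (cX : Closed X) (top : ∀ S, LC S → S ⊆ X → (C.H S).Top n) {s : Module.End F (C.H X).H}
    (hs : C.Refl X s) (good : ∀ h k, MH h (Finsupp.single () (k + 1)) →
      (C.H (X \ {z | ev h z = 0})).Good q φ u n) :
    (C.H X).Hom (C.H X) s ∧ (∀ a, (C.H X).tr n (s a) = (C.H X).tr n a) ∧
      ((C.H X).tw s).Good q φ u n := by
  obtain ⟨Γ, h, k, cΓ, bij, hh, fix, hs⟩ := hs
  change ∀ b, Set.BijOn (pj b) Γ X at bij
  change ∀ a, C.pb false Γ X (s a) = C.pb true Γ X a at hs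
  have tX := top X cX.lc subset_rfl
  have pΓ : ∀ b, Pp b Γ X := fun b =>
    pp_of b cX.lc cΓ (Set.inter_eq_left.2 fun p hp => (bij b).1 hp).symm
  have fΓ := fun b => pb_free bun b (pΓ b) (bij b)
  have hΓ := fun b => pb_hom nat (pΓ b)
  have inj := (fΓ false).inj
  have hom : (C.H X).Hom (C.H X) s := by
    refine ⟨fun i a ha => ?_, fun a b => inj ?_, fun σ a => inj ?_⟩
    · obtain ⟨a', h1, h2⟩ := (fΓ false).surj i _ ((hΓ true).1 i a ha)
      rwa [inj ((hs a).trans h2.symm)]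
    · rw [hs, (hΓ true).2.1, (hΓ false).2.1, hs, hs]
    · rw [← (hΓ false).2.2, hs, hs, (hΓ true).2.2]
  refine ⟨hom, fun a => by rw [← (fΓ false).tr_eq tX, hs, (fΓ true).tr_eq tX], ?_⟩
  set T : Set (Amb K fun _ : Bool => N) := pj false ⁻¹' X ∩ pj true ⁻¹' X with hT
  set Δ : Set (Amb K fun _ : Bool => N) := {p | p false = p true} with hΔ
  set D : Set (Amb K fun _ : Unit => N) := {z | ev h z = 0} with hD
  have cT : Closed T := (closed_pj false cX).inter (closed_pj true cX)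
  have cΔ : Closed Δ := closed_diag
  have cD : Closed D := closed_one hh
  have pT : ∀ b, Pp b T X := fun b => pp_of b cX.lc cT (Set.inter_eq_left.2 fun p hp => by
    cases b
    · exact hp.1
    · exact hp.2).symm
  have hTb := fun b => pb_hom nat (pT b)
  have eΓ : Γ = T ∩ Γ :=
    Set.ext fun p => ⟨fun hp => ⟨⟨(bij false).1 hp, (bij true).1 hp⟩, hp⟩, fun hp => hp.2⟩
  obtain ⟨d1, d2⟩ := pb_diag nat bun cX (cT.inter cΔ) fun p => ⟨fun hp => ⟨hp.1.1, hp.2⟩,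
    fun hp => ⟨⟨hp.1, by
      rw [Set.mem_preimage, ← show pj false p = pj true p from funext fun _ => hp.2]
      exact hp.1⟩, hp.2⟩⟩
  have pΔ := proper_inter cT.lc cΔ
  have eX := exc _ _ T Δ cT.lc cΔ
  have wO := (bas _ _ _ (cT.lc.diff cΔ)).1
  have wX := (bas _ _ _ cX.lc).1
  have einj : ∀ i, ∀ b ∈ (C.H (T \ Δ)).gr i, C.ext (T \ Δ) T b = 0 → b = 0 := fun i =>
    eX.2.2.2.2 i fun c hc => by
      obtain ⟨a, h1, h2⟩ := d1 _ c hc
      exact ⟨_, (hTb false).1 _ a h1, (res_pb nat (pT false) pΔ a).trans h2⟩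
  have ex : ∀ i, ∃ α : (C.H X).H →ₗ[F] (C.H (T \ Δ)).H, ∀ a ∈ (C.H X).gr i,
      α a ∈ (C.H (T \ Δ)).gr i ∧
        C.ext (T \ Δ) T (α a) - (C.pb false T X - C.pb true T X) a ∈ (⊥ : Submodule F _) :=
    fun i => step_lin _ _ _ _ _ (einj i) fun a ha => by
      obtain ⟨b, h1, h2⟩ := (eX.2.2.2.1 i _ (sub_mem ((hTb false).1 i a ha)
        ((hTb true).1 i a ha))).1 (by
          rw [map_sub, res_pb nat (pT false) pΔ, res_pb nat (pT true) pΔ, d2 i a ha, sub_self])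
      exact ⟨b, h1, by simp [h2]⟩
  choose α hα using ex
  have α2 : ∀ i, ∀ a ∈ (C.H X).gr i,
      C.ext (T \ Δ) T (α i a) = C.pb false T X a - C.pb true T X a :=
    fun i a ha => sub_eq_zero.1 (hα i a ha).2
  have α3 : ∀ i σ, ∀ a ∈ (C.H X).gr i, (C.H (T \ Δ)).ρ σ (α i a) = α i ((C.H X).ρ σ a) := by
    intro i σ a ha
    have h1 := (wX.2.2 σ).1 i a ha
    refine sub_eq_zero.1 (einj i _ (sub_mem ((wO.2.2 σ).1 i _ (hα i a ha).1) (hα i _ h1).1) ?_)
    rw [map_sub, ← eX.1.2.2, α2 i a ha, α2 i _ h1, map_sub, (hTb false).2.2, (hTb true).2.2,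
      sub_self]
  have pO : Proper (fun k => k) (Γ \ Δ) (T \ Δ) := by
    refine proper_of _ (cT.lc.diff cΔ) cΓ ?_
    ext p
    exact ⟨fun hp => ⟨hp.1, (eΓ ▸ hp.1 : p ∈ T ∩ Γ).1, hp.2⟩, fun hp => ⟨hp.1, hp.2.2⟩⟩
  have pG : Proper (fun k => k) Γ T := by
    have := proper_inter cT.lc cΓ
    rwa [← eΓ] at this
  have hO := (nat _ _ _ _ _ _ pO).1
  have eG := exc _ _ Γ Δ cΓ.lc cΔ
  have tΓ := (fΓ false).top_one tX
  have μ2 : ∀ i, ∀ a ∈ (C.H X).gr i, C.ext (Γ \ Δ) Γ (C.pull (fun k => k) (Γ \ Δ) (T \ Δ) (α i a)) =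
      C.pb false Γ X ((1 - s) a) := fun i a ha => by
    rw [← bc_eq bc cT.lc cΔ cΓ eΓ, α2 i a ha, map_sub, res_pb nat (pT false) pG,
      res_pb nat (pT true) pG, ← hs, ← map_sub]
    rfl
  have em : ((C.H X).tw s).Emb C.χ (C.H (Γ \ Δ)) n 0 := by
    refine ⟨fun i => C.pull (fun k => k) (Γ \ Δ) (T \ Δ) ∘ₗ α i, 1, one_ne_zero,
      fun i a ha => ?_, fun i σ a ha => ?_,
      fun i j _ a ha b hb => ?_⟩
    · rw [Nat.cast_zero, mul_zero, add_zero]
      exact hO.1 i _ (hα i a ha).1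
    · rw [pow_zero, one_smul]
      exact (hO.2.2 σ _).trans (congrArg _ (α3 i σ a ha))
    · rw [one_mul]
      refine (eG.2.2.1 n tΓ _).symm.trans ?_
      rw [eG.1.2.1]
      refine (congrArg _ ((congrArg₂ (fun x y => (C.H Γ).mul x y) (μ2 i a ha) (μ2 j b hb)).trans
        ((hΓ false).2.1 _ _).symm)).trans ?_
      exact (fΓ false).tr_eq tX _
  refine em.good hq hφ hu ?_
  have lU := cX.lc.diff cD
  have tU := top _ lU Set.sdiff_subset
  have pU : Pp false (Γ \ pj false ⁻¹' D) (X \ D) := by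
    refine pp_of false lU cΓ ?_
    ext p
    exact ⟨fun hp => ⟨hp.1, (bij false).1 hp.1, hp.2⟩, fun hp => ⟨hp.1, hp.2.2⟩⟩
  have fU := pb_free bun false pU ⟨fun p hp => ⟨(bij false).1 hp.1, hp.2⟩,
    (bij false).2.1.mono Set.sdiff_subset, fun x hx => by
      obtain ⟨p, h1, rfl⟩ := (bij false).2.2 hx.1
      exact ⟨p, ⟨h1, hx.2⟩, rfl⟩⟩
  refine (ext_emb exc (cΓ.lc.diff (closed_pj false cD)) cΔ ?_ (fU.top_one tU)).good hq hφ hu ?_
  · ext p
    exact ⟨fun hp => ⟨⟨hp.1, fun h1 => hp.2 (fix p hp.1 h1)⟩, hp.2⟩, fun hp => ⟨hp.1.1, hp.2⟩⟩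
  · exact (fU.emb' (pb_hom nat pU) tU).good hq hφ hu (good h k hh)

end Pool.Agent.MP_855f4c_ag.Aff
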