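import Pool.Agent.MP_855f4c_ag.Aff.Climb
import Pool.Agent.MP_855f4c_ag.Aff.Refl

/-! The two main statements. -/

namespace Pool.Agent.MP_855f4c_ag.Aff

variable {K F : Type} [NontriviallyNormedField K] [Field F] [CharZero F] {C : Coh K F}
  {N w c n q : ℕ} {φ u : AlgebraicClosure K ≃ₐ[K] AlgebraicClosure K}

theorem main_affine (bas : C.Basic) (nat : C.Natural) (exc : C.Excision) (bun : C.Bundle)
    (dim : C.Dimension) (tube : C.Tube) (sch : C.Scholze q φ u) (hq : 0 < q)
    (hφ : (C.χ φ : F) = q) (hu : C.χ u = 1) (hn : n + c + 1 = N)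
    (f : Fin w → Pol K fun _ : Unit => N) (e : ℕ)
    (hf : ∀ a, MH (f a) (Finsupp.single () (e + 1))) (h : Pol K fun _ : Unit => N) (k : ℕ)
    (hh : MH h (Finsupp.single () (k + 1))) (sm : Smooth f c (zer f \ {z | ev h z = 0})) :
    (C.H (zer f \ {z | ev h z = 0})).Good q φ u n := by
  rcases (zer f \ {z | ev h z = 0}).eq_empty_or_nonempty with h0 | ⟨p, hp⟩
  · rw [h0]
    intro i V W hV _ _ _ _ _
    have h1 := bun Unit Unit (fun _ => N) (fun k => k) ∅ ∅ () 0
      ⟨closed_empty.lc, closed_empty.lc, ∅, closed_empty, by simp⟩ (by simp)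
    obtain rfl : V = ⊥ := eq_bot_iff.2 fun v hv => by
      obtain ⟨a, -, h2⟩ := h1.2.1 i v (hV hv)
      simpa using h2
    exact MwPure.bot _ _ _ _
  · obtain ⟨I, -, -, -, -, -, -, -, h1⟩ := sm p hp
    have h2 : Function.Injective I := fun a b hab => h1.injective (by simp only [hab])
    exact good_affine bas nat exc bun dim tube sch hq hφ hu n hn
      (by simpa using Fintype.card_le_of_injective I h2) f e hf h sm k hh

theorem main_group (bas : C.Basic) (nat : C.Natural) (exc : C.Excision) (bc : C.BaseChange)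
    (bun : C.Bundle) (dim : C.Dimension) (dua : C.Duality) (tube : C.Tube)
    (sch : C.Scholze q φ u) (hq : 0 < q) (hφ : (C.χ φ : F) = q) (hu : C.χ u = 1)
    (hn : n + c + 1 = N) (f : Fin w → Pol K fun _ : Unit => N) (e : ℕ)
    (hf : ∀ a, MH (f a) (Finsupp.single () (e + 1))) (sm : Smooth f c (zer f))
    (G : Type) [Group G] [Finite G] (s : G →* Module.End F (C.H (zer f)).H) (S : Set G)
    (hS : Subgroup.closure S = ⊤) (hs : ∀ g ∈ S, C.Refl (zer f) (s g)) (i : ℤ) :
    MwPure q i (⨆ g, ((C.H (zer f)).gr i).map (s g - 1)) ((C.H (zer f)).ρ φ)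
        ((C.H (zer f)).ρ u) ∧
      (MwPure q i ((C.H (zer f)).gr i ⊓ ⨅ g, LinearMap.ker (s g - 1)) ((C.H (zer f)).ρ φ)
        ((C.H (zer f)).ρ u) →
      MwPure q i ((C.H (zer f)).gr i) ((C.H (zer f)).ρ φ) ((C.H (zer f)).ρ u)) := by
  have cX := closed_zer f fun a => ⟨_, hf a⟩
  have wX := (bas _ _ _ cX.lc).1
  have key := fun g hg => refl_good bas nat exc bc bun hq hφ hu cX
    (fun S h1 h2 => top_of_smooth dim n hn f _ hf S (fun p hp => sm p (h2 hp)) h1 h2) (hs g hg)
    fun h k hh => main_affine bas nat exc bun dim tube sch hq hφ hu hn f e hf h k hh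
      fun p hp => sm p hp.1
  refine group_pure hq wX s S hS (fun g hg => (key g hg).1) i fun g hg => ?_
  exact refl_pure wX (dua _ _ _ f _ c n hf sm (by simpa using hn)) (key g hg).1 (key g hg).2.1
    (orderOf g) (orderOf_pos g) (by rw [← map_pow, pow_orderOf_eq_one, map_one]) (key g hg).2.2 i

section

variable {H : ∀ {ι : Type} {d : ι → ℕ}, Set (Amb K d) → ModuleCat.{0} F} {T : Theory K F H}

/-- The bundled form of a theory. -/
def Theory.coh (T : Theory K F H) : Coh K F :=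
  ⟨T.χ, fun S => ⟨H S, (T.A S).gr, (T.A S).mul, (T.A S).ρ, (T.A S).tr⟩, T.e, T.pull, T.ext⟩

omit [CharZero F]

theorem Theory.Basic.coh (h : T.Basic) : T.coh.Basic := h

theorem Theory.Natural.coh (h : T.Natural) : T.coh.Natural := h

theorem Theory.Excision.coh (h : T.Excision) : T.coh.Excision :=
  fun ι d S Z h1 h2 => h ι d S Z _ _ h1 h2 rfl rfl

theorem Theory.BaseChange.coh (h : T.BaseChange) : T.coh.BaseChange :=
  fun ι d S Z Y h1 h2 h3 => h ι d S Z Y _ _ _ h1 h2 h3 rfl rfl rfl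

theorem Theory.Bundle.coh (h : T.Bundle) : T.coh.Bundle := h

theorem Theory.Dimension.coh (h : T.Dimension) : T.coh.Dimension := h

theorem Theory.Duality.coh (h : T.Duality) : T.coh.Duality :=
  fun ι κ _ d g δ c m => h ι κ d g δ c m _ rfl

theorem Theory.Tube.coh (h : T.Tube) : T.coh.Tube := by
  intro ι κ _ _ d g δ Z m h1 h2 h3 h4
  obtain ⟨ε, hε, h5⟩ := h ι κ d g δ Z _ m h1 h2 rfl h3 h4
  exact ⟨ε, hε, fun g' h6 h7 => h5 g' _ h6 h7 rfl⟩

theorem Theory.Scholze.coh [CharZero F] (h : T.Scholze q φ u) : T.coh.Scholze q φ u :=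
  fun ι κ _ _ d g δ h1 h2 => h ι κ d g δ _ h1 h2 rfl

end

end Pool.Agent.MP_855f4c_ag.Aff
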