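import Pool.Agent.MP_855f4c_ag.Aff.TowerLin

/-! Geometry of the tower: closedness, properness, fibres. -/

namespace Pool.Agent.MP_855f4c_ag.Aff

open MvPolynomial Matrix Module

variable {K : Type} [Field K] {N w c : ℕ}

/-- A surjective map of index sets gives a bijection onto the preimage. -/
theorem bij_of_surj {ι κ : Type} {d : ι → ℕ} (u : κ → ι) (hu : Function.Bijective u) (k : κ)
    (T : Set (Amb K fun j => d (u j))) :
    ∀ t ∈ T, ∃ M : Submodule (AlgebraicClosure K) (Fin (d (u k)) → AlgebraicClosure K),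
      finrank (AlgebraicClosure K) M = 1 ∧
        Set.BijOn (fun p => p (u k)) {p ∈ re u ⁻¹' T | re u p = t} {l | l.submodule ≤ M} := by
  intro t ht
  refine ⟨(t k).submodule, (t k).finrank_submodule, ?_, ?_, ?_⟩
  · rintro p ⟨-, rfl⟩
    exact le_refl (p (u k)).submodule
  · rintro p ⟨-, hp⟩ q ⟨-, hq⟩ -
    funext i
    obtain ⟨j, rfl⟩ := hu.2 i
    exact congrFun (hp.trans hq.symm) j
  · intro l hl
    have h1 : l = t k := Projectivization.submodule_injective
      (Submodule.eq_of_le_of_finrank_eq hl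
        (l.finrank_submodule.trans (t k).finrank_submodule.symm))
    have h2 : re u (Equiv.piCongrLeft (fun i => Projectivization (AlgebraicClosure K)
        (Fin (d i) → AlgebraicClosure K)) (Equiv.ofBijective u hu) t) = t :=
      funext fun j => Equiv.piCongrLeft_apply_apply (fun i => Projectivization (AlgebraicClosure K)
        (Fin (d i) → AlgebraicClosure K)) (Equiv.ofBijective u hu) t j
    exact ⟨_, ⟨by rw [Set.mem_preimage, h2]; exact ht, h2⟩, (congrFun h2 k).trans h1.symm⟩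

/-- Polynomials in the base point, on a level of the tower. -/
noncomputable def geoUp {A : Set (J w)} (h0 : none ∈ A) (f : Pol K fun _ : Unit => N) :
    Pol K fun j : A => dJ N w j :=
  ren (d := fun j : A => dJ N w j) (fun _ : Unit => (⟨none, h0⟩ : A)) f

theorem ev_geoUp {A : Set (J w)} (h0 : none ∈ A) (f : Pol K fun _ : Unit => N)
    (p : Amb K fun j : A => dJ N w j) : ev (geoUp h0 f) p = ev f (base h0 p) :=
  ev_ren (d := fun j : A => dJ N w j) (fun _ : Unit => (⟨none, h0⟩ : A)) f p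

theorem mh_geoUp {A : Set (J w)} (h0 : none ∈ A) {f : Pol K fun _ : Unit => N} {δ : Unit →₀ ℕ}
    (hf : MH f δ) : MH (geoUp h0 f) (δ.mapDomain fun _ => (⟨none, h0⟩ : A)) :=
  MH.ren (d := fun j : A => dJ N w j) (fun _ : Unit => (⟨none, h0⟩ : A)) hf

/-- Coordinates of vectors and covectors, on a level of the tower. -/
noncomputable def geoX (K : Type) [Field K] (N : ℕ) {A : Set (J w)} (x : Fin w × Bool)
    (h : some x ∈ A) (i : Fin w) : Pol K fun j : A => dJ N w j :=
  MvPolynomial.X ⟨⟨some x, h⟩, i⟩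

theorem ev_geoX {A : Set (J w)} (x : Fin w × Bool) (h : some x ∈ A) (i : Fin w)
    (p : Amb K fun j : A => dJ N w j) : ev (geoX K N x h i) p = vec p x h i :=
  ev_X (d := fun j : A => dJ N w j) _ p

theorem mh_geoX {A : Set (J w)} (x : Fin w × Bool) (h : some x ∈ A) (i : Fin w) :
    MH (geoX K N x h i) (Finsupp.single ⟨some x, h⟩ 1) :=
  MH.X (d := fun j : A => dJ N w j) ⟨⟨some x, h⟩, i⟩

theorem geo_mh_dot {A : Set (J w)} (x y : Fin w × Bool) (h : some x ∈ A) (h' : some y ∈ A) :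
    MH (∑ i, geoX K N x h i * geoX K N y h' i)
      (Finsupp.single ⟨some x, h⟩ 1 + Finsupp.single ⟨some y, h'⟩ 1) :=
  MH.sum _ fun i _ => (mh_geoX x h i).mul (mh_geoX y h' i)

theorem geo_ev_dot {A : Set (J w)} (x y : Fin w × Bool) (h : some x ∈ A) (h' : some y ∈ A)
    (p : Amb K fun j : A => dJ N w j) :
    ev (∑ i, geoX K N x h i * geoX K N y h' i) p = vec p x h ⬝ᵥ vec p y h' := by
  simp only [ev_sum, ev_mul, ev_geoX, dotProduct]

theorem geo_closed_dot {A : Set (J w)} (x y : Fin w × Bool) (h : some x ∈ A) (h' : some y ∈ A) :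
    Closed {p : Amb K fun j : A => dJ N w j | vec p x h ⬝ᵥ vec p y h' = 0} := by
  simpa only [geo_ev_dot] using closed_one (geo_mh_dot (K := K) (N := N) x y h h')

theorem geo_closed_eig {A : Set (J w)} (h0 : none ∈ A) (x : Fin w × Bool) (h : some x ∈ A)
    (E : Matrix (Fin w) (Fin w) (Pol K fun _ : Unit => N)) (e : Pol K fun _ : Unit => N)
    {D : Unit →₀ ℕ} (hE : ∀ i j, MH (E i j) D) (he : MH e D) :
    Closed {p : Amb K fun j : A => dJ N w j |
      (E.map fun f => ev f (base h0 p)) *ᵥ vec p x h = ev e (base h0 p) • vec p x h} := by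
  have h1 := closed_zer (fun i => ∑ j, geoUp h0 (E i j) * geoX K N x h j -
      geoUp h0 e * geoX K N x h i) fun i =>
    ⟨_, (MH.sum _ fun j _ => (mh_geoUp h0 (hE i j)).mul (mh_geoX x h j)).sub
      ((mh_geoUp h0 he).mul (mh_geoX x h i))⟩
  refine (congrArg Closed ?_).mp h1
  ext p
  simp only [zer, Set.mem_ofPred_eq, ev_sub, ev_sum, ev_mul, ev_geoUp, ev_geoX, sub_eq_zero,
    funext_iff, mulVec, dotProduct, Matrix.map_apply, Pi.smul_apply, smul_eq_mul]

/-- The closed conditions of a level of the tower. -/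
def Dat.geoZ (X : Dat K N w c) (A : Set (J w)) (h0 : none ∈ A) :
    Set (Amb K fun j : A => dJ N w j) :=
  {p | (∀ a b h, X.Eb b (base h0 p) *ᵥ vec p (a, b) h = X.eps a (base h0 p) • vec p (a, b) h) ∧
    ∀ a a' h h', a ≠ a' → vec p (a, true) h ⬝ᵥ vec p (a', false) h' = 0}

theorem Dat.closed_geoZ (X : Dat K N w c) (A : Set (J w)) (h0 : none ∈ A) :
    Closed (X.geoZ A h0) := by
  have h1 : ∀ (a : Fin w) (b : Bool) (h : some (a, b) ∈ A),
      Closed {p : Amb K fun j : A => dJ N w j |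
        X.Eb b (base h0 p) *ᵥ vec p (a, b) h = X.eps a (base h0 p) • vec p (a, b) h} := by
    intro a b h
    have h2 := geo_closed_eig h0 (a, b) h (if b then X.Eᵀ else X.E)
      (if (a : ℕ) < c then X.H else 0) (D := X.D)
      (fun i j => by cases b <;> exact X.hE _ _)
      (by split_ifs; exacts [X.hH, MH.zero _])
    refine (congrArg Closed ?_).mp h2
    ext p
    have h3 : ev (if (a : ℕ) < c then X.H else 0) (base h0 p) = X.eps a (base h0 p) := by
      unfold Dat.eps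
      split_ifs
      exacts [rfl, ev_zero _]
    have h4 : ((if b then X.Eᵀ else X.E).map fun f => ev f (base h0 p)) = X.Eb b (base h0 p) := by
      cases b <;> rfl
    rw [Set.mem_ofPred_eq, Set.mem_ofPred_eq, h3, h4]
  have h5 := (closed_iInter fun a => closed_iInter fun b =>
      closed_iInter fun h : PLift (some (a, b) ∈ A) => h1 a b h.down).inter
    (closed_iInter fun a => closed_iInter fun a' =>
      closed_iInter fun h : PLift (some (a, true) ∈ A) =>
      closed_iInter fun h' : PLift (some (a', false) ∈ A) =>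
      closed_iInter fun _ : PLift (a ≠ a') =>
        geo_closed_dot (K := K) (N := N) (a, true) (a', false) h.down h'.down)
  refine (congrArg Closed ?_).mp h5
  ext p
  simp only [Dat.geoZ, Set.mem_inter_iff, Set.mem_iInter, Set.mem_ofPred_eq, PLift.forall]

theorem geo_closed_biUnion {ι α : Type} {d : ι → ℕ} (s : Finset α) {Z : α → Set (Amb K d)}
    (h : ∀ a, Closed (Z a)) : Closed (⋃ a ∈ s, Z a) := by
  classical
  induction s using Finset.induction_on with
  | empty => simpa using closed_empty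
  | insert a s _ ih => rw [Finset.set_biUnion_insert]; exact (h a).union ih

theorem Dat.lc_T (X : Dat K N w c) (A : Set (J w)) (h0 : none ∈ A) (k : ℕ) : LC (X.T A h0 k) := by
  have h1 : ∀ a : Fin w, Closed {p : Amb K fun j : A => dJ N w j |
      ∃ h h', (a : ℕ) < k ∧ vec p (a, true) h ⬝ᵥ vec p (a, false) h' = 0} := by
    intro a
    by_cases h : some (a, true) ∈ A ∧ some (a, false) ∈ A ∧ (a : ℕ) < k
    · refine (congrArg Closed ?_).mp (geo_closed_dot (a, true) (a, false) h.1 h.2.1)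
      ext p
      exact ⟨fun e => ⟨h.1, h.2.1, h.2.2, e⟩, fun ⟨_, _, _, e⟩ => e⟩
    · refine (congrArg Closed ?_).mp closed_empty
      ext p
      exact ⟨False.elim, fun ⟨a, b, e, _⟩ => h ⟨a, b, e⟩⟩
  have h2 := ((LC.preimage (d := fun j : A => dJ N w j) (fun _ : Unit => (⟨none, h0⟩ : A))
    X.lc).inter_closed (X.closed_geoZ A h0)).diff (geo_closed_biUnion Finset.univ h1)
  refine (congrArg LC ?_).mp h2
  ext p
  constructor
  · rintro ⟨⟨e1, e2, e3⟩, e4⟩
    exact ⟨e1, e2, e3, fun a h h' ha e => e4 (Set.mem_biUnion (Finset.mem_univ a) ⟨h, h', ha, e⟩)⟩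
  · rintro ⟨e1, e2, e3, e4⟩
    refine ⟨⟨e1, e2, e3⟩, fun e => ?_⟩
    obtain ⟨a, -, h, h', ha, e⟩ := Set.mem_iUnion₂.1 e
    exact e4 a h h' ha e

theorem Dat.T_zero (X : Dat K N w c) :
    X.T (lev w 0) (none_mem_lev w 0) 0 =
      re (fun _ : Unit => (⟨none, none_mem_lev w 0⟩ : lev w 0)) ⁻¹' X.U := by
  ext p
  exact ⟨fun h => h.1, fun h => ⟨h, fun a b e => absurd (some_mem_lev.1 e) (Nat.not_lt_zero _),
    fun a b e => absurd (some_mem_lev.1 e) (Nat.not_lt_zero _),
    fun a e => absurd (some_mem_lev.1 e) (Nat.not_lt_zero _)⟩⟩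

theorem Dat.geo_down (X : Dat K N w c) {A A' : Set (J w)} (h0 : none ∈ A) (hA : A ⊆ A') (k : ℕ)
    {p : Amb K fun j : A' => dJ N w j} (hp : p ∈ X.T A' (hA h0) k) :
    re (d := fun j : A' => dJ N w j) (Set.inclusion hA) p ∈ X.T A h0 k :=
  ⟨hp.1, fun a b h => hp.2.1 a b (hA h), fun a a' h h' => hp.2.2.1 a a' (hA h) (hA h'),
    fun a h h' => hp.2.2.2 a (hA h) (hA h')⟩

theorem Dat.geo_up (X : Dat K N w c) {A A' : Set (J w)} (h0 : none ∈ A) (hA : A ⊆ A') (k : ℕ)
    (hk : lev w k ⊆ A) {p : Amb K fun j : A' => dJ N w j} (hZ : p ∈ X.geoZ A' (hA h0))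
    (hp : re (d := fun j : A' => dJ N w j) (Set.inclusion hA) p ∈ X.T A h0 k) :
    p ∈ X.T A' (hA h0) k :=
  ⟨hp.1, hZ.1, hZ.2, fun a _ _ ha =>
    hp.2.2.2 a (hk (some_mem_lev.2 ha)) (hk (some_mem_lev.2 ha)) ha⟩

theorem Dat.proper_T (X : Dat K N w c) {A A' : Set (J w)} (h0 : none ∈ A) (hA : A ⊆ A') (k : ℕ)
    (hk : lev w k ⊆ A) :
    Proper (d := fun j : A' => dJ N w j) (Set.inclusion hA) (X.T A' (hA h0) k) (X.T A h0 k) := by
  refine proper_of (d := fun j : A' => dJ N w j) (Set.inclusion hA) (X.lc_T A h0 k)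
    (X.closed_geoZ A' (hA h0)) ?_
  ext p
  exact ⟨fun hp => ⟨⟨hp.2.1, hp.2.2.1⟩, X.geo_down h0 hA k hp⟩,
    fun hp => X.geo_up h0 hA k hk hp.1 hp.2⟩

/-- The incidence form between the `a`-th covector and the `a`-th vector. -/
noncomputable def inc (K : Type) [Field K] (N : ℕ) {A : Set (J w)} (a : Fin w)
    (h : some (a, true) ∈ A) (h' : some (a, false) ∈ A) : Pol K fun j : A => dJ N w j :=
  ∑ i : Fin w, MvPolynomial.X ⟨⟨some (a, true), h⟩, i⟩ * MvPolynomial.X ⟨⟨some (a, false), h'⟩, i⟩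

theorem mh_inc {A : Set (J w)} (a : Fin w) (h : some (a, true) ∈ A) (h' : some (a, false) ∈ A) :
    MH (inc K N a h h')
      (Finsupp.single ⟨some (a, true), h⟩ 1 + Finsupp.single ⟨some (a, false), h'⟩ 1) :=
  geo_mh_dot (a, true) (a, false) h h'

theorem ev_inc {A : Set (J w)} (a : Fin w) (h : some (a, true) ∈ A) (h' : some (a, false) ∈ A)
    (p : Amb K fun j : A => dJ N w j) :
    ev (inc K N a h h') p = vec p (a, true) h ⬝ᵥ vec p (a, false) h' :=
  geo_ev_dot (a, true) (a, false) h h' p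

theorem Dat.T_succ (X : Dat K N w c) {A : Set (J w)} (h0 : none ∈ A) (a : Fin w)
    (h : some (a, true) ∈ A) (h' : some (a, false) ∈ A) :
    X.T A h0 (a + 1) = X.T A h0 a \ {p | ev (inc K N a h h') p = 0} := by
  ext p
  constructor
  · rintro ⟨e1, e2, e3, e4⟩
    refine ⟨⟨e1, e2, e3, fun a' x y ha => e4 a' x y (by omega)⟩, fun e => ?_⟩
    exact e4 a h h' (by omega) ((ev_inc a h h' p).symm.trans e)
  · rintro ⟨⟨e1, e2, e3, e4⟩, e5⟩
    refine ⟨e1, e2, e3, fun a' x y ha => ?_⟩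
    by_cases hl : (a' : ℕ) < a
    · exact e4 a' x y hl
    · obtain rfl : a' = a := Fin.ext (by omega)
      exact fun e => e5 ((ev_inc a' h h' p).trans e)

theorem geo_ext {α : Type} {β : α → Type} {A A' : Set α} (hA : A ⊆ A') {x : α} (hx : x ∈ A')
    (hx' : x ∉ A) (h1 : ∀ j ∈ A', j ∈ A ∨ j = x) (t : ∀ j : A, β j) (l : β x) :
    ∃ p : ∀ j : A', β j, (fun j : A => p (Set.inclusion hA j)) = t ∧ p ⟨x, hx⟩ = l := by
  classical
  refine ⟨fun j => if h : j.1 ∈ A then t ⟨j.1, h⟩ else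
    cast (congrArg β ((h1 j.1 j.2).resolve_left h).symm) l, funext fun j => dif_pos j.2, ?_⟩
  exact dif_neg hx'

theorem geo_bij {A A' : Set (J w)} (hA : A ⊆ A') {x : Fin w × Bool} (hx : some x ∈ A')
    (hx' : some x ∉ A) (h1 : ∀ j ∈ A', j ∈ A ∨ j = some x)
    (S : Set (Amb K fun j : A' => dJ N w j)) (t : Amb K fun j : A => dJ N w j)
    (M : Submodule (AlgebraicClosure K) (Fin w → AlgebraicClosure K))
    (hM : ∀ p, re (d := fun j : A' => dJ N w j) (Set.inclusion hA) p = t →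
      (p ∈ S ↔ vec p x hx ∈ M)) :
    Set.BijOn (fun p : Amb K fun j : A' => dJ N w j => p ⟨some x, hx⟩)
      {p ∈ S | re (d := fun j : A' => dJ N w j) (Set.inclusion hA) p = t}
      {l | l.submodule ≤ M} := by
  have h2 : ∀ l : Projectivization (AlgebraicClosure K) (Fin w → AlgebraicClosure K),
      l.submodule ≤ M ↔ l.rep ∈ M := fun l => by
    rw [Projectivization.submodule_eq, Submodule.span_singleton_le_iff_mem]
  refine ⟨fun p hp => (h2 _).2 ((hM p hp.2).1 hp.1), fun p hp q hq e => ?_, fun l hl => ?_⟩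
  · funext j
    obtain ⟨j, hj⟩ := j
    rcases h1 j hj with h | rfl
    · exact congrFun (hp.2.trans hq.2.symm) ⟨j, h⟩
    · exact e
  · obtain ⟨p, hp, e⟩ := geo_ext (β := fun j => Projectivization (AlgebraicClosure K)
      (Fin (dJ N w j) → AlgebraicClosure K)) hA hx hx' h1 t l
    refine ⟨p, ⟨(hM p hp).2 ?_, hp⟩, e⟩
    exact (congrArg (fun l : Projectivization (AlgebraicClosure K) (Fin w → AlgebraicClosure K) =>
      l.rep ∈ M) e).mpr ((h2 l).1 hl)

theorem Dat.geo_mem (X : Dat K N w c) {A A' : Set (J w)} (h0 : none ∈ A) (hA : A ⊆ A') (a : Fin w)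
    (b : Bool) (hk : lev w a ⊆ A) (hx : some (a, b) ∈ A')
    (h1 : ∀ j ∈ A', j ∈ A ∨ j = some (a, b)) (h2 : ∀ j ∈ A, j ∈ lev w a ∨ j = some (a, !b))
    {t : Amb K fun j : A => dJ N w j} (ht : t ∈ X.T A h0 a) (p : Amb K fun j : A' => dJ N w j)
    (hp : re (d := fun j : A' => dJ N w j) (Set.inclusion hA) p = t) :
    p ∈ X.T A' (hA h0) a ↔ vec p (a, b) hx ∈ adm (X.Eb b (base h0 t)) (X.eps a (base h0 t)) a
      fun a' h => vec t (a', !b) (hk (some_mem_lev.2 h)) := by
  subst hp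
  constructor
  · intro hp
    refine ⟨hp.2.1 a b hx, fun a' h => ?_⟩
    have hne : a' ≠ a := fun e => absurd h (by rw [e]; exact lt_irrefl _)
    cases b
    · exact hp.2.2.1 a' a (hA (hk (some_mem_lev.2 h))) hx hne
    · exact (dotProduct_comm _ _).trans
        (hp.2.2.1 a a' hx (hA (hk (some_mem_lev.2 h))) hne.symm)
  · intro hm
    refine X.geo_up h0 hA a hk ⟨fun a' b' h => ?_, fun a₁ a₂ h h' hne => ?_⟩ ht
    · rcases h1 _ h with e | e
      · exact ht.2.1 a' b' e
      · cases e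
        exact hm.1
    · rcases h1 _ h with e | e <;> rcases h1 _ h' with e' | e'
      · exact ht.2.2.1 a₁ a₂ e e' hne
      · cases e'
        rcases h2 _ e with g | g
        · exact hm.2 a₁ (some_mem_lev.1 g)
        · cases g
          exact absurd rfl hne
      · cases e
        rcases h2 _ e' with g | g
        · exact (dotProduct_comm _ _).trans (hm.2 a₂ (some_mem_lev.1 g))
        · cases g
          exact absurd rfl hne
      · cases e
        cases e'

theorem Dat.geo_idem (X : Dat K N w c) (b : Bool) {z : Amb K fun _ : Unit => N} (hz : z ∈ X.U) :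
    X.Eb b z * X.Eb b z = ev X.H z • X.Eb b z ∧ (X.Eb b z).rank = c ∧
      (X.Eb b z)ᵀ = X.Eb (!b) z := by
  cases b
  · exact ⟨X.idem z hz, X.rank z hz, rfl⟩
  · refine ⟨?_, (rank_transpose _).trans (X.rank z hz), rfl⟩
    exact (transpose_mul _ _).symm.trans (congrArg transpose (X.idem z hz))

theorem Dat.geo_dual (X : Dat K N w c) {A : Set (J w)} (h0 : none ∈ A) (k : ℕ) (b : Bool)
    {t : Amb K fun j : A => dJ N w j} (ht : t ∈ X.T A h0 k) :
    (∀ a a' h h', a ≠ a' → vec t (a, !b) h ⬝ᵥ vec t (a', b) h' = 0) ∧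
      ∀ (a : Fin w) h h', (a : ℕ) < k → vec t (a, !b) h ⬝ᵥ vec t (a, b) h' ≠ 0 := by
  cases b
  · exact ht.2.2
  · exact ⟨fun a a' h h' hne => (dotProduct_comm _ _).trans (ht.2.2.1 a' a h' h hne.symm),
      fun a h h' ha e => ht.2.2.2 a h' h ha ((dotProduct_comm _ _).trans e)⟩

/-- Adding the `a`-th vector or covector gives a projective bundle. -/
theorem Dat.fibre (X : Dat K N w c) {A A' : Set (J w)} (h0 : none ∈ A) (hA : A ⊆ A') (a : Fin w)
    (b : Bool) (hk : lev w a ⊆ A) (hx : some (a, b) ∈ A') (hx' : some (a, b) ∉ A)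
    (h1 : ∀ j ∈ A', j ∈ A ∨ j = some (a, b)) (h2 : ∀ j ∈ A, j ∈ lev w a ∨ j = some (a, !b)) :
    ∀ t ∈ X.T A h0 a, ∃ M : Submodule (AlgebraicClosure K) (Fin w → AlgebraicClosure K),
      finrank (AlgebraicClosure K) M = rk w c a + 1 ∧
        Set.BijOn (fun p : Amb K fun j : A' => dJ N w j => p ⟨some (a, b), hx⟩)
          {p ∈ X.T A' (hA h0) a | re (d := fun j : A' => dJ N w j) (Set.inclusion hA) p = t}
          {l | l.submodule ≤ M} := by
  intro t ht
  obtain ⟨e1, e2, e3⟩ := X.geo_idem b ht.1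
  obtain ⟨e4, e5⟩ := X.geo_dual h0 a b ht
  refine ⟨_, ?_, geo_bij hA hx hx' h1 _ t _ (X.geo_mem h0 hA a b hk hx h1 h2 ht)⟩
  exact finrank_adm _ _ (X.ne _ ht.1) e1 e2 a (fun a' h => vec t (a', b) (hk (some_mem_lev.2 h)))
    _ (fun a' _ => ht.2.1 a' b _) (fun a' _ => by rw [e3]; exact ht.2.1 a' (!b) _)
    (fun a₁ _ a₂ _ hne => e4 a₁ a₂ _ _ hne) fun a' h => e5 a' _ _ h

/-- The incidence divisor is a projective bundle of rank one less. -/
theorem Dat.fibre_inc (X : Dat K N w c) {A A' : Set (J w)} (h0 : none ∈ A) (hA : A ⊆ A')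
    (a : Fin w) (hk : lev w a ⊆ A) (hx : some (a, true) ∈ A') (hx' : some (a, true) ∉ A)
    (hy : some (a, false) ∈ A) (h1 : ∀ j ∈ A', j ∈ A ∨ j = some (a, true))
    (h2 : ∀ j ∈ A, j ∈ lev w a ∨ j = some (a, false)) :
    ∀ t ∈ X.T A h0 a, ∃ M : Submodule (AlgebraicClosure K) (Fin w → AlgebraicClosure K),
      finrank (AlgebraicClosure K) M = rk w c a ∧
        Set.BijOn (fun p : Amb K fun j : A' => dJ N w j => p ⟨some (a, true), hx⟩)
          {p ∈ X.T A' (hA h0) a ∩ {p | ev (inc K N a hx (hA hy)) p = 0} |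
            re (d := fun j : A' => dJ N w j) (Set.inclusion hA) p = t}
          {l | l.submodule ≤ M} := by
  intro t ht
  obtain ⟨e1, e2, e3⟩ := X.geo_idem true ht.1
  obtain ⟨e4, e5⟩ := X.geo_dual h0 a true ht
  refine ⟨adm (X.Eb true (base h0 t)) (X.eps a (base h0 t)) a
      (fun a' h => vec t (a', false) (hk (some_mem_lev.2 h))) ⊓
    LinearMap.ker (dotProductBilin (AlgebraicClosure K) (AlgebraicClosure K)
      (vec t (a, false) hy)), ?_,
    geo_bij hA hx hx' h1 _ t _ fun p hp => ?_⟩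
  · refine finrank_adm_inf _ _ (X.ne _ ht.1) e1 e2 a
      (fun a' h => vec t (a', true) (hk (some_mem_lev.2 h))) _ (fun a' _ => ht.2.1 a' true _)
      (fun a' _ => ht.2.1 a' false _) (fun a₁ _ a₂ _ hne => e4 a₁ a₂ _ _ hne)
      (fun a' h => e5 a' _ _ h) _ (t ⟨some (a, false), hy⟩).rep_nonzero
      ⟨ht.2.1 a false hy, fun a' h => ht.2.2.1 a' a _ hy ?_⟩
    exact fun e => absurd h (by rw [e]; exact lt_irrefl _)
  · refine and_congr (X.geo_mem h0 hA a true hk hx h1 h2 ht p hp) ?_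
    subst hp
    rw [Set.mem_ofPred_eq, ev_inc, dotProduct_comm]
    rfl

end Pool.Agent.MP_855f4c_ag.Aff
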