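import Pool.Agent.MP_855f4c_ag.Aff.Good
import Pool.Agent.MP_855f4c_ag.Aff.Step
import Pool.Agent.MP_855f4c_ag.Aff.TowerGeo

/-! Climbing the tower. -/

namespace Pool.Agent.MP_855f4c_ag.Aff

variable {K F : Type} [NontriviallyNormedField K] [Field F] (C : Coh K F) {N w c : ℕ}

theorem Proper.inter {ι κ : Type} {d : ι → ℕ} {u : κ → ι} {S Y : Set (Amb K d)}
    {T : Set (Amb K fun j => d (u j))} (h : Proper u S T) (hY : Closed Y) : Proper u (S ∩ Y) T := by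
  obtain ⟨h1, h2, Z, h3, h4⟩ := h
  exact ⟨h1.inter_closed hY, h2, Z ∩ Y, h3.inter hY, by rw [h4]; ext p; simp; tauto⟩

/-- Cohomology of a level of the tower. -/
abbrev Coh.R (X : Dat K N w c) (A : Set (J w)) (h0 : none ∈ A) (k : ℕ) :
    GM F (AlgebraicClosure K ≃ₐ[K] AlgebraicClosure K) :=
  C.H (d := fun j : A => dJ N w j) (X.T A h0 k)

/-- Pull-back between levels of the tower. -/
def Coh.pl (X : Dat K N w c) {A A' : Set (J w)} (h0 : none ∈ A) (hA : A ⊆ A') (k : ℕ) :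
    (C.R X A h0 k).H →ₗ[F] (C.R X A' (hA h0) k).H :=
  C.pull (d := fun j : A' => dJ N w j) (Set.inclusion hA) (X.T A' (hA h0) k) (X.T A h0 k)

variable {C}

theorem pl_hom (nat : C.Natural) (X : Dat K N w c) {A A' : Set (J w)} (h0 : none ∈ A)
    (hA : A ⊆ A') (k : ℕ) (hk : lev w k ⊆ A) :
    (C.R X A h0 k).Hom (C.R X A' (hA h0) k) (C.pl X h0 hA k) :=
  (nat _ _ _ _ _ _ (X.proper_T h0 hA k hk)).1

theorem pl_e (nat : C.Natural) (X : Dat K N w c) {A A' : Set (J w)} (h0 : none ∈ A)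
    (hA : A ⊆ A') (k : ℕ) (hk : lev w k ⊆ A) (j : J w) (hj : j ∈ A) (a : (C.R X A h0 k).H) :
    C.pl X h0 hA k (C.e (d := fun j : A => dJ N w j) (X.T A h0 k) ⟨j, hj⟩ a) =
      C.e (d := fun j : A' => dJ N w j) (X.T A' (hA h0) k) ⟨j, hA hj⟩ (C.pl X h0 hA k a) :=
  (nat _ _ _ _ _ _ (X.proper_T h0 hA k hk)).2.1 ⟨j, hj⟩ a

theorem pl_pl (nat : C.Natural) (X : Dat K N w c) {A A' A'' : Set (J w)} (h0 : none ∈ A)
    (hA : A ⊆ A') (hA' : A' ⊆ A'') (k : ℕ) (hk : lev w k ⊆ A) (a : (C.R X A h0 k).H) :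
    C.pl X (hA h0) hA' k (C.pl X h0 hA k a) = C.pl X h0 (hA.trans hA') k a :=
  (nat _ _ _ _ _ _ (X.proper_T (hA h0) hA' k (hk.trans hA))).2.2.2 _ (Set.inclusion hA)
    (X.T A h0 k) (X.proper_T h0 hA k hk) a

theorem pl_free (bun : C.Bundle) (X : Dat K N w c) {A A' : Set (J w)} (h0 : none ∈ A)
    (hA : A ⊆ A') (a : Fin w) (b : Bool) (hk : lev w a ⊆ A) (hx : some (a, b) ∈ A')
    (hx' : some (a, b) ∉ A) (h1 : ∀ j ∈ A', j ∈ A ∨ j = some (a, b))
    (h2 : ∀ j ∈ A, j ∈ lev w a ∨ j = some (a, !b)) :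
    (C.R X A h0 a).Free (C.R X A' (hA h0) a) (C.pl X h0 hA a)
      (C.e (d := fun j : A' => dJ N w j) (X.T A' (hA h0) a) ⟨some (a, b), hx⟩) (rk w c a + 1) :=
  bun A' A (fun j : A' => dJ N w j) (Set.inclusion hA) (X.T A' (hA h0) a) (X.T A h0 a)
    (⟨some (a, b), hx⟩ : A') (rk w c a + 1) (X.proper_T h0 hA a hk)
    (by exact X.fibre h0 hA a b hk hx hx' h1 h2)

theorem mem_lev_succ {a : Fin w} {j : J w} :
    j ∈ lev w (a + 1) ↔ j ∈ lev w a ∨ j = some (a, false) ∨ j = some (a, true) := by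
  rcases j with _ | ⟨x, b⟩
  · simp [none_mem_lev]
  · simp only [some_mem_lev, Option.some.injEq, Prod.mk.injEq, Fin.ext_iff]
    cases b <;> simp <;> omega

theorem not_mem_lev (a : Fin w) (b : Bool) : some (a, b) ∉ lev w a := by simp [some_mem_lev]

theorem tower_step [CharZero F] (bas : C.Basic) (nat : C.Natural) (exc : C.Excision)
    (bun : C.Bundle) (X : Dat K N w c) (a : Fin w) (m : ℕ)
    (top : (C.R X (lev w a) (none_mem_lev w a) a).Top m) :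
    (C.R X (lev w (a + 1)) (none_mem_lev w (a + 1)) (a + 1)).Top (m + rk w c a + rk w c a) ∧
      (C.R X (lev w a) (none_mem_lev w a) a).Emb C.χ
        (C.R X (lev w (a + 1)) (none_mem_lev w (a + 1)) (a + 1)) m (rk w c a) := by
  have h0 := none_mem_lev w a
  have s1 : lev w a ⊆ insert (some (a, false)) (lev w a) := Set.subset_insert _ _
  have s1' : lev w a ⊆ insert (some (a, true)) (lev w a) := Set.subset_insert _ _
  have s2 : insert (some (a, false)) (lev w a) ⊆ lev w (a + 1) := fun j hj => by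
    rw [mem_lev_succ]; rcases hj with h | h <;> simp [h]
  have s2' : insert (some (a, true)) (lev w a) ⊆ lev w (a + 1) := fun j hj => by
    rw [mem_lev_succ]; rcases hj with h | h <;> simp [h]
  have mf : some (a, false) ∈ insert (some (a, false)) (lev w a) := Set.mem_insert _ _
  have mt : some (a, true) ∈ insert (some (a, true)) (lev w a) := Set.mem_insert _ _
  have hx : some (a, true) ∈ lev w (a + 1) := s2' mt
  have hy : some (a, false) ∈ lev w (a + 1) := s2 mf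
  have nt : some (a, true) ∉ insert (some (a, false)) (lev w a) := by
    simp [not_mem_lev]
  have c1 : ∀ j ∈ lev w (a + 1), j ∈ insert (some (a, false)) (lev w a) ∨ j = some (a, true) :=
    fun j hj => by rcases mem_lev_succ.1 hj with h | h | h <;> simp [h]
  have c2 : ∀ j ∈ insert (some (a, false)) (lev w a), j ∈ lev w a ∨ j = some (a, false) :=
    fun j hj => Or.symm hj
  have h2 : none ∈ lev w (a + 1) := none_mem_lev _ _
  set T2 := X.T (lev w (a + 1)) h2 a with hT2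
  set Z : Set (Amb K fun j : lev w (a + 1) => dJ N w j) := {p | ev (inc K N a hx hy) p = 0}
    with hZ
  have cZ : Closed Z := closed_one (mh_inc a hx hy)
  have l2 : LC T2 := X.lc_T _ _ _
  have eS : X.T (lev w (a + 1)) h2 (a + 1) = T2 \ Z := X.T_succ h2 a hx hy
  have pF := proper_inter l2 cZ
  have nF := nat _ _ _ _ _ _ pF
  have eX := exc _ _ T2 Z l2 cZ
  have bS := bas _ _ _ (l2.diff cZ)
  have p12 := X.proper_T (s1 h0) s2 a s1
  have fF : (C.R X _ (s1 h0) a).Free (C.H (T2 ∩ Z))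
      (C.pull (fun k => k) (T2 ∩ Z) T2 ∘ₗ C.pl X (s1 h0) s2 a) (C.e (T2 ∩ Z) ⟨_, hx⟩)
      (rk w c a) := by
    have h3 := bun _ _ _ _ _ _ (⟨_, hx⟩ : lev w (a + 1)) (rk w c a) (p12.inter cZ)
      (by exact X.fibre_inc (s1 h0) s2 a s1 hx nt mf c1 c2)
    have h4 : C.pull (fun k => k) (T2 ∩ Z) T2 ∘ₗ C.pl X (s1 h0) s2 a =
        C.pull (d := fun j : lev w (a + 1) => dJ N w j) (Set.inclusion s2) (T2 ∩ Z)
          (X.T _ (s1 h0) a) :=
      LinearMap.ext fun v => nF.2.2.2 _ (Set.inclusion s2) _ p12 v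
    rw [h4]
    exact h3
  have key := theta_step C.χ (C.R X _ h0 a) (C.R X _ (s1 h0) a) (C.R X _ (s1' h0) a) (C.H T2)
    (C.H (T2 ∩ Z)) (C.H (T2 \ Z)) (rk w c a) m (C.pl X h0 s1 a) (C.pl X h0 s1' a)
    (C.pl X (s1 h0) s2 a) (C.pl X (s1' h0) s2' a) (C.pull (fun k => k) (T2 ∩ Z) T2)
    (C.ext (T2 \ Z) T2) (C.e _ ⟨_, mf⟩) (C.e _ ⟨_, mt⟩) (C.e T2 ⟨_, hy⟩) (C.e T2 ⟨_, hx⟩)
    (C.e (T2 ∩ Z) ⟨_, hx⟩) (bas _ _ _ (X.lc_T _ _ _)).1 bS.1 top
    (pl_hom nat X h0 s1 a le_rfl) (pl_hom nat X h0 s1' a le_rfl) (pl_hom nat X (s1 h0) s2 a s1)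
    (pl_hom nat X (s1' h0) s2' a s1') nF.1 eX.1
    ((bas _ _ _ (X.lc_T _ _ _)).2.1 _).1 ((bas _ _ _ (X.lc_T _ _ _)).2.1 _).1
    ((bas _ _ _ l2).2.1 _).1 ((bas _ _ _ l2).2.1 _).1
    (fun v => (pl_pl nat X h0 s1 s2 a le_rfl v).trans (pl_pl nat X h0 s1' s2' a le_rfl v).symm)
    (pl_e nat X (s1 h0) s2 a s1 _ mf) (pl_e nat X (s1' h0) s2' a s1' _ mt)
    (nF.2.1 ⟨_, hx⟩) (((bas _ _ _ l2).2.1 _).2 _)
    (pl_free bun X h0 s1 a false le_rfl mf (not_mem_lev a false) (fun j hj => Or.symm hj)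
      fun j hj => Or.inl hj)
    (pl_free bun X h0 s1' a true le_rfl mt (not_mem_lev a true) (fun j hj => Or.symm hj)
      fun j hj => Or.inl hj)
    (pl_free bun X (s1 h0) s2 a true s1 hx nt c1 c2) fF (eX.2.2.1 _) eX.2.2.2.1 eX.2.2.2.2
    (fun b => by
      have h3 := bS.2.2 _ _ (mh_inc a hx hy) fun p hp => hp.2
      rw [Finsupp.sum_add_index' (by simp) (by simp [add_smul]),
        Finsupp.sum_single_index (by simp), Finsupp.sum_single_index (by simp), one_smul,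
        one_smul] at h3
      rw [← eX.2.1, ← eX.2.1, ← map_add, ← LinearMap.add_apply, (add_comm _ _).trans h3]
      simp)
  unfold Coh.R
  rw [eS]
  obtain ⟨k1, α, k2, k3, k4⟩ := key
  refine ⟨k1, α, _, ?_, k2, k3, k4⟩
  exact mul_ne_zero (pow_ne_zero _ (by norm_num)) (Nat.cast_add_one_ne_zero _)

end Pool.Agent.MP_855f4c_ag.Aff
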