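import Pool.Agent.MP_855f4c_ag.Aff.Poly

/-! The tower of bundles of frames over an affine variety, and the equations of its top. -/

namespace Pool.Agent.MP_855f4c_ag.Aff

open MvPolynomial Matrix

/-- Index set of the factors: the base, and for each `a` a vector (`false`) and a covector
(`true`). -/
abbrev J (w : ℕ) : Type := Option (Fin w × Bool)

/-- Numbers of homogeneous coordinates. -/
def dJ (N w : ℕ) : J w → ℕ
  | none => N
  | some _ => w

/-- A field of idempotents `E / H` of rank `c` on `U`. -/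
structure Dat (K : Type) [Field K] (N w c : ℕ) where
  U : Set (Amb K fun _ : Unit => N)
  E : Matrix (Fin w) (Fin w) (Pol K fun _ : Unit => N)
  H : Pol K fun _ : Unit => N
  D : Unit →₀ ℕ
  lc : LC U
  hE : ∀ i j, MH (E i j) D
  hH : MH H D
  ne : ∀ z ∈ U, ev H z ≠ 0
  idem : ∀ z ∈ U, (E.map fun f => ev f z) * (E.map fun f => ev f z) =
    ev H z • E.map fun f => ev f z
  rank : ∀ z ∈ U, (E.map fun f => ev f z).rank = c
  cw : c ≤ w

variable {K : Type} [Field K] {N w c : ℕ}

/-- The matrix acting on vectors (`false`) or covectors (`true`). -/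
noncomputable def Dat.Eb (X : Dat K N w c) (b : Bool) (z : Amb K fun _ : Unit => N) :
    Matrix (Fin w) (Fin w) (AlgebraicClosure K) :=
  if b then (X.E.map fun f => ev f z)ᵀ else X.E.map fun f => ev f z

/-- The eigenvalue prescribed for the `a`-th vector and covector. -/
noncomputable def Dat.eps (X : Dat K N w c) (a : Fin w) (z : Amb K fun _ : Unit => N) :
    AlgebraicClosure K :=
  if (a : ℕ) < c then ev X.H z else 0

/-- Fibre dimension of the projective bundles at level `a`. -/
def rk (w c a : ℕ) : ℕ := (if a < c then c else w) - a - 1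

/-- The base point. -/
def base {A : Set (J w)} (h0 : none ∈ A) (p : Amb K fun j : A => dJ N w j) :
    Amb K fun _ : Unit => N :=
  re (fun _ : Unit => (⟨none, h0⟩ : A)) p

/-- The vector or covector with index `x`. -/
noncomputable def vec {A : Set (J w)} (p : Amb K fun j : A => dJ N w j) (x : Fin w × Bool)
    (h : some x ∈ A) : Fin w → AlgebraicClosure K :=
  (p ⟨some x, h⟩).rep

/-- The levels of the tower. -/
def Dat.T (X : Dat K N w c) (A : Set (J w)) (h0 : none ∈ A) (k : ℕ) :
    Set (Amb K fun j : A => dJ N w j) :=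
  {p | base h0 p ∈ X.U ∧
    (∀ a b h, X.Eb b (base h0 p) *ᵥ vec p (a, b) h = X.eps a (base h0 p) • vec p (a, b) h) ∧
    (∀ a a' h h', a ≠ a' → vec p (a, true) h ⬝ᵥ vec p (a', false) h' = 0) ∧
    ∀ (a : Fin w) h h', (a : ℕ) < k → vec p (a, true) h ⬝ᵥ vec p (a, false) h' ≠ 0}

/-- Indices of level below `k`. -/
def lev (w k : ℕ) : Set (J w) := {o | ∀ x, o = some x → (x.1 : ℕ) < k}

theorem none_mem_lev (w k : ℕ) : none ∈ lev w k := fun _ h => by cases h

theorem some_mem_lev {k : ℕ} {x : Fin w × Bool} : some x ∈ lev w k ↔ (x.1 : ℕ) < k :=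
  ⟨fun h => h x rfl, fun h y hy => by cases hy; exact h⟩

/-- The base point in the full product. -/
def bz (p : Amb K (dJ N w)) : Amb K fun _ : Unit => N := re (fun _ : Unit => (none : J w)) p

/-- Vectors and covectors in the full product. -/
noncomputable def vc (p : Amb K (dJ N w)) (a : Fin w) (b : Bool) : Fin w → AlgebraicClosure K :=
  (p (some (a, b))).rep

/-- The top of the tower in the full product. -/
def Dat.SJ (X : Dat K N w c) : Set (Amb K (dJ N w)) :=
  {p | bz p ∈ X.U ∧ (∀ a b, X.Eb b (bz p) *ᵥ vc p a b = X.eps a (bz p) • vc p a b) ∧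
    (∀ a a', a ≠ a' → vc p a true ⬝ᵥ vc p a' false = 0) ∧ ∀ a, vc p a true ⬝ᵥ vc p a false ≠ 0}

theorem Dat.SJ_eq (X : Dat K N w c) :
    X.SJ = re (Subtype.val : lev w w → J w) ⁻¹' X.T (lev w w) (none_mem_lev w w) w := by
  ext p
  constructor
  · rintro ⟨h1, h2, h3, h4⟩
    exact ⟨h1, fun a b _ => h2 a b, fun a a' _ _ h => h3 a a' h, fun a _ _ _ => h4 a⟩
  · rintro ⟨h1, h2, h3, h4⟩
    exact ⟨h1, fun a b => h2 a b (some_mem_lev.2 a.2),
      fun a a' h => h3 a a' (some_mem_lev.2 a.2) (some_mem_lev.2 a'.2) h,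
      fun a => h4 a (some_mem_lev.2 a.2) (some_mem_lev.2 a.2) a.2⟩

/-- The coordinates of vectors and covectors as polynomials. -/
noncomputable def xv (K : Type) [Field K] (N : ℕ) (a : Fin w) (b : Bool) (i : Fin w) :
    Pol K (dJ N w) :=
  MvPolynomial.X ⟨some (a, b), i⟩

/-- Polynomials in the base point. -/
noncomputable def up (w : ℕ) (f : Pol K fun _ : Unit => N) : Pol K (dJ N w) :=
  ren (d := dJ N w) (fun _ : Unit => (none : J w)) f

@[simp] theorem ev_xv (a : Fin w) (b : Bool) (i : Fin w) (p : Amb K (dJ N w)) :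
    ev (xv K N a b i) p = vc p a b i := ev_X _ p

@[simp] theorem ev_up (f : Pol K fun _ : Unit => N) (p : Amb K (dJ N w)) :
    ev (up w f) p = ev f (bz p) :=
  ev_ren (d := dJ N w) (fun _ : Unit => (none : J w)) f p

/-- Index set of the equations. -/
abbrev EqI (w c : ℕ) : Type :=
  {a : Fin w // (a : ℕ) < c} ⊕ {x : Fin w × Fin w // x.1 ≠ x.2} ⊕
    {x : Fin w × Fin w // ¬((x.1 : ℕ) < c ↔ (x.2 : ℕ) < c)}

/-- The equations of the top of the tower. -/
noncomputable def Dat.g0 (X : Dat K N w c) (F : Fin w → Pol K fun _ : Unit => N) :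
    EqI w c → Pol K (dJ N w)
  | .inl a => ∑ i, xv K N a.1 false i * up w (F i)
  | .inr (.inl x) => ∑ i, xv K N x.1.1 true i * xv K N x.1.2 false i
  | .inr (.inr x) => ∑ i, ∑ j, xv K N x.1.1 true i * up w (X.E i j) * xv K N x.1.2 false j

/-- A form of positive degree in every block without zeros on the top of the tower. -/
noncomputable def piF (w : ℕ) (h : Pol K fun _ : Unit => N) : Pol K (dJ N w) :=
  up w h * ∏ a : Fin w, ∑ i, xv K N a true i * xv K N a false i

end Pool.Agent.MP_855f4c_ag.Aff
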