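import Pool.Agent.MP_855f4c_ag.Aff.TowerDefs

/-! Dimensions of the fibres in the tower. -/

namespace Pool.Agent.MP_855f4c_ag.Aff

open Matrix Module

variable {L : Type} [Field L] {w c : ℕ}

/-- The space of admissible `k`-th vectors: eigenvectors of `E` killed by the covectors `φ a`,
`a < k`. -/
def adm (E : Matrix (Fin w) (Fin w) L) (e : L) (k : ℕ) (φ : ∀ a : Fin w, (a : ℕ) < k → Fin w → L) :
    Submodule L (Fin w → L) where
  carrier := {x | E *ᵥ x = e • x ∧ ∀ a h, φ a h ⬝ᵥ x = 0}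
  add_mem' := by
    rintro x y ⟨h1, h2⟩ ⟨h3, h4⟩
    exact ⟨by rw [mulVec_add, h1, h3, smul_add], fun a h => by rw [dotProduct_add, h2, h4, add_zero]⟩
  zero_mem' := ⟨by simp, fun a h => by simp⟩
  smul_mem' := by
    rintro t x ⟨h1, h2⟩
    exact ⟨by rw [mulVec_smul, h1, smul_comm], fun a h => by rw [dotProduct_smul, h2, smul_zero]⟩

theorem towerlin_dot {I : Type} [Fintype I] (v φ : I → Fin w → L)
    (ho : ∀ a a', a ≠ a' → φ a ⬝ᵥ v a' = 0) (hn : ∀ a, φ a ⬝ᵥ v a ≠ 0) (t : I → L) (a : I) :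
    φ a ⬝ᵥ ∑ a', (t a' / φ a' ⬝ᵥ v a') • v a' = t a := by
  rw [dotProduct_sum, Finset.sum_eq_single a]
  · rw [dotProduct_smul, smul_eq_mul, div_mul_cancel₀ _ (hn a)]
  · intro b _ hb
    rw [dotProduct_smul, ho a b hb.symm, smul_zero]
  · simp

theorem towerlin_gen {I : Type} [Fintype I] (V U : Submodule L (Fin w → L))
    (v φ : I → Fin w → L) (hv : ∀ a, v a ∈ V) (ho : ∀ a a', a ≠ a' → φ a ⬝ᵥ v a' = 0)
    (hn : ∀ a, φ a ⬝ᵥ v a ≠ 0) (hU : ∀ x, x ∈ U ↔ x ∈ V ∧ ∀ a, φ a ⬝ᵥ x = 0) :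
    finrank L U + Fintype.card I = finrank L V := by
  let f : V →ₗ[L] I → L := LinearMap.pi fun a => dotProductBilin L L (φ a) ∘ₗ V.subtype
  have hf : ∀ x a, f x a = φ a ⬝ᵥ x.1 := fun _ _ => rfl
  have h1 : LinearMap.range f = ⊤ := by
    rw [LinearMap.range_eq_top]
    intro t
    refine ⟨⟨∑ a', (t a' / φ a' ⬝ᵥ v a') • v a',
      V.sum_mem fun a _ => V.smul_mem _ (hv a)⟩, funext fun a => ?_⟩
    rw [hf]
    exact towerlin_dot v φ ho hn t a
  have h2 : (LinearMap.ker f).map V.subtype = U := by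
    ext x
    rw [hU, Submodule.mem_map]
    constructor
    · rintro ⟨y, hy, rfl⟩
      exact ⟨y.2, fun a => congrFun (LinearMap.mem_ker.1 hy) a⟩
    · rintro ⟨h, h'⟩
      exact ⟨⟨x, h⟩, LinearMap.mem_ker.2 (funext h'), rfl⟩
  have h3 := LinearMap.finrank_range_add_finrank_ker f
  rw [h1, finrank_top, finrank_fintype_fun_eq_card, ← Submodule.finrank_map_subtype_eq, h2] at h3
  omega

theorem towerlin_eig (E : Matrix (Fin w) (Fin w) L) (H : L) (hH : H ≠ 0) (hE : E * E = H • E)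
    (hr : E.rank = c) (k : ℕ) : ∃ V : Submodule L (Fin w → L),
      (∀ x, x ∈ V ↔ E *ᵥ x = (if k < c then H else 0) • x) ∧
        finrank L V = if k < c then c else w - c := by
  split_ifs
  · refine ⟨LinearMap.range E.mulVecLin, fun x => ⟨?_, fun h => ⟨H⁻¹ • x, ?_⟩⟩, hr⟩
    · rintro ⟨y, rfl⟩
      rw [mulVecLin_apply, mulVec_mulVec, hE, smul_mulVec]
    · rw [mulVecLin_apply, mulVec_smul, h, smul_smul, inv_mul_cancel₀ hH, one_smul]
  · refine ⟨LinearMap.ker E.mulVecLin, fun x => by simp, ?_⟩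
    have h3 := LinearMap.finrank_range_add_finrank_ker E.mulVecLin
    rw [finrank_fintype_fun_eq_card, Fintype.card_fin] at h3
    have h4 : finrank L (LinearMap.range E.mulVecLin) = c := hr
    omega

theorem towerlin_tr (E : Matrix (Fin w) (Fin w) L) (φ x : Fin w → L) :
    φ ⬝ᵥ E *ᵥ x = (Eᵀ *ᵥ φ) ⬝ᵥ x := by
  rw [dotProduct_mulVec, mulVec_transpose]

theorem towerlin_mem (E : Matrix (Fin w) (Fin w) L) (H : L) (hH : H ≠ 0) (k : ℕ)
    (φ : ∀ a : Fin w, (a : ℕ) < k → Fin w → L)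
    (hφ : ∀ a h, Eᵀ *ᵥ φ a h = (if (a : ℕ) < c then H else 0) • φ a h) (x : Fin w → L) :
    x ∈ adm E (if k < c then H else 0) k φ ↔ E *ᵥ x = (if k < c then H else 0) • x ∧
      ∀ a : {a : Fin w // (a : ℕ) < k ∧ ((a : ℕ) < c ↔ k < c)}, φ a.1 a.2.1 ⬝ᵥ x = 0 := by
  refine ⟨fun h => ⟨h.1, fun a => h.2 _ _⟩, fun h => ⟨h.1, fun a ha => ?_⟩⟩
  by_cases hc : (a : ℕ) < c ↔ k < c
  · exact h.2 ⟨a, ha, hc⟩
  · have h1 := towerlin_tr E (φ a ha) x
    rw [h.1, hφ, if_neg (by omega), if_pos (by omega), zero_smul, dotProduct_zero,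
      smul_dotProduct, smul_eq_mul] at h1
    exact (mul_eq_zero.1 h1.symm).resolve_left hH

theorem towerlin_card (k : Fin w) :
    Fintype.card {a : Fin w // (a : ℕ) < k ∧ ((a : ℕ) < c ↔ (k : ℕ) < c)} =
      if (k : ℕ) < c then (k : ℕ) else k - c := by
  have e : (if (k : ℕ) < c then (k : ℕ) else k - c) =
      (Finset.Ico (if (k : ℕ) < c then 0 else c) (k : ℕ)).card := by
    rw [Nat.card_Ico]
    split_ifs <;> rfl
  rw [e, Fintype.card_subtype]
  refine Finset.card_bij (fun a _ => (a : ℕ)) ?_ (fun a _ b _ h => Fin.ext h) ?_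
  · intro a ha
    simp only [Finset.mem_filter, Finset.mem_univ, true_and, Finset.mem_Ico] at ha ⊢
    split_ifs <;> omega
  · intro b hb
    rw [Finset.mem_Ico] at hb
    refine ⟨⟨b, hb.2.trans k.2⟩, ?_, rfl⟩
    simp only [Finset.mem_filter, Finset.mem_univ, true_and]
    split_ifs at hb <;> omega

theorem finrank_adm (E : Matrix (Fin w) (Fin w) L) (H : L) (hH : H ≠ 0) (hE : E * E = H • E)
    (hr : E.rank = c) (k : Fin w) (v φ : ∀ a : Fin w, (a : ℕ) < k → Fin w → L)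
    (hv : ∀ a h, E *ᵥ v a h = (if (a : ℕ) < c then H else 0) • v a h)
    (hφ : ∀ a h, Eᵀ *ᵥ φ a h = (if (a : ℕ) < c then H else 0) • φ a h)
    (ho : ∀ a h a' h', a ≠ a' → φ a h ⬝ᵥ v a' h' = 0) (hn : ∀ a h, φ a h ⬝ᵥ v a h ≠ 0) :
    finrank L (adm E (if (k : ℕ) < c then H else 0) k φ) = rk w c k + 1 := by
  obtain ⟨V, hV, hd⟩ := towerlin_eig E H hH hE hr k
  have h := towerlin_gen (I := {a : Fin w // (a : ℕ) < k ∧ ((a : ℕ) < c ↔ (k : ℕ) < c)}) V
    (adm E (if (k : ℕ) < c then H else 0) k φ) (fun a => v a.1 a.2.1) (fun a => φ a.1 a.2.1)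
    (fun a => by rw [hV, hv]; simp only [a.2.2])
    (fun a a' h => ho _ _ _ _ fun e => h (Subtype.ext e)) (fun a => hn _ _)
    (fun x => by rw [hV]; exact towerlin_mem E H hH k φ hφ x)
  rw [hd, towerlin_card] at h
  have := k.2
  unfold rk
  split_ifs at h ⊢ <;> omega

/-- Inside the admissible vectors, those killed by a nonzero admissible covector form a
hyperplane. -/
theorem finrank_adm_inf (E : Matrix (Fin w) (Fin w) L) (H : L) (hH : H ≠ 0) (hE : E * E = H • E)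
    (hr : E.rank = c) (k : Fin w) (v φ : ∀ a : Fin w, (a : ℕ) < k → Fin w → L)
    (hv : ∀ a h, E *ᵥ v a h = (if (a : ℕ) < c then H else 0) • v a h)
    (hφ : ∀ a h, Eᵀ *ᵥ φ a h = (if (a : ℕ) < c then H else 0) • φ a h)
    (ho : ∀ a h a' h', a ≠ a' → φ a h ⬝ᵥ v a' h' = 0) (hn : ∀ a h, φ a h ⬝ᵥ v a h ≠ 0)
    (ψ : Fin w → L) (hψ0 : ψ ≠ 0) (hψ : ψ ∈ adm Eᵀ (if (k : ℕ) < c then H else 0) k v) :
    finrank L (adm E (if (k : ℕ) < c then H else 0) k φ ⊓
      LinearMap.ker (dotProductBilin L L ψ) : Submodule L (Fin w → L)) = rk w c k := by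
  obtain ⟨y, hy⟩ : ∃ y, ψ ⬝ᵥ y ≠ 0 := by
    by_contra hc
    push Not at hc
    exact hψ0 (dotProduct_eq_zero _ hc)
  obtain ⟨z, hz, hz'⟩ : ∃ z, E *ᵥ z = (if (k : ℕ) < c then H else 0) • z ∧ ψ ⬝ᵥ z ≠ 0 := by
    have h1 := towerlin_tr E ψ y
    have h2 : E *ᵥ E *ᵥ y = H • E *ᵥ y := by rw [mulVec_mulVec, hE, smul_mulVec]
    rw [hψ.1] at h1
    split_ifs at h1 ⊢
    · exact ⟨E *ᵥ y, h2, by rw [h1, smul_dotProduct]; exact mul_ne_zero hH hy⟩
    · refine ⟨H • y - E *ᵥ y, by rw [mulVec_sub, mulVec_smul, h2, sub_self, zero_smul], ?_⟩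
      rw [dotProduct_sub, h1, zero_smul, zero_dotProduct, sub_zero, dotProduct_smul]
      exact mul_ne_zero hH hy
  let I := {a : Fin w // (a : ℕ) < k ∧ ((a : ℕ) < c ↔ (k : ℕ) < c)}
  let u : Fin w → L := ∑ a : I, (φ a.1 a.2.1 ⬝ᵥ z / φ a.1 a.2.1 ⬝ᵥ v a.1 a.2.1) • v a.1 a.2.1
  have hu : E *ᵥ u = (if (k : ℕ) < c then H else 0) • u := by
    simp only [u]
    rw [mulVec_sum, Finset.smul_sum]
    refine Finset.sum_congr rfl fun a _ => ?_
    rw [mulVec_smul, hv, smul_comm]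
    simp only [a.2.2]
  have hψu : ψ ⬝ᵥ u = 0 := by
    simp only [u]
    rw [dotProduct_sum]
    refine Finset.sum_eq_zero fun a _ => ?_
    rw [dotProduct_smul, dotProduct_comm ψ, hψ.2, smul_zero]
  have hx : z - u ∈ adm E (if (k : ℕ) < c then H else 0) k φ := by
    refine (towerlin_mem E H hH k φ hφ _).2 ⟨by rw [mulVec_sub, hz, hu, smul_sub], fun a => ?_⟩
    rw [dotProduct_sub, sub_eq_zero]
    exact (towerlin_dot (I := I) (fun a => v a.1 a.2.1) (fun a => φ a.1 a.2.1)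
      (fun a a' h => ho _ _ _ _ fun e => h (Subtype.ext e)) (fun a => hn _ _)
      (fun a => φ a.1 a.2.1 ⬝ᵥ z) a).symm
  have h := towerlin_gen (I := Unit) (adm E (if (k : ℕ) < c then H else 0) k φ)
    (adm E (if (k : ℕ) < c then H else 0) k φ ⊓ LinearMap.ker (dotProductBilin L L ψ))
    (fun _ => z - u) (fun _ => ψ) (fun _ => hx) (fun _ _ h => absurd rfl h)
    (fun _ => by rwa [dotProduct_sub, hψu, sub_zero]) (fun x => by simp)
  rw [finrank_adm E H hH hE hr k v φ hv hφ ho hn, Fintype.card_unit] at h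
  omega

end Pool.Agent.MP_855f4c_ag.Aff
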